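import Mathlib

/-!
# The stack of oriented rank two bundles with a map to the trivial rank three bundle
-/

open Matrix

namespace Pool.Agent.H353R3

universe u

/-- An object over `Spec R` of the quotient stack `[Hom(k², k³) / SL₂]`: an `SL₂`-torsor is the
same thing as a rank two vector bundle `E` with a nowhere vanishing alternating form `vol`
(a trivialisation of its determinant), and an equivariant map from the torsor to `Hom(k², k³)` is
the same thing as a linear map `u : E → R³`. -/
structure Obj (R : Type u) [CommRing R] : Type (u + 1) where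
  /-- the rank two bundle -/
  E : Type u
  [acg : AddCommGroup E]
  [mod : Module R E]
  [fin : Module.Finite R E]
  [proj : Module.Projective R E]
  rank_two : ∀ p : PrimeSpectrum R, Module.rankAtStalk (R := R) E p = 2
  /-- the trivialisation of the determinant -/
  vol : E →ₗ[R] E →ₗ[R] R
  vol_self : ∀ x, vol x x = 0
  vol_unit : Ideal.span {c : R | ∃ x y, vol x y = c} = ⊤
  /-- the map to the trivial bundle of rank three -/
  u : E →ₗ[R] (Fin 3 → R)

attribute [instance] Obj.acg Obj.mod Obj.fin Obj.proj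

/-- The volume of two elements. -/
def Obj.volume {R : Type u} [CommRing R] (a : Obj R) (x y : a.E) : R := a.vol x y

/-- The image of an element under `u`. -/
def Obj.image {R : Type u} [CommRing R] (a : Obj R) (x : a.E) : Fin 3 → R := a.u x

/-- The linear isomorphism `e` respects the volumes and the maps `u`. -/
def Obj.Respects {R : Type u} [CommRing R] (a b : Obj R) (e : a.E → b.E) : Prop :=
  (∀ x y, b.volume (e x) (e y) = a.volume x y) ∧ ∀ x, b.image (e x) = a.image x

/-- Isomorphisms between objects. -/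
def Obj.Iso {R : Type u} [CommRing R] (a b : Obj R) : Type u :=
  {e : a.E ≃ₗ[R] b.E // a.Respects b e}

/-- The cross product of vectors in `R³`. -/
def cross {R : Type u} [CommRing R] (v w : Fin 3 → R) : Fin 3 → R :=
  ![v 1 * w 2 - v 2 * w 1, v 2 * w 0 - v 0 * w 2, v 0 * w 1 - v 1 * w 0]

/-- The object `a` lies over the point `p` of `𝔸³(R) = R³`: `u x × u y = vol(x, y) p` for all
`x`, `y`. -/
def Obj.LiesOver {R : Type u} [CommRing R] (a : Obj R) (p : Fin 3 → R) : Prop :=
  ∀ x y, cross (a.image x) (a.image y) = fun i => a.volume x y * p i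

theorem Obj.liesOver_iff {R : Type u} [CommRing R] {a : Obj R} {p : Fin 3 → R} :
    a.LiesOver p ↔ ∀ x y, a.u x ⨯₃ a.u y = a.vol x y • p := Iff.rfl

theorem Obj.LiesOver.eq {R : Type u} [CommRing R] {a : Obj R} {p : Fin 3 → R}
    (h : a.LiesOver p) (x y : a.E) : a.u x ⨯₃ a.u y = a.vol x y • p := h x y

section General

variable {R : Type u} [CommRing R]

theorem Obj.vol_swap (a : Obj R) (x y : a.E) : a.vol y x = - a.vol x y := by
  have h := a.vol_self (x + y)
  simp only [map_add, LinearMap.add_apply, a.vol_self, zero_add, add_zero] at h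
  linear_combination h

/-- Nakayama: locally at a maximal ideal `E` is generated by any two elements whose volume is a
unit. -/
theorem Obj.loc (a : Obj R) (m : Ideal R) [hm : m.IsMaximal] :
    ∃ x₀ y₀ : a.E, a.vol x₀ y₀ ∉ m ∧ ∀ x : a.E, ∃ s : R, s ∉ m ∧ ∃ α β : R,
      s • x = α • x₀ + β • y₀ := by
  have h1 : ∃ x₀ y₀ : a.E, a.vol x₀ y₀ ∉ m := by
    by_contra hcon
    push Not at hcon
    have : Ideal.span {c : R | ∃ x y, a.vol x y = c} ≤ m := by
      rw [Ideal.span_le]
      rintro c ⟨x, y, rfl⟩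
      exact hcon x y
    rw [a.vol_unit] at this
    exact hm.ne_top (top_le_iff.1 this)
  obtain ⟨x₀, y₀, hv⟩ := h1
  refine ⟨x₀, y₀, hv, ?_⟩
  -- the quotient module
  let N : Submodule R a.E := Submodule.span R {x₀, y₀}
  let _ : Field (R ⧸ m) := Ideal.Quotient.field m
  -- dimension of the fibre
  have hrk : Module.finrank (R ⧸ m) (TensorProduct R (R ⧸ m) a.E) = 2 := by
    have h4 := Module.rankAtStalk_baseChange (R := R) (M := a.E) (S := R ⧸ m)
      ⟨⊥, Ideal.isPrime_bot⟩
    rw [a.rank_two, Module.rankAtStalk_eq_finrank_of_free] at h4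
    simpa using h4
  -- the two vectors are independent in the fibre
  let κ := R ⧸ m
  let volκ : TensorProduct R κ a.E →ₗ[κ] TensorProduct R κ a.E →ₗ[κ] κ :=
    LinearMap.BilinForm.baseChange κ a.vol
  have hvolκ : ∀ x y : a.E, volκ (1 ⊗ₜ[R] x) (1 ⊗ₜ[R] y) = algebraMap R κ (a.vol x y) := by
    intro x y
    simp [volκ, LinearMap.BilinForm.baseChange_tmul, Algebra.algebraMap_eq_smul_one]
  have hv' : algebraMap R κ (a.vol x₀ y₀) ≠ 0 := by
    intro h
    exact hv (Ideal.Quotient.eq_zero_iff_mem.1 h)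
  have hli : LinearIndependent κ ![(1 : κ) ⊗ₜ[R] x₀, (1 : κ) ⊗ₜ[R] y₀] := by
    rw [LinearIndependent.pair_iff]
    intro s t hst
    have e1 := congrArg (fun z => volκ z (1 ⊗ₜ[R] y₀)) hst
    have e2 := congrArg (fun z => volκ z (1 ⊗ₜ[R] x₀)) hst
    simp only [map_add, map_smul, LinearMap.add_apply, LinearMap.smul_apply, map_zero,
      LinearMap.zero_apply, hvolκ, a.vol_self, smul_eq_mul, mul_zero, add_zero, zero_add] at e1 e2
    rw [a.vol_swap x₀ y₀, map_neg] at e2
    refine ⟨(mul_eq_zero.1 e1).resolve_right hv', ?_⟩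
    rcases mul_eq_zero.1 e2 with h | h
    · exact h
    · exact absurd (neg_eq_zero.1 h) hv'
  have hspan : Submodule.span κ (Set.range ![(1 : κ) ⊗ₜ[R] x₀, (1 : κ) ⊗ₜ[R] y₀]) = ⊤ := by
    apply hli.span_eq_top_of_card_eq_finrank
    rw [hrk]; simp
  -- hence E = N + m E
  have hNm : (⊤ : Submodule R a.E) ≤ N ⊔ (m • (⊤ : Submodule R a.E)) := by
    intro x _
    have hx : (1 : κ) ⊗ₜ[R] x ∈ Submodule.span κ
        (Set.range ![(1 : κ) ⊗ₜ[R] x₀, (1 : κ) ⊗ₜ[R] y₀]) := by
      rw [hspan]; trivial
    rw [Matrix.range_cons, Matrix.range_cons, Matrix.range_empty, Set.union_empty,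
      Set.singleton_union, Submodule.mem_span_pair] at hx
    obtain ⟨α, β, hαβ⟩ := hx
    obtain ⟨α', rfl⟩ := Ideal.Quotient.mk_surjective α
    obtain ⟨β', rfl⟩ := Ideal.Quotient.mk_surjective β
    have h5 : x - (α' • x₀ + β' • y₀) ∈ (m • (⊤ : Submodule R a.E)) := by
      rw [← LinearMap.ker_tensorProductMk, LinearMap.mem_ker]
      simp only [TensorProduct.mk_apply, TensorProduct.tmul_sub, TensorProduct.tmul_add,
        TensorProduct.tmul_smul]
      rw [sub_eq_zero, ← hαβ]
      rfl
    have h6 : x = (α' • x₀ + β' • y₀) + (x - (α' • x₀ + β' • y₀)) := by abel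
    rw [h6]
    exact Submodule.add_mem_sup (Submodule.mem_span_pair.2 ⟨α', β', rfl⟩) h5
  obtain ⟨r, hr, hrle⟩ := Submodule.exists_sub_one_mem_and_smul_le_of_fg_of_le_sup
    (Module.Finite.fg_top (R := R) (M := a.E)) le_rfl hNm
  intro x
  refine ⟨r, ?_, ?_⟩
  · intro hrm
    apply hm.ne_top
    rw [Ideal.eq_top_iff_one]
    have := m.sub_mem hrm hr
    simpa using this
  · have hx : r • x ∈ N := hrle ⟨x, trivial, rfl⟩
    obtain ⟨α, β, h⟩ := Submodule.mem_span_pair.1 hx
    exact ⟨α, β, h.symm⟩

/-- An element of a module killed, for each maximal ideal, by an element outside of it, is zero. -/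
theorem eq_zero_of_local {M : Type*} [AddCommGroup M] [Module R M] (e : M)
    (h : ∀ m : Ideal R, m.IsMaximal → ∃ s : R, s ∉ m ∧ s • e = 0) : e = 0 := by
  by_contra hne
  have hI : Module.annihilator R (Submodule.span R {e}) ≠ ⊤ := by
    intro htop
    rw [Ideal.eq_top_iff_one, Module.mem_annihilator] at htop
    have := htop ⟨e, Submodule.mem_span_singleton_self e⟩
    apply hne
    simpa using congrArg Subtype.val this
  obtain ⟨m, hm, hle⟩ := Ideal.exists_le_maximal _ hI
  obtain ⟨s, hs, hse⟩ := h m hm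
  apply hs
  apply hle
  rw [Module.mem_annihilator]
  rintro ⟨x, hx⟩
  obtain ⟨c, rfl⟩ := Submodule.mem_span_singleton.1 hx
  apply Subtype.ext
  simp [smul_comm s c, hse]

/-- Cramer's rule: any alternating bilinear map is proportional to `vol`. -/
theorem Obj.alt_eq (a : Obj R) {M : Type*} [AddCommGroup M] [Module R M]
    (B : a.E →ₗ[R] a.E →ₗ[R] M) (hB : ∀ x, B x x = 0) (x y z w : a.E) :
    a.vol x y • B z w = a.vol z w • B x y := by
  have hswap : ∀ x y, B y x = - B x y := by
    intro x y
    have h := hB (x + y)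
    simp only [map_add, LinearMap.add_apply, hB, zero_add, add_zero] at h
    exact eq_neg_of_add_eq_zero_left h
  rw [← sub_eq_zero]
  apply eq_zero_of_local (R := R)
  intro m hm
  obtain ⟨x₀, y₀, -, hloc⟩ := a.loc m
  obtain ⟨s1, hs1, a1, b1, h1⟩ := hloc x
  obtain ⟨s2, hs2, a2, b2, h2⟩ := hloc y
  obtain ⟨s3, hs3, a3, b3, h3⟩ := hloc z
  obtain ⟨s4, hs4, a4, b4, h4⟩ := hloc w
  refine ⟨s1 * s2 * (s3 * s4), ?_, ?_⟩
  · have hp := hm.isPrime
    intro h
    rcases hp.mem_or_mem h with h | h
    · rcases hp.mem_or_mem h with h | h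
      · exact hs1 h
      · exact hs2 h
    · rcases hp.mem_or_mem h with h | h
      · exact hs3 h
      · exact hs4 h
  · have e1 : (s1 * s2) * a.vol x y = (a1 * b2 - b1 * a2) * a.vol x₀ y₀ := by
      calc (s1 * s2) * a.vol x y = a.vol (s1 • x) (s2 • y) := by
            simp only [map_smul, LinearMap.smul_apply, smul_eq_mul]; ring
        _ = _ := by
            rw [h1, h2]
            simp only [map_add, map_smul, LinearMap.add_apply, LinearMap.smul_apply, smul_eq_mul,
              a.vol_self, a.vol_swap x₀ y₀]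
            ring
    have e2 : (s3 * s4) * a.vol z w = (a3 * b4 - b3 * a4) * a.vol x₀ y₀ := by
      calc (s3 * s4) * a.vol z w = a.vol (s3 • z) (s4 • w) := by
            simp only [map_smul, LinearMap.smul_apply, smul_eq_mul]; ring
        _ = _ := by
            rw [h3, h4]
            simp only [map_add, map_smul, LinearMap.add_apply, LinearMap.smul_apply, smul_eq_mul,
              a.vol_self, a.vol_swap x₀ y₀]
            ring
    have e3 : (s1 * s2) • B x y = (a1 * b2 - b1 * a2) • B x₀ y₀ := by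
      calc (s1 * s2) • B x y = B (s1 • x) (s2 • y) := by
            simp only [map_smul, LinearMap.smul_apply, smul_smul]; rw [mul_comm]
        _ = _ := by
            rw [h1, h2]
            simp only [map_add, map_smul, LinearMap.add_apply, LinearMap.smul_apply,
              hB, hswap x₀ y₀]
            module
    have e4 : (s3 * s4) • B z w = (a3 * b4 - b3 * a4) • B x₀ y₀ := by
      calc (s3 * s4) • B z w = B (s3 • z) (s4 • w) := by
            simp only [map_smul, LinearMap.smul_apply, smul_smul]; rw [mul_comm]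
        _ = _ := by
            rw [h3, h4]
            simp only [map_add, map_smul, LinearMap.add_apply, LinearMap.smul_apply,
              hB, hswap x₀ y₀]
            module
    have e5 : (s1 * s2 * (s3 * s4)) • (a.vol x y • B z w - a.vol z w • B x y)
        = ((s1 * s2) * a.vol x y) • ((s3 * s4) • B z w)
          - ((s3 * s4) * a.vol z w) • ((s1 * s2) • B x y) := by
      module
    rw [e5, e1, e2, e3, e4]
    module

/-- Cramer's rule. -/
theorem Obj.cramer (a : Obj R) (x y z : a.E) :
    a.vol x y • z = a.vol z y • x + a.vol x z • y := by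
  rw [← sub_eq_zero]
  apply eq_zero_of_local (R := R)
  intro m hm
  obtain ⟨x₀, y₀, -, hloc⟩ := a.loc m
  obtain ⟨s1, hs1, a1, b1, h1⟩ := hloc x
  obtain ⟨s2, hs2, a2, b2, h2⟩ := hloc y
  obtain ⟨s3, hs3, a3, b3, h3⟩ := hloc z
  refine ⟨s1 * s2 * s3, ?_, ?_⟩
  · have hp := hm.isPrime
    intro h
    rcases hp.mem_or_mem h with h | h
    · rcases hp.mem_or_mem h with h | h
      · exact hs1 h
      · exact hs2 h
    · exact hs3 h
  · have key : (s1 * s2 * s3) • (a.vol x y • z - (a.vol z y • x + a.vol x z • y))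
        = a.vol (s1 • x) (s2 • y) • (s3 • z) - (a.vol (s3 • z) (s2 • y) • (s1 • x)
          + a.vol (s1 • x) (s3 • z) • (s2 • y)) := by
      simp only [map_smul, LinearMap.smul_apply, smul_eq_mul]
      module
    rw [key, h1, h2, h3]
    simp only [map_add, map_smul, LinearMap.add_apply, LinearMap.smul_apply, smul_eq_mul,
      a.vol_self, a.vol_swap x₀ y₀]
    module

/-- Since the values of `vol` generate the unit ideal, a property of scalars which is closed under
sums and multiples and holds for the values of `vol` holds for `1`. -/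
theorem Obj.one_of_vol (a : Obj R) (P : R → Prop) (h0 : P 0) (hadd : ∀ r s, P r → P s → P (r + s))
    (hmul : ∀ c r, P r → P (c * r)) (hvol : ∀ x y, P (a.vol x y)) : P 1 := by
  have h : (1 : R) ∈ Ideal.span {c : R | ∃ x y, a.vol x y = c} := by
    rw [a.vol_unit]; trivial
  refine Submodule.span_induction (p := fun r _ => P r) ?_ h0 (fun r s _ _ hr hs => hadd r s hr hs)
    (fun c r _ hr => hmul c r hr) h
  rintro r ⟨x, y, rfl⟩
  exact hvol x y

theorem Obj.eq_zero_of_vol (a : Obj R) {M : Type*} [AddCommGroup M] [Module R M] (e : M)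
    (h : ∀ x y, a.vol x y • e = 0) : e = 0 := by
  have := a.one_of_vol (fun r => r • e = 0) (by simp)
    (fun r s hr hs => by simp only [add_smul, hr, hs, add_zero])
    (fun c r hr => by simp only [mul_smul, hr, smul_zero]) h
  simpa using this

/-- Every object lies over exactly one point of `𝔸³`. -/
theorem Obj.existsUnique_liesOver (a : Obj R) : ∃! p : Fin 3 → R, a.LiesOver p := by
  have hex : ∃ p : Fin 3 → R, ∀ x y, (1 : R) • (a.u x ⨯₃ a.u y) = a.vol x y • p := by
    apply a.one_of_vol (fun r => ∃ p : Fin 3 → R, ∀ x y, r • (a.u x ⨯₃ a.u y) = a.vol x y • p)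
    · exact ⟨0, by simp⟩
    · rintro r s ⟨p, hp⟩ ⟨q, hq⟩
      exact ⟨p + q, fun x y => by rw [add_smul, hp, hq, smul_add]⟩
    · rintro c r ⟨p, hp⟩
      exact ⟨c • p, fun x y => by rw [mul_smul, hp, smul_comm]⟩
    · intro x y
      refine ⟨a.u x ⨯₃ a.u y, fun z w => ?_⟩
      exact a.alt_eq ((crossProduct.compl₁₂ a.u a.u)) (fun x => by simp) x y z w
  obtain ⟨p, hp⟩ := hex
  refine ⟨p, Obj.liesOver_iff.2 fun x y => by simpa using hp x y, fun q hq => ?_⟩
  have : q - p = 0 := by
    apply a.eq_zero_of_vol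
    intro x y
    rw [smul_sub, ← hq.eq x y, ← hp x y, one_smul, sub_self]
  exact sub_eq_zero.1 this

theorem Obj.triple (a : Obj R) (x y z : a.E) : a.u x ⬝ᵥ (a.u y ⨯₃ a.u z) = 0 := by
  apply eq_zero_of_local (R := R)
  intro m hm
  obtain ⟨x₀, y₀, -, hloc⟩ := a.loc m
  obtain ⟨s1, hs1, a1, b1, h1⟩ := hloc x
  obtain ⟨s2, hs2, a2, b2, h2⟩ := hloc y
  obtain ⟨s3, hs3, a3, b3, h3⟩ := hloc z
  refine ⟨s1 * s2 * s3, ?_, ?_⟩
  · have hp := hm.isPrime
    intro h
    rcases hp.mem_or_mem h with h | h
    · rcases hp.mem_or_mem h with h | h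
      · exact hs1 h
      · exact hs2 h
    · exact hs3 h
  · have key : (s1 * s2 * s3) • (a.u x ⬝ᵥ (a.u y ⨯₃ a.u z))
        = a.u (s1 • x) ⬝ᵥ (a.u (s2 • y) ⨯₃ a.u (s3 • z)) := by
      simp only [map_smul, LinearMap.smul_apply, smul_dotProduct, dotProduct_smul, smul_eq_mul]
      ring
    rw [key, h1, h2, h3]
    have hu : ∀ α β : R, a.u (α • x₀ + β • y₀) = α • a.u x₀ + β • a.u y₀ := by
      intro α β; rw [map_add, map_smul, map_smul]
    rw [hu, hu, hu]
    generalize a.u x₀ = X
    generalize a.u y₀ = Y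
    simp only [cross_apply, vec3_dotProduct, Pi.add_apply, Pi.smul_apply, smul_eq_mul]
    simp
    ring

theorem Obj.LiesOver.dot {a : Obj R} {p : Fin 3 → R} (h : a.LiesOver p) (x : a.E) :
    a.u x ⬝ᵥ p = 0 := by
  apply a.eq_zero_of_vol
  intro y z
  have := a.triple x y z
  rw [h.eq y z, dotProduct_smul] at this
  exact this

/-- `p` is unimodular. -/
def Unimod (p : Fin 3 → R) : Prop := ∃ q : Fin 3 → R, q ⬝ᵥ p = 1

theorem Unimod.smul_eq_zero {p : Fin 3 → R} (hp : Unimod p) {c : R} (h : c • p = 0) : c = 0 := by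
  obtain ⟨q, hq⟩ := hp
  have := congrArg (fun v => q ⬝ᵥ v) h
  simpa [dotProduct_smul, hq] using this

theorem Obj.LiesOver.injective {a : Obj R} {p : Fin 3 → R} (h : a.LiesOver p) (hp : Unimod p) :
    Function.Injective a.u := by
  rw [← LinearMap.ker_eq_bot, LinearMap.ker_eq_bot']
  intro z hz
  have hvol : ∀ y, a.vol z y = 0 := by
    intro y
    apply hp.smul_eq_zero
    rw [← h.eq z y, hz]
    simp
  apply a.eq_zero_of_vol
  intro x y
  rw [a.cramer x y z, hvol y, a.vol_swap z x, hvol x]
  simp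

end General

end Pool.Agent.H353R3
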