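import Pool.Agent.H353R3.Arc1

open Matrix

namespace Pool.Agent.H353R3

universe u

section Perp

variable {R : Type u} [CommRing R]

/-- The orthogonal complement of `p`. -/
def perp (p : Fin 3 → R) : Submodule R (Fin 3 → R) where
  carrier := {w | w ⬝ᵥ p = 0}
  add_mem' := by
    intro a b ha hb
    change (a + b) ⬝ᵥ p = 0
    rw [add_dotProduct, show a ⬝ᵥ p = 0 from ha, show b ⬝ᵥ p = 0 from hb, add_zero]
  zero_mem' := by simp
  smul_mem' := by
    intro c x hx
    change (c • x) ⬝ᵥ p = 0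
    rw [smul_dotProduct, show x ⬝ᵥ p = 0 from hx, smul_zero]

theorem mem_perp {p w : Fin 3 → R} : w ∈ perp p ↔ w ⬝ᵥ p = 0 := Iff.rfl

theorem cross_eq {p q : Fin 3 → R} (hq : q ⬝ᵥ p = 1) {v w : Fin 3 → R} (hv : v ⬝ᵥ p = 0)
    (hw : w ⬝ᵥ p = 0) : v ⨯₃ w = (q ⬝ᵥ (v ⨯₃ w)) • p := by
  simp only [vec3_dotProduct] at *
  funext i
  fin_cases i
  · simp [cross_apply]
    linear_combination (-(v 1 * w 2 - v 2 * w 1)) * hq + (q 1 * w 2 - q 2 * w 1) * hv - (q 1 * v 2 - q 2 * v 1) * hw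
  · simp [cross_apply]
    linear_combination (-(v 2 * w 0 - v 0 * w 2)) * hq + (q 2 * w 0 - q 0 * w 2) * hv - (q 2 * v 0 - q 0 * v 2) * hw
  · simp [cross_apply]
    linear_combination (-(v 0 * w 1 - v 1 * w 0)) * hq + (q 0 * w 1 - q 1 * w 0) * hv - (q 0 * v 1 - q 1 * v 0) * hw

/-- The splitting `R³ = p^⊥ ⊕ R`. -/
def splitEquiv {p q : Fin 3 → R} (hq : q ⬝ᵥ p = 1) : (perp p × R) ≃ₗ[R] (Fin 3 → R) where
  toFun x := x.1.1 + x.2 • q
  map_add' x y := by
    simp only [Prod.fst_add, Submodule.coe_add, Prod.snd_add]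
    module
  map_smul' c x := by
    simp only [Prod.smul_fst, SetLike.val_smul, Prod.smul_snd, RingHom.id_apply, smul_eq_mul]
    module
  invFun w := (⟨w - (w ⬝ᵥ p) • q, by rw [mem_perp, sub_dotProduct, smul_dotProduct, hq]; simp⟩,
    w ⬝ᵥ p)
  left_inv x := by
    obtain ⟨⟨v, hv⟩, c⟩ := x
    rw [mem_perp] at hv
    refine Prod.ext (Subtype.ext ?_) ?_
    · simp [add_dotProduct, hv, smul_dotProduct, hq]
    · simp [add_dotProduct, hv, smul_dotProduct, hq]
  right_inv w := by simp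

theorem perp_finite {p q : Fin 3 → R} (hq : q ⬝ᵥ p = 1) : Module.Finite R (perp p) :=
  Module.Finite.of_surjective ((LinearMap.fst R (perp p) R) ∘ₗ (splitEquiv hq).symm.toLinearMap)
    (by
      intro x
      exact ⟨splitEquiv hq (x, 0), by simp⟩)

theorem perp_projective {p q : Fin 3 → R} (hq : q ⬝ᵥ p = 1) : Module.Projective R (perp p) :=
  Module.Projective.of_split ((splitEquiv hq).toLinearMap ∘ₗ (LinearMap.inl R (perp p) R))
    ((LinearMap.fst R (perp p) R) ∘ₗ (splitEquiv hq).symm.toLinearMap) (by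
      ext x
      simp)

theorem perp_rank {p q : Fin 3 → R} (hq : q ⬝ᵥ p = 1) (P : PrimeSpectrum R) :
    Module.rankAtStalk (R := R) (perp p) P = 2 := by
  have := perp_finite hq
  have := perp_projective hq
  have : Nontrivial R := P.nontrivial
  have h1 := congrFun (Module.rankAtStalk_prod (R := R) (perp p) R) P
  rw [Module.rankAtStalk_eq_of_equiv (splitEquiv hq), Module.rankAtStalk_eq_finrank_of_free,
    Pi.add_apply, Module.rankAtStalk_eq_finrank_of_free (M := R)] at h1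
  simp at h1
  omega

/-- The volume form of `p^⊥`. -/
def perpVol (p q : Fin 3 → R) : perp p →ₗ[R] perp p →ₗ[R] R :=
  LinearMap.mk₂ R (fun v w : perp p => q ⬝ᵥ (v.1 ⨯₃ w.1))
    (by intro a b c; simp [dotProduct_add]) (by intro a b c; simp [dotProduct_smul])
    (by intro a b c; simp [dotProduct_add]) (by intro a b c; simp [dotProduct_smul])

theorem perpVol_apply (p q : Fin 3 → R) (v w : perp p) :
    perpVol p q v w = q ⬝ᵥ (v.1 ⨯₃ w.1) := rfl

theorem perpVol_unit {p q : Fin 3 → R} (hq : q ⬝ᵥ p = 1) :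
    Ideal.span {c : R | ∃ x y, perpVol p q x y = c} = ⊤ := by
  rw [Ideal.eq_top_iff_one, ← hq, vec3_dotProduct]
  have hmem : ∀ a : Fin 3 → R, p ⨯₃ a ∈ perp p := by
    intro a
    rw [mem_perp, dotProduct_comm]
    exact dot_self_cross p a
  have hval : ∀ a b : Fin 3 → R, (p ⬝ᵥ (a ⨯₃ b)) ∈
      Ideal.span {c : R | ∃ x y, perpVol p q x y = c} := by
    intro a b
    apply Ideal.subset_span
    refine ⟨⟨_, hmem a⟩, ⟨_, hmem b⟩, ?_⟩
    rw [perpVol_apply]
    have e1 : (p ⨯₃ a) ⨯₃ (p ⨯₃ b) = (p ⬝ᵥ (a ⨯₃ b)) • p := by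
      funext i
      rw [vec3_dotProduct]
      fin_cases i <;> simp [cross_apply] <;> ring
    rw [e1, dotProduct_smul, hq, smul_eq_mul, mul_one]
  have h0 := hval ![0, 1, 0] ![0, 0, 1]
  have h1 := hval ![0, 0, 1] ![1, 0, 0]
  have h2 := hval ![1, 0, 0] ![0, 1, 0]
  rw [show p ⬝ᵥ (![0, 1, 0] ⨯₃ ![0, 0, 1]) = p 0 by
    rw [vec3_dotProduct]; simp [cross_apply]] at h0
  rw [show p ⬝ᵥ (![0, 0, 1] ⨯₃ ![1, 0, 0]) = p 1 by
    rw [vec3_dotProduct]; simp [cross_apply]] at h1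
  rw [show p ⬝ᵥ (![1, 0, 0] ⨯₃ ![0, 1, 0]) = p 2 by
    rw [vec3_dotProduct]; simp [cross_apply]] at h2
  exact Ideal.add_mem _ (Ideal.add_mem _ (Ideal.mul_mem_left _ _ h0)
    (Ideal.mul_mem_left _ _ h1)) (Ideal.mul_mem_left _ _ h2)

/-- The object `p^⊥ ⊂ R³` over a unimodular `p`. -/
noncomputable def perpObj {p q : Fin 3 → R} (hq : q ⬝ᵥ p = 1) : Obj R :=
  haveI := perp_finite hq
  haveI := perp_projective hq
  { E := perp p
    rank_two := perp_rank hq
    vol := perpVol p q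
    vol_self := by intro x; simp [perpVol_apply]
    vol_unit := perpVol_unit hq
    u := (perp p).subtype }

theorem perpObj_liesOver {p q : Fin 3 → R} (hq : q ⬝ᵥ p = 1) : (perpObj hq).LiesOver p := by
  rw [Obj.liesOver_iff]
  intro x y
  exact cross_eq hq x.2 y.2

theorem perpObj_vol {p q : Fin 3 → R} (hq : q ⬝ᵥ p = 1) (x y : perp p) :
    (perpObj hq).vol x y = q ⬝ᵥ (x.1 ⨯₃ y.1) := rfl

/-- An object over a unimodular point maps isomorphically to `p^⊥`. -/
theorem Obj.LiesOver.exists_preimage {a : Obj R} {p : Fin 3 → R} (h : a.LiesOver p)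
    (hp : Unimod p) {w : Fin 3 → R} (hw : w ⬝ᵥ p = 0) : ∃ z, a.u z = w := by
  obtain ⟨q, hq⟩ := hp
  have hex : ∃ z, a.u z = (1 : R) • w := by
    apply a.one_of_vol (fun r => ∃ z, a.u z = r • w)
    · exact ⟨0, by simp⟩
    · rintro r s ⟨z, hz⟩ ⟨z', hz'⟩
      exact ⟨z + z', by rw [map_add, hz, hz', add_smul]⟩
    · rintro c r ⟨z, hz⟩
      exact ⟨c • z, by rw [map_smul, hz, mul_smul]⟩
    · intro x y
      obtain ⟨X, hX⟩ : ∃ X : (perpObj hq).E, X = (⟨a.u x, h.dot x⟩ : perp p) := ⟨_, rfl⟩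
      obtain ⟨Y, hY⟩ : ∃ Y : (perpObj hq).E, Y = (⟨a.u y, h.dot y⟩ : perp p) := ⟨_, rfl⟩
      obtain ⟨W, hW⟩ : ∃ W : (perpObj hq).E, W = (⟨w, hw⟩ : perp p) := ⟨_, rfl⟩
      have hc' := congrArg (perpObj hq).u ((perpObj hq).cramer X Y W)
      rw [map_smul, map_add, map_smul, map_smul] at hc'
      have v1 : (perpObj hq).vol X Y = a.vol x y := by
        rw [hX, hY, perpObj_vol]
        change q ⬝ᵥ (a.u x ⨯₃ a.u y) = _
        rw [h.eq x y, dotProduct_smul, hq, smul_eq_mul, mul_one]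
      have v2 : (perpObj hq).vol W Y = q ⬝ᵥ (w ⨯₃ a.u y) := by
        rw [hW, hY, perpObj_vol]
      have v3 : (perpObj hq).vol X W = q ⬝ᵥ (a.u x ⨯₃ w) := by
        rw [hX, hW, perpObj_vol]
      rw [v1, v2, v3] at hc'
      have u1 : (perpObj hq).u X = a.u x := by rw [hX]; rfl
      have u2 : (perpObj hq).u Y = a.u y := by rw [hY]; rfl
      have u3 : (perpObj hq).u W = w := by rw [hW]; rfl
      rw [u1, u2, u3] at hc'
      refine ⟨(q ⬝ᵥ (w ⨯₃ a.u y)) • x + (q ⬝ᵥ (a.u x ⨯₃ w)) • y, ?_⟩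
      rw [map_add, map_smul, map_smul]
      exact hc'.symm
  simpa using hex

/-- Over a unimodular point there is, up to unique isomorphism, exactly one object. -/
theorem unique_iso {a b : Obj R} {p : Fin 3 → R} (ha : a.LiesOver p) (hb : b.LiesOver p)
    (hp : Unimod p) : Nonempty (Unique (a.Iso b)) := by
  have key : ∀ {a b : Obj R}, a.LiesOver p → b.LiesOver p → ∃ f : a.E → b.E,
      ∀ x, b.u (f x) = a.u x := by
    intro a b ha hb
    choose f hf using fun x => hb.exists_preimage hp (ha.dot x)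
    exact ⟨f, hf⟩
  obtain ⟨f, hf⟩ := key ha hb
  obtain ⟨g, hg⟩ := key hb ha
  have hai := ha.injective hp
  have hbi := hb.injective hp
  let e : a.E ≃ₗ[R] b.E :=
    { toFun := f
      map_add' := by intro x y; apply hbi; simp [hf]
      map_smul' := by intro c x; apply hbi; simp [hf]
      invFun := g
      left_inv := by intro x; apply hai; rw [hg, hf]
      right_inv := by intro x; apply hbi; rw [hf, hg] }
  refine ⟨⟨⟨⟨e, ?_, hf⟩⟩, ?_⟩⟩
  · intro x y
    have h1 : (b.vol (e x) (e y) - a.vol x y) • p = 0 := by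
      rw [sub_smul, ← hb.eq, ← ha.eq]
      change b.u (f x) ⨯₃ b.u (f y) - _ = 0
      rw [hf, hf, sub_self]
    exact sub_eq_zero.1 (hp.smul_eq_zero h1)
  · rintro ⟨e', he', he''⟩
    apply Subtype.ext
    apply LinearEquiv.ext
    intro x
    apply hbi
    have h3 : b.u (e' x) = a.u x := he'' x
    rw [h3]
    exact (hf x).symm

end Perp

end Pool.Agent.H353R3
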