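import Pool.Agent.H353R3.Arc2

open Matrix

namespace Pool.Agent.H353R3

universe u

section Std

variable {R : Type u} [CommRing R]

/-- The determinant form on `R²`. -/
def detForm (R : Type u) [CommRing R] : (Fin 2 → R) →ₗ[R] (Fin 2 → R) →ₗ[R] R :=
  LinearMap.mk₂ R (fun x y => x 0 * y 1 - x 1 * y 0)
    (by intro a b c; simp; ring) (by intro a b c; simp; ring)
    (by intro a b c; simp; ring) (by intro a b c; simp; ring)

theorem detForm_apply (x y : Fin 2 → R) : detForm R x y = x 0 * y 1 - x 1 * y 0 := rfl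

/-- The object given by the trivial torsor and the point `A ∈ Hom(R², R³)`. -/
noncomputable def std (A : Matrix (Fin 3) (Fin 2) R) : Obj R where
  E := Fin 2 → R
  rank_two := by
    intro p
    have : Nontrivial R := p.nontrivial
    rw [Module.rankAtStalk_eq_finrank_of_free]
    simp
  vol := detForm R
  vol_self := by intro x; rw [detForm_apply]; ring
  vol_unit := by
    rw [Ideal.eq_top_iff_one]
    apply Ideal.subset_span
    exact ⟨![1, 0], ![0, 1], by simp [detForm_apply]⟩
  u := A.mulVecLin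

theorem std_vol (A : Matrix (Fin 3) (Fin 2) R) (x y : Fin 2 → R) :
    (std A).vol x y = x 0 * y 1 - x 1 * y 0 := rfl

theorem std_u (A : Matrix (Fin 3) (Fin 2) R) (x : Fin 2 → R) :
    (std A).u x = A *ᵥ x := rfl

/-- The three `2 × 2` minors of `A`. -/
def minors (A : Matrix (Fin 3) (Fin 2) R) : Fin 3 → R :=
  cross (fun i => A i 0) (fun i => A i 1)

theorem mulVec_cross (A : Matrix (Fin 3) (Fin 2) R) (x y : Fin 2 → R) :
    (A *ᵥ x) ⨯₃ (A *ᵥ y) = (x 0 * y 1 - x 1 * y 0) • minors A := by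
  funext i
  fin_cases i <;>
  simp [minors, cross, cross_apply, Matrix.mulVec, dotProduct, Fin.sum_univ_two] <;> ring

theorem std_liesOver (A : Matrix (Fin 3) (Fin 2) R) : (std A).LiesOver (minors A) := by
  intro x y
  exact mulVec_cross A x y

theorem std_liesOver_iff {A : Matrix (Fin 3) (Fin 2) R} {p : Fin 3 → R} :
    (std A).LiesOver p ↔ p = minors A := by
  constructor
  · intro h
    exact (std A).existsUnique_liesOver.unique h (std_liesOver A)
  · rintro rfl
    exact std_liesOver A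

theorem det_mulVec (g : Matrix (Fin 2) (Fin 2) R) (x y : Fin 2 → R) :
    (g *ᵥ x) 0 * (g *ᵥ y) 1 - (g *ᵥ x) 1 * (g *ᵥ y) 0
      = g.det * (x 0 * y 1 - x 1 * y 0) := by
  simp only [Matrix.mulVec, dotProduct, Fin.sum_univ_two, Matrix.det_fin_two]
  ring

/-- The linear map underlying an isomorphism of standard objects. -/
noncomputable def isoMap {A B : Matrix (Fin 3) (Fin 2) R} (e : (std A).Iso (std B)) :
    (Fin 2 → R) →ₗ[R] (Fin 2 → R) := e.1.toLinearMap

theorem isoMap_vol {A B : Matrix (Fin 3) (Fin 2) R} (e : (std A).Iso (std B)) (x y : Fin 2 → R) :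
    (isoMap e x) 0 * (isoMap e y) 1 - (isoMap e x) 1 * (isoMap e y) 0
      = x 0 * y 1 - x 1 * y 0 := e.2.1 x y

theorem isoMap_u {A B : Matrix (Fin 3) (Fin 2) R} (e : (std A).Iso (std B)) (x : Fin 2 → R) :
    B *ᵥ (isoMap e x) = A *ᵥ x := e.2.2 x

theorem mulVec_of_mul {A B : Matrix (Fin 3) (Fin 2) R} {g : Matrix (Fin 2) (Fin 2) R}
    (h : B * g = A) (x : Fin 2 → R) : B *ᵥ (g *ᵥ x) = A *ᵥ x := by
  rw [Matrix.mulVec_mulVec, h]

/-- The linear automorphism given by a matrix of determinant one. -/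
noncomputable def slEquiv (g : SpecialLinearGroup (Fin 2) R) : (Fin 2 → R) ≃ₗ[R] (Fin 2 → R) where
  toFun x := g.1 *ᵥ x
  map_add' := Matrix.mulVec_add g.1
  map_smul' c x := Matrix.mulVec_smul g.1 c x
  invFun x := (g⁻¹).1 *ᵥ x
  left_inv x := by
    have h : (g⁻¹).1 * g.1 = 1 := congrArg Subtype.val (inv_mul_cancel g)
    change (g⁻¹).1 *ᵥ (g.1 *ᵥ x) = x
    rw [Matrix.mulVec_mulVec, h, Matrix.one_mulVec]
  right_inv x := by
    have h : g.1 * (g⁻¹).1 = 1 := congrArg Subtype.val (mul_inv_cancel g)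
    change g.1 *ᵥ ((g⁻¹).1 *ᵥ x) = x
    rw [Matrix.mulVec_mulVec, h, Matrix.one_mulVec]

/-- The isomorphism given by a matrix of determinant one. -/
noncomputable def isoOfMat {A B : Matrix (Fin 3) (Fin 2) R} (g : SpecialLinearGroup (Fin 2) R)
    (h : B * g.1 = A) : (std A).Iso (std B) :=
  ⟨slEquiv g, by
      constructor
      · intro x y
        have := det_mulVec g.1 x y
        rw [g.2, one_mul] at this
        exact this
      · exact mulVec_of_mul h⟩

theorem isoMap_isoOfMat {A B : Matrix (Fin 3) (Fin 2) R} (g : SpecialLinearGroup (Fin 2) R)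
    (h : B * g.1 = A) (x : Fin 2 → R) : isoMap (isoOfMat g h) x = g.1 *ᵥ x := rfl

/-- Isomorphisms between standard objects are given by the elements of `SL₂(R)`. -/
theorem iso_std (A B : Matrix (Fin 3) (Fin 2) R) :
    ∃ f : (std A).Iso (std B) ≃ {g : SpecialLinearGroup (Fin 2) R // B * g.1 = A},
      ∀ (e : (std A).Iso (std B)) (x : Fin 2 → R), e.1 x = (f e).1.1 *ᵥ x := by
  have hmat : ∀ e : (std A).Iso (std B), ∀ x : Fin 2 → R,
      isoMap e x = (LinearMap.toMatrix' (isoMap e)) *ᵥ x := by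
    intro e x
    rw [← Matrix.toLin'_apply, Matrix.toLin'_toMatrix']
  have hdet : ∀ e : (std A).Iso (std B), (LinearMap.toMatrix' (isoMap e)).det = 1 := by
    intro e
    have h := isoMap_vol e ![1, 0] ![0, 1]
    rw [hmat e, hmat e, det_mulVec] at h
    simpa using h
  have hB : ∀ e : (std A).Iso (std B), B * (LinearMap.toMatrix' (isoMap e)) = A := by
    intro e
    apply Matrix.ext_of_mulVec_single
    intro i
    rw [← Matrix.mulVec_mulVec, ← hmat e, isoMap_u]
  refine ⟨⟨fun e => ⟨⟨_, hdet e⟩, hB e⟩, fun g => isoOfMat g.1 g.2, ?_, ?_⟩, ?_⟩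
  · intro e
    apply Subtype.ext
    apply LinearEquiv.ext
    intro x
    exact (hmat e x).symm
  · rintro ⟨g, hg⟩
    apply Subtype.ext
    apply Subtype.ext
    apply Matrix.ext_of_mulVec_single
    intro i
    exact (hmat (isoOfMat g hg) _).symm
  · intro e x
    exact hmat e x

theorem iso_std_iff (A B : Matrix (Fin 3) (Fin 2) R) :
    Nonempty ((std A).Iso (std B)) ↔ ∃ g : SpecialLinearGroup (Fin 2) R, B * g.1 = A := by
  obtain ⟨f, -⟩ := iso_std A B
  constructor
  · rintro ⟨e⟩
    exact ⟨(f e).1, (f e).2⟩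
  · rintro ⟨g, hg⟩
    exact ⟨f.symm ⟨g, hg⟩⟩

/-- Over a local ring every object is isomorphic to a standard one. -/
theorem Obj.exists_std [IsLocalRing R] (a : Obj R) :
    ∃ A : Matrix (Fin 3) (Fin 2) R, Nonempty (a.Iso (std A)) := by
  obtain ⟨x₀, y₀, hv, -⟩ := a.loc (IsLocalRing.maximalIdeal R)
  have hv' : IsUnit (a.vol x₀ y₀) := by
    by_contra h
    exact hv ((IsLocalRing.mem_maximalIdeal _).2 h)
  obtain ⟨v, hv1⟩ := hv'.exists_left_inv
  let x₁ := v • x₀
  have h1 : a.vol x₁ y₀ = 1 := by simp [x₁, hv1]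
  let e : a.E ≃ₗ[R] (Fin 2 → R) :=
    { toFun := fun z => ![a.vol z y₀, a.vol x₁ z]
      map_add' := by intro x y; ext i; fin_cases i <;> simp
      map_smul' := by intro c x; ext i; fin_cases i <;> simp
      invFun := fun w => w 0 • x₁ + w 1 • y₀
      left_inv := by
        intro z
        have := a.cramer x₁ y₀ z
        rw [h1, one_smul] at this
        simpa using this.symm
      right_inv := by
        intro w
        ext i
        fin_cases i
        · simp [h1, a.vol_self]
        · simp [h1, a.vol_self] }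
  refine ⟨Matrix.of fun i j => if j = 0 then a.u x₁ i else a.u y₀ i, ⟨⟨e, ?_, ?_⟩⟩⟩
  · intro x y
    change a.vol x y₀ * a.vol x₁ y - a.vol x₁ x * a.vol y y₀ = a.vol x y
    have := a.cramer x₁ y₀ y
    rw [h1, one_smul] at this
    conv_rhs => rw [this]
    simp only [map_add, map_smul, smul_eq_mul]
    rw [a.vol_swap x₁ x]
    ring
  · intro x
    change _ *ᵥ ![a.vol x y₀, a.vol x₁ x] = a.u x
    have := a.cramer x₁ y₀ x
    rw [h1, one_smul] at this
    conv_rhs => rw [this]
    ext i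
    simp [Matrix.mulVec, dotProduct, Fin.sum_univ_two]
    ring

end Std

section Fiber

variable {R : Type u} [CommRing R]

/-- `a ≅ b` is an equivalence relation. -/
theorem iso_equivalence (φ : Fin 3 → R) : Equivalence
    (fun a b : {a : Obj R // a.LiesOver φ} => Nonempty (a.1.Iso b.1)) where
  refl a := ⟨⟨LinearEquiv.refl R _, fun _ _ => rfl, fun _ => rfl⟩⟩
  symm := by
    rintro a b ⟨e, h1, h2⟩
    refine ⟨⟨e.symm, fun x y => ?_, fun x => ?_⟩⟩
    · have := h1 (e.symm x) (e.symm y)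
      simpa using this.symm
    · have := h2 (e.symm x)
      simpa using this.symm
  trans := by
    rintro a b c ⟨e, h1, h2⟩ ⟨e', h1', h2'⟩
    refine ⟨⟨e.trans e', fun x y => ?_, fun x => ?_⟩⟩
    · exact (h1' (e x) (e y)).trans (h1 x y)
    · exact (h2' (e x)).trans (h2 x)

/-- The set `F_φ` of isomorphism classes of objects over `φ`. -/
def Fiber (φ : Fin 3 → R) : Type (u + 1) :=
  Quotient (⟨_, iso_equivalence φ⟩ : Setoid {a : Obj R // a.LiesOver φ})

theorem fiber_unique {φ : Fin 3 → R} (h : Unimod φ) : Nonempty (Unique (Fiber φ)) := by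
  obtain ⟨q, hq⟩ := h
  refine ⟨⟨⟨Quotient.mk _ ⟨perpObj hq, perpObj_liesOver hq⟩⟩, ?_⟩⟩
  intro x
  induction x using Quotient.inductionOn with
  | h a =>
    apply Quotient.sound
    obtain ⟨U⟩ := unique_iso a.2 (perpObj_liesOver hq) ⟨q, hq⟩
    exact ⟨U.default⟩

end Fiber

end Pool.Agent.H353R3
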