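import Pool.Agent.H353R3.Arc3

open Matrix

namespace Pool.Agent.H353R3

universe u

section Arcs

variable {K : Type u} [Field K]

/-- The function `sep`: the number of isomorphism classes of arcs of the stack over `φ` if this
is finite, and zero otherwise. -/
noncomputable def sep (φ : Fin 3 → PowerSeries K) : ℕ :=
  open Classical in if Finite (Fiber φ) then Nat.card (Fiber φ) else 0

theorem unimod_of_coeff {φ : Fin 3 → PowerSeries K} {i : Fin 3}
    (h : PowerSeries.constantCoeff (φ i) ≠ 0) : Unimod φ := by
  have hu : IsUnit (φ i) := by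
    rw [PowerSeries.isUnit_iff_constantCoeff]
    exact isUnit_iff_ne_zero.2 h
  obtain ⟨v, hv⟩ := hu.exists_left_inv
  exact ⟨Pi.single i v, by simp [hv]⟩

theorem sep_one {φ : Fin 3 → PowerSeries K} (h : ∃ i, PowerSeries.constantCoeff (φ i) ≠ 0) :
    sep φ = 1 := by
  obtain ⟨i, hi⟩ := h
  obtain ⟨U⟩ := fiber_unique (unimod_of_coeff hi)
  have : Finite (Fiber φ) := inferInstance
  rw [sep, if_pos this, Nat.card_unique]

/-- Every `φ` is the vector of minors of a matrix. -/
theorem exists_minors (φ : Fin 3 → PowerSeries K) :
    ∃ A : Matrix (Fin 3) (Fin 2) (PowerSeries K), minors A = φ := by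
  have h0 : ∀ a : PowerSeries K, φ 1 = φ 0 * a →
      ∃ A : Matrix (Fin 3) (Fin 2) (PowerSeries K), minors A = φ := by
    intro a ha
    refine ⟨!![-a, -φ 2; 1, 0; 0, φ 0], ?_⟩
    funext i
    fin_cases i
    · simp [minors, cross]
    · simp [minors, cross, ha, mul_comm]
    · simp [minors, cross]
  have h1 : ∀ a : PowerSeries K, φ 0 = φ 1 * a →
      ∃ A : Matrix (Fin 3) (Fin 2) (PowerSeries K), minors A = φ := by
    intro a ha
    refine ⟨!![1, 0; -a, φ 2; 0, -φ 1], ?_⟩
    funext i
    fin_cases i
    · simp [minors, cross, ha, mul_comm]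
    · simp [minors, cross]
    · simp [minors, cross]
  rcases ValuationRing.dvd_total (φ 0) (φ 1) with ⟨a, ha⟩ | ⟨a, ha⟩
  · exact h0 a ha
  · exact h1 a ha

theorem fiber_infinite [Infinite K] {φ : Fin 3 → PowerSeries K}
    (h : ∀ i, PowerSeries.constantCoeff (φ i) = 0) : Infinite (Fiber φ) := by
  by_cases hφ : φ = 0
  · subst hφ
    let A : ℕ → Matrix (Fin 3) (Fin 2) (PowerSeries K) := fun n => !![PowerSeries.X ^ n, 0; 0, 0; 0, 0]
    have hA : ∀ n, (std (A n)).LiesOver 0 := by
      intro n
      rw [std_liesOver_iff]
      funext i
      fin_cases i <;> simp [minors, cross, A]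
    apply Infinite.of_injective (fun n => (Quotient.mk _ ⟨std (A n), hA n⟩ : Fiber 0))
    intro m n hmn
    obtain ⟨g, hg⟩ := (iso_std_iff _ _).1 (Quotient.exact hmn)
    have e1 := congrFun (congrFun hg 0) 0
    have e2 := congrFun (congrFun hg 0) 1
    simp only [A, Matrix.mul_apply, Fin.sum_univ_two, Matrix.of_apply, Matrix.cons_val_zero,
      Matrix.cons_val_one, zero_mul, add_zero] at e1 e2
    have hX : ∀ k : ℕ, (PowerSeries.X : PowerSeries K) ^ k ≠ 0 := fun k =>
      pow_ne_zero _ PowerSeries.X_ne_zero
    have e3 : g.1 0 1 = 0 := (mul_eq_zero.1 e2).resolve_left (hX n)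
    have hdet := g.2
    rw [Matrix.det_fin_two, e3, zero_mul, sub_zero] at hdet
    have hu : IsUnit (g.1 0 0) := IsUnit.of_mul_eq_one _ hdet
    have hassoc : Associated ((PowerSeries.X : PowerSeries K) ^ n) (PowerSeries.X ^ m) := by
      obtain ⟨w, hw⟩ := hu
      exact ⟨w, by rw [hw, e1]⟩
    have := (PowerSeries.X_prime (R := K))
    have h1 := (pow_dvd_pow_iff (PowerSeries.X_ne_zero) this.not_isUnit).1 hassoc.dvd
    have h2 := (pow_dvd_pow_iff (PowerSeries.X_ne_zero) this.not_isUnit).1 hassoc.symm.dvd
    omega
  · -- divide by `X`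
    choose ψ hψ using fun i => PowerSeries.X_dvd_iff.2 (h i)
    obtain ⟨B, hB⟩ := exists_minors ψ
    have hψ0 : ψ ≠ 0 := by
      intro h0
      apply hφ
      funext i
      rw [hψ, h0]
      simp
    let D : K → Matrix (Fin 2) (Fin 2) (PowerSeries K) := fun c =>
      !![PowerSeries.X, PowerSeries.C c; 0, 1]
    have hA : ∀ c, (std (B * D c)).LiesOver φ := by
      intro c
      rw [std_liesOver_iff]
      have e : φ = (PowerSeries.X : PowerSeries K) • minors B := by
        funext i
        rw [hB, hψ]
        rfl
      rw [e]
      funext i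
      fin_cases i <;>
        simp [minors, cross, Matrix.mul_apply, Fin.sum_univ_two, D] <;> ring
    have hinj : ∀ M N : Matrix (Fin 2) (Fin 2) (PowerSeries K), B * M = B * N → M = N := by
      intro M N hMN
      have key : ∀ x : Fin 2 → PowerSeries K, B *ᵥ x = 0 → x = 0 := by
        intro x hx
        have c1 := mulVec_cross B x ![1, 0]
        have c2 := mulVec_cross B x ![0, 1]
        rw [hx, hB] at c1 c2
        simp only [map_zero, LinearMap.zero_apply] at c1 c2
        have d1 := (smul_eq_zero.1 c1.symm).resolve_right hψ0
        have d2 := (smul_eq_zero.1 c2.symm).resolve_right hψ0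
        simp at d1 d2
        funext i
        fin_cases i
        · simpa using d2
        · simpa using d1
      have hsub : B * (M - N) = 0 := by rw [Matrix.mul_sub, hMN, sub_self]
      have : M - N = 0 := by
        apply Matrix.ext_of_mulVec_single
        intro i
        rw [Matrix.zero_mulVec]
        apply key
        rw [Matrix.mulVec_mulVec, hsub, Matrix.zero_mulVec]
      exact sub_eq_zero.1 this
    apply Infinite.of_injective (fun c => (Quotient.mk _ ⟨std (B * D c), hA c⟩ : Fiber φ))
    intro c d hcd
    obtain ⟨g, hg⟩ := (iso_std_iff _ _).1 (Quotient.exact hcd)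
    rw [Matrix.mul_assoc] at hg
    have hg' := hinj _ _ hg
    have e1 := congrFun (congrFun hg' 0) 1
    have e2 := congrFun (congrFun hg' 1) 1
    simp only [D, Matrix.mul_apply, Fin.sum_univ_two, Matrix.of_apply, Matrix.cons_val_zero,
      Matrix.cons_val_one, zero_mul, one_mul, zero_add] at e1 e2
    rw [e2, mul_one] at e1
    have := congrArg PowerSeries.constantCoeff e1
    simpa using this.symm

theorem sep_zero [Infinite K] {φ : Fin 3 → PowerSeries K}
    (h : ∀ i, PowerSeries.constantCoeff (φ i) = 0) : sep φ = 0 := by
  have := fiber_infinite h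
  rw [sep, if_neg (not_finite_iff_infinite.2 this)]

end Arcs

section Stabilizers

variable {K : Type u} [Field K]

/-- The stabilizer in `SL₂(S)` of the point `A` of `Hom(K², K³)`, for a `K`-algebra `S`. -/
def Stab (A : Matrix (Fin 3) (Fin 2) K) (S : Type u) [CommRing S] [Algebra K S] :
    Set (SpecialLinearGroup (Fin 2) S) :=
  {g | A.map (algebraMap K S) * g.1 = A.map (algebraMap K S)}

theorem eq_zero_of_minor {S : Type u} [CommRing S] (A : Matrix (Fin 3) (Fin 2) S) (i : Fin 3)
    (hi : IsUnit (minors A i)) (x : Fin 2 → S) (hx : A *ᵥ x = 0) : x = 0 := by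
  have c1 := congrFun (mulVec_cross A x ![1, 0]) i
  have c2 := congrFun (mulVec_cross A x ![0, 1]) i
  rw [hx] at c1 c2
  simp only [map_zero, LinearMap.zero_apply, Pi.zero_apply, Pi.smul_apply, smul_eq_mul] at c1 c2
  have d1 := (hi.mul_left_eq_zero).1 c1.symm
  have d2 := (hi.mul_left_eq_zero).1 c2.symm
  simp at d1 d2
  funext i
  fin_cases i
  · simpa using d2
  · simpa using d1

theorem cancel_of_minor {S : Type u} [CommRing S] (A : Matrix (Fin 3) (Fin 2) S) (i : Fin 3)
    (hi : IsUnit (minors A i)) (M N : Matrix (Fin 2) (Fin 2) S) (hMN : A * M = A * N) :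
    M = N := by
  have hsub : A * (M - N) = 0 := by rw [Matrix.mul_sub, hMN, sub_self]
  have : M - N = 0 := by
    apply Matrix.ext_of_mulVec_single
    intro j
    rw [Matrix.zero_mulVec]
    apply eq_zero_of_minor A i hi
    rw [Matrix.mulVec_mulVec, hsub, Matrix.zero_mulVec]
  exact sub_eq_zero.1 this

theorem minors_map {S : Type u} [CommRing S] [Algebra K S] (A : Matrix (Fin 3) (Fin 2) K)
    (i : Fin 3) : minors (A.map (algebraMap K S)) i = algebraMap K S (minors A i) := by
  fin_cases i <;> simp [minors, cross]

/-- Every stabilizer is the trivial group, or conjugate in `SL₂` to the group of the unipotent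
upper triangular matrices (the additive group), or `SL₂`. -/
theorem stab_cases (A : Matrix (Fin 3) (Fin 2) K) :
    (∀ (S : Type u) [CommRing S] [Algebra K S], Stab A S = {1}) ∨
    (∃ h : SpecialLinearGroup (Fin 2) K, ∀ (S : Type u) [CommRing S] [Algebra K S],
      Stab A S = {g | ∃ c : S, g.1 * (h.1.map (algebraMap K S)) =
        (h.1.map (algebraMap K S)) * !![1, c; 0, 1]}) ∨
    (∀ (S : Type u) [CommRing S] [Algebra K S], Stab A S = Set.univ) := by
  by_cases hm : minors A = 0
  · by_cases hA : A = 0
    · right; right
      intro S _ _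
      subst hA
      ext g
      simp [Stab]
    · right; left
      -- a nonzero vector in the kernel
      have hker : ∃ x : Fin 2 → K, x ≠ 0 ∧ A *ᵥ x = 0 := by
        have hex : ∃ i j, A i j ≠ 0 := by
          by_contra hcon
          push Not at hcon
          exact hA (Matrix.ext hcon)
        obtain ⟨i, j, hij⟩ := hex
        have m0 : A 1 0 * A 2 1 - A 2 0 * A 1 1 = 0 := congrFun hm 0
        have m1 : A 2 0 * A 0 1 - A 0 0 * A 2 1 = 0 := congrFun hm 1
        have m2 : A 0 0 * A 1 1 - A 1 0 * A 0 1 = 0 := congrFun hm 2
        refine ⟨![A i 1, - A i 0], ?_, ?_⟩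
        · intro h0
          have a1 : A i 1 = 0 := congrFun h0 0
          have a2 : - A i 0 = 0 := congrFun h0 1
          fin_cases j
          · exact hij (neg_eq_zero.1 a2)
          · exact hij a1
        · funext l
          simp only [Matrix.mulVec, dotProduct, Fin.sum_univ_two, Matrix.cons_val_zero,
            Matrix.cons_val_one, Pi.zero_apply]
          fin_cases l <;> fin_cases i <;> simp <;>
            first
            | ring1
            | linear_combination m0
            | linear_combination m1
            | linear_combination m2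
            | linear_combination -m0
            | linear_combination -m1
            | linear_combination -m2
      obtain ⟨x, hx0, hx⟩ := hker
      -- complete `x` to a matrix of determinant one
      have hcomp : ∃ h : SpecialLinearGroup (Fin 2) K, ∀ l, h.1 l 0 = x l := by
        by_cases h0 : x 0 = 0
        · have h1 : x 1 ≠ 0 := by
            intro h1
            apply hx0
            funext l
            fin_cases l
            · exact h0
            · exact h1
          refine ⟨⟨!![x 0, -(x 1)⁻¹; x 1, 0], ?_⟩, ?_⟩
          · rw [Matrix.det_fin_two]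
            simp
            field_simp
          · intro l
            fin_cases l <;> simp
        · refine ⟨⟨!![x 0, 0; x 1, (x 0)⁻¹], ?_⟩, ?_⟩
          · rw [Matrix.det_fin_two]
            simp
            field_simp
          · intro l
            fin_cases l <;> simp
      obtain ⟨h, hh⟩ := hcomp
      -- the second column of `A * h` is nonzero
      have hy : ∃ i, (A * h.1) i 1 ≠ 0 := by
        by_contra hcon
        push Not at hcon
        apply hA
        have hAh : A * h.1 = 0 := by
          ext i j
          fin_cases j
          · have := congrFun hx i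
            simp only [Matrix.mulVec, dotProduct, Fin.sum_univ_two] at this
            simp only [Matrix.mul_apply, Fin.sum_univ_two, Matrix.zero_apply]
            rw [← hh 0, ← hh 1] at this
            exact this
          · exact hcon i
        have : A * (h.1 * (h⁻¹).1) = 0 := by rw [← Matrix.mul_assoc, hAh, Matrix.zero_mul]
        rwa [show h.1 * (h⁻¹).1 = 1 from congrArg Subtype.val (mul_inv_cancel h),
          Matrix.mul_one] at this
      obtain ⟨i, hi⟩ := hy
      refine ⟨h, ?_⟩
      intro S _ _
      ext g
      set H := h.1.map (algebraMap K S) with hH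
      set H' := (h⁻¹).1.map (algebraMap K S) with hH'
      set AS := A.map (algebraMap K S) with hAS
      have hHH' : H * H' = 1 := by
        rw [hH, hH', ← Matrix.map_mul,
          show h.1 * (h⁻¹).1 = 1 from congrArg Subtype.val (mul_inv_cancel h)]
        simp
      have hH'H : H' * H = 1 := by
        rw [hH, hH', ← Matrix.map_mul,
          show (h⁻¹).1 * h.1 = 1 from congrArg Subtype.val (inv_mul_cancel h)]
        simp
      have hdetH : H.det = 1 := by
        have := congrArg (algebraMap K S) h.2
        rw [map_one] at this
        rw [← this, hH, ← RingHom.mapMatrix_apply, ← RingHom.map_det]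
      have hdetH' : H'.det = 1 := by
        have := congrArg (algebraMap K S) (h⁻¹).2
        rw [map_one] at this
        rw [← this, hH', ← RingHom.mapMatrix_apply, ← RingHom.map_det]
      have hcol0 : ∀ l, (AS * H) l 0 = 0 := by
        intro l
        rw [hAS, hH, ← Matrix.map_mul]
        simp only [Matrix.map_apply]
        have := congrFun hx l
        simp only [Matrix.mulVec, dotProduct, Fin.sum_univ_two, Pi.zero_apply] at this
        rw [Matrix.mul_apply, Fin.sum_univ_two, hh, hh, this, map_zero]
      have hunit : IsUnit ((AS * H) i 1) := by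
        rw [hAS, hH, ← Matrix.map_mul]
        exact (isUnit_iff_ne_zero.2 hi).map (algebraMap K S)
      change AS * g.1 = AS ↔ ∃ c : S, g.1 * H = H * !![1, c; 0, 1]
      constructor
      · intro hg
        have hg1 : (AS * H) * (H' * g.1 * H) = AS * H := by
          calc (AS * H) * (H' * g.1 * H) = AS * (H * H') * g.1 * H := by
                simp only [Matrix.mul_assoc]
            _ = _ := by rw [hHH', Matrix.mul_one, hg]
        set G := H' * g.1 * H with hG
        have hGdet : G.det = 1 := by
          rw [hG, Matrix.det_mul, Matrix.det_mul, hdetH, hdetH', g.2]; simp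
        have e0 := congrFun (congrFun hg1 i) 0
        have e1 := congrFun (congrFun hg1 i) 1
        rw [Matrix.mul_apply, Fin.sum_univ_two, hcol0, zero_mul, zero_add] at e0 e1
        have g10 : G 1 0 = 0 := (hunit.mul_right_eq_zero).1 e0
        have g11 : G 1 1 = 1 := by
          have : (AS * H) i 1 * (G 1 1 - 1) = 0 := by linear_combination e1
          exact sub_eq_zero.1 ((hunit.mul_right_eq_zero).1 this)
        rw [Matrix.det_fin_two, g10, g11] at hGdet
        have g00 : G 0 0 = 1 := by linear_combination hGdet
        refine ⟨G 0 1, ?_⟩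
        have hGeq : G = !![1, G 0 1; 0, 1] := by
          ext a b
          fin_cases a <;> fin_cases b <;> simp [g00, g10, g11]
        rw [← hGeq, hG, ← Matrix.mul_assoc, ← Matrix.mul_assoc, hHH', Matrix.one_mul]
      · rintro ⟨c, hc⟩
        have h1 : AS * H * !![1, c; 0, 1] = AS * H := by
          ext l j
          fin_cases j
          · simp [Matrix.mul_apply (M := AS * H), Fin.sum_univ_two, hcol0]
          · simp [Matrix.mul_apply (M := AS * H), Fin.sum_univ_two, hcol0]
        have h2 : AS * g.1 * H = AS * H := by
          rw [Matrix.mul_assoc, hc, ← Matrix.mul_assoc, h1]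
        have h3 := congrArg (· * H') h2
        simp only [Matrix.mul_assoc, hHH', Matrix.mul_one] at h3
        exact h3
  · left
    have hex : ∃ i, minors A i ≠ 0 := by
      by_contra hcon
      push Not at hcon
      exact hm (funext hcon)
    obtain ⟨i, hi⟩ := hex
    intro S _ _
    ext g
    constructor
    · intro hg
      have hu : IsUnit (minors (A.map (algebraMap K S)) i) := by
        rw [minors_map]
        exact (isUnit_iff_ne_zero.2 hi).map (algebraMap K S)
      have := cancel_of_minor _ i hu g.1 1 (by rw [Matrix.mul_one]; exact hg)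
      exact Subtype.ext this
    · rintro rfl
      change A.map (algebraMap K S) * (1 : Matrix (Fin 2) (Fin 2) S) = _
      rw [Matrix.mul_one]

end Stabilizers

end Pool.Agent.H353R3
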