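import Pool.Agent.H353R3.Arc4

open Matrix MvPolynomial

namespace Pool.Agent.H353R3

universe u

section Invariants

variable {k : Type u} [Field k]

/-- The value at the matrix `A` of a polynomial in the six matrix entries. -/
noncomputable def evalAt (A : Matrix (Fin 3) (Fin 2) k) :
    MvPolynomial (Fin 3 × Fin 2) k →+* k := MvPolynomial.eval fun ij => A ij.1 ij.2

/-- The minors of the generic `3 × 2` matrix. -/
noncomputable def genMinors (k : Type u) [Field k] : Fin 3 → MvPolynomial (Fin 3 × Fin 2) k :=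
  (fun i => X (i, 0)) ⨯₃ (fun i => X (i, 1))

theorem evalAt_genMinors (A : Matrix (Fin 3) (Fin 2) k) (i : Fin 3) :
    evalAt A (genMinors k i) = minors A i := by
  fin_cases i <;> simp [genMinors, minors, cross, cross_apply, evalAt]

/-- The polynomial function `P` on `Hom(k², k³)` is invariant under `SL₂(k)`. -/
def Invariant (P : MvPolynomial (Fin 3 × Fin 2) k) : Prop :=
  ∀ (g : SpecialLinearGroup (Fin 2) k) (A : Matrix (Fin 3) (Fin 2) k),
    evalAt (A * g.1) P = evalAt A P

theorem evalAt_aeval (A : Matrix (Fin 3) (Fin 2) k) (Q : MvPolynomial (Fin 3) k) :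
    evalAt A (aeval (genMinors k) Q) = eval (minors A) Q := by
  induction Q using MvPolynomial.induction_on with
  | C c => simp [evalAt]
  | add P Q hP hQ => simp only [map_add, hP, hQ]
  | mul_X P i hP => simp only [map_mul, aeval_X, hP, evalAt_genMinors, eval_X]

/-- Clearing denominators. -/
theorem exists_clear {σ : Type*} (S : (Fin 3 → k) → σ → k) (d : MvPolynomial (Fin 3) k)
    (h : ∀ j, ∃ (N : ℕ) (Q : MvPolynomial (Fin 3) k), ∀ p, eval p d ≠ 0 →
      (eval p d) ^ N * S p j = eval p Q) (P : MvPolynomial σ k) :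
    ∃ (N : ℕ) (Q : MvPolynomial (Fin 3) k), ∀ p, eval p d ≠ 0 →
      (eval p d) ^ N * eval (S p) P = eval p Q := by
  induction P using MvPolynomial.induction_on with
  | C c => exact ⟨0, C c, fun p _ => by simp⟩
  | add P P' hP hP' =>
    obtain ⟨N, Q, hQ⟩ := hP
    obtain ⟨N', Q', hQ'⟩ := hP'
    refine ⟨N + N', d ^ N' * Q + d ^ N * Q', fun p hp => ?_⟩
    simp only [map_add, map_mul, map_pow]
    rw [← hQ p hp, ← hQ' p hp]
    ring
  | mul_X P j hP =>
    obtain ⟨N, Q, hQ⟩ := hP
    obtain ⟨N', Q', hQ'⟩ := h j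
    refine ⟨N + N', Q * Q', fun p hp => ?_⟩
    simp only [map_mul, eval_X]
    rw [← hQ p hp, ← hQ' p hp]
    ring

/-- A matrix with given minors, first chart. -/
noncomputable def S0 (p : Fin 3 → k) : Matrix (Fin 3) (Fin 2) k :=
  !![-(p 1 / p 0), -p 2; 1, 0; 0, p 0]

/-- A matrix with given minors, second chart. -/
noncomputable def S1 (p : Fin 3 → k) : Matrix (Fin 3) (Fin 2) k :=
  !![1, 0; -(p 0 / p 1), p 2; 0, -p 1]

theorem minors_S0 {p : Fin 3 → k} (h : p 0 ≠ 0) : minors (S0 p) = p := by
  funext i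
  fin_cases i
  · simp [minors, cross, S0]
  · simp [minors, cross, S0]
    field_simp
  · simp [minors, cross, S0]

theorem minors_S1 {p : Fin 3 → k} (h : p 1 ≠ 0) : minors (S1 p) = p := by
  funext i
  fin_cases i
  · simp [minors, cross, S1]
    field_simp
  · simp [minors, cross, S1]
  · simp [minors, cross, S1]

theorem clear_S0 (P : MvPolynomial (Fin 3 × Fin 2) k) :
    ∃ (N : ℕ) (Q : MvPolynomial (Fin 3) k), ∀ p : Fin 3 → k, p 0 ≠ 0 →
      (p 0) ^ N * evalAt (S0 p) P = eval p Q := by
  have := exists_clear (fun (p : Fin 3 → k) (ij : Fin 3 × Fin 2) => S0 p ij.1 ij.2)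
    (X 0) (by
      rintro ⟨i, j⟩
      fin_cases i <;> fin_cases j
      · refine ⟨1, - X 1, fun p hp => ?_⟩
        simp only [eval_X] at hp
        simp [S0]
        field_simp
      · exact ⟨0, - X 2, fun p hp => by simp [S0]⟩
      · exact ⟨0, 1, fun p hp => by simp [S0]⟩
      · exact ⟨0, 0, fun p hp => by simp [S0]⟩
      · exact ⟨0, 0, fun p hp => by simp [S0]⟩
      · exact ⟨0, X 0, fun p hp => by simp [S0]⟩) P
  simp only [eval_X] at this
  exact this

theorem clear_S1 (P : MvPolynomial (Fin 3 × Fin 2) k) :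
    ∃ (N : ℕ) (Q : MvPolynomial (Fin 3) k), ∀ p : Fin 3 → k, p 1 ≠ 0 →
      (p 1) ^ N * evalAt (S1 p) P = eval p Q := by
  have := exists_clear (fun (p : Fin 3 → k) (ij : Fin 3 × Fin 2) => S1 p ij.1 ij.2)
    (X 1) (by
      rintro ⟨i, j⟩
      fin_cases i <;> fin_cases j
      · exact ⟨0, 1, fun p hp => by simp [S1]⟩
      · exact ⟨0, 0, fun p hp => by simp [S1]⟩
      · refine ⟨1, - X 0, fun p hp => ?_⟩
        simp only [eval_X] at hp
        simp [S1]
        field_simp
      · exact ⟨0, X 2, fun p hp => by simp [S1]⟩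
      · exact ⟨0, 0, fun p hp => by simp [S1]⟩
      · exact ⟨0, - X 1, fun p hp => by simp [S1]⟩) P
  simp only [eval_X] at this
  exact this

/-- Two matrices with the same nonzero minors are in the same `SL₂(k)`-orbit. -/
theorem exists_sl {A B : Matrix (Fin 3) (Fin 2) k} (h : minors A = minors B)
    (h0 : minors A ≠ 0) : ∃ g : SpecialLinearGroup (Fin 2) k, B * g.1 = A := by
  have hex : ∃ i, minors A i ≠ 0 := by
    by_contra hcon
    push Not at hcon
    exact h0 (funext hcon)
  obtain ⟨i, hi⟩ := hex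
  have hu : Unimod (minors A) := ⟨Pi.single i (minors A i)⁻¹, by simp [hi]⟩
  obtain ⟨U⟩ := unique_iso (std_liesOver A) (std_liesOver_iff.2 h) hu
  exact (iso_std_iff A B).1 ⟨U.default⟩

theorem minors_mul (A : Matrix (Fin 3) (Fin 2) k) (g : Matrix (Fin 2) (Fin 2) k) :
    minors (A * g) = g.det • minors A := by
  funext i
  fin_cases i <;>
    simp [minors, cross, Matrix.mul_apply, Fin.sum_univ_two, Matrix.det_fin_two] <;> ring

theorem algebraicIndependent_genMinors [Infinite k] : AlgebraicIndependent k (genMinors k) := by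
  rw [algebraicIndependent_iff]
  intro Q hQ
  have h1 : Q * X 0 = 0 := by
    apply MvPolynomial.funext
    intro p
    by_cases hp : p 0 = 0
    · simp [hp]
    · have := evalAt_aeval (S0 p) Q
      rw [hQ, map_zero, minors_S0 hp] at this
      simp [← this]
  exact (mul_eq_zero.1 h1).resolve_right (X_ne_zero 0)

theorem invariants [Infinite k] (P : MvPolynomial (Fin 3 × Fin 2) k) :
    (∀ (g : SpecialLinearGroup (Fin 2) k) (A : Matrix (Fin 3) (Fin 2) k),
      evalAt (A * g.1) P = evalAt A P) ↔ ∃ Q : MvPolynomial (Fin 3) k, P = aeval (genMinors k) Q := by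
  constructor
  · intro hinv
    have horb : ∀ A B : Matrix (Fin 3) (Fin 2) k, minors A = minors B → minors A ≠ 0 →
        evalAt A P = evalAt B P := by
      intro A B h h0
      obtain ⟨g, hg⟩ := exists_sl h h0
      rw [← hg, hinv]
    obtain ⟨N, Q0, hQ0⟩ := clear_S0 P
    obtain ⟨M, Q1, hQ1⟩ := clear_S1 P
    have hpoly : (X 1) ^ M * Q0 = (X 0) ^ N * Q1 := by
      have h1 : (X 0 * X 1) * ((X 1) ^ M * Q0 - (X 0) ^ N * Q1) = 0 := by
        apply MvPolynomial.funext
        intro p
        by_cases h0 : p 0 = 0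
        · simp [h0]
        by_cases h1 : p 1 = 0
        · simp [h1]
        have e : evalAt (S0 p) P = evalAt (S1 p) P := by
          apply horb
          · rw [minors_S0 h0, minors_S1 h1]
          · rw [minors_S0 h0]
            intro h
            exact h0 (congrFun h 0)
        simp only [map_mul, map_sub, map_pow, eval_X, map_zero]
        rw [← hQ0 p h0, ← hQ1 p h1, e]
        ring
      have h2 := (mul_eq_zero.1 h1).resolve_left (mul_ne_zero (X_ne_zero 0) (X_ne_zero 1))
      exact sub_eq_zero.1 h2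
    have hdvd : (X 0 : MvPolynomial (Fin 3) k) ^ N ∣ Q0 := by
      have h1 : (X 0 : MvPolynomial (Fin 3) k) ^ N ∣ (X 1) ^ M * Q0 := ⟨Q1, hpoly⟩
      refine (X_prime (i := (0 : Fin 3))).pow_dvd_of_dvd_mul_left N ?_ h1
      intro h2
      have h3 := (X_prime (R := k) (i := (0 : Fin 3))).dvd_of_dvd_pow h2
      rw [X_dvd_X] at h3
      exact absurd h3 (by decide)
    obtain ⟨Q, hQ⟩ := hdvd
    refine ⟨Q, ?_⟩
    have hfin : (P - aeval (genMinors k) Q) * genMinors k 0 = 0 := by
      apply MvPolynomial.funext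
      intro f
      let A : Matrix (Fin 3) (Fin 2) k := Matrix.of fun i j => f (i, j)
      have hf : ∀ P, eval f P = evalAt A P := fun P => rfl
      rw [hf, map_mul, evalAt_genMinors, map_sub, evalAt_aeval, map_zero]
      by_cases h0 : minors A 0 = 0
      · rw [h0, mul_zero]
      · have hne : minors A ≠ 0 := fun h => h0 (congrFun h 0)
        have e1 : evalAt A P = evalAt (S0 (minors A)) P := horb _ _ (minors_S0 h0).symm hne
        have e2 := hQ0 (minors A) h0
        rw [hQ, map_mul, map_pow, eval_X] at e2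
        have e3 := mul_left_cancel₀ (pow_ne_zero N h0) e2
        rw [e1, e3, sub_self, zero_mul]
    have hg0 : genMinors k 0 ≠ 0 := by
      intro h
      have := evalAt_genMinors (S0 (fun _ => (1 : k))) 0
      rw [h, map_zero, minors_S0 one_ne_zero] at this
      exact zero_ne_one this
    exact sub_eq_zero.1 ((mul_eq_zero.1 hfin).resolve_right hg0)
  · rintro ⟨Q, rfl⟩ g A
    rw [evalAt_aeval, evalAt_aeval]
    congr 1
    rw [minors_mul, g.2, one_smul]

theorem invariant_iff [Infinite k] (P : MvPolynomial (Fin 3 × Fin 2) k) :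
    Invariant P ↔ ∃ Q : MvPolynomial (Fin 3) k, ∀ A : Matrix (Fin 3) (Fin 2) k,
      evalAt A P = eval (minors A) Q := by
  rw [Invariant, invariants]
  refine exists_congr fun Q => ?_
  constructor
  · rintro rfl A
    exact evalAt_aeval A Q
  · intro h
    apply MvPolynomial.funext
    intro f
    have := h (Matrix.of fun i j => f (i, j))
    rw [← evalAt_aeval] at this
    exact this

theorem eq_zero_of_minors [Infinite k] (Q : MvPolynomial (Fin 3) k)
    (h : ∀ A : Matrix (Fin 3) (Fin 2) k, eval (minors A) Q = 0) : Q = 0 := by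
  have h1 : Q * X 0 = 0 := by
    apply MvPolynomial.funext
    intro p
    by_cases hp : p 0 = 0
    · simp [hp]
    · have := h (S0 p)
      rw [minors_S0 hp] at this
      simp [this]
  exact (mul_eq_zero.1 h1).resolve_right (X_ne_zero 0)

end Invariants

end Pool.Agent.H353R3
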