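import Pool.Agent.H353R3.Arc5

open Matrix TensorProduct

namespace Pool.Agent.H353R3

universe u

section BaseChange

variable {R : Type u} [CommRing R] (S : Type u) [CommRing S] [Algebra R S]

/-- The pullback of the linear map `u : E → R³`. -/
noncomputable def uBase (a : Obj R) : S ⊗[R] a.E →ₗ[S] (Fin 3 → S) :=
  LinearMap.liftBaseChange S ((Algebra.linearMap R S).compLeft (Fin 3) ∘ₗ a.u)

theorem uBase_tmul (a : Obj R) (s : S) (x : a.E) :
    uBase S a (s ⊗ₜ[R] x) = s • fun i => algebraMap R S (a.u x i) := by
  simp [uBase]
  rfl

theorem volBase_swap (a : Obj R) (x y : S ⊗[R] a.E) :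
    LinearMap.BilinForm.baseChange S a.vol y x = - LinearMap.BilinForm.baseChange S a.vol x y := by
  induction x using TensorProduct.induction_on with
  | zero => simp
  | add x x' hx hx' => simp only [map_add, LinearMap.add_apply, hx, hx']; ring
  | tmul s x =>
    induction y using TensorProduct.induction_on with
    | zero => simp
    | add y y' hy hy' => simp only [map_add, LinearMap.add_apply, hy, hy']; ring
    | tmul t y =>
      rw [LinearMap.BilinForm.baseChange_tmul, LinearMap.BilinForm.baseChange_tmul,
        a.vol_swap x y, neg_smul, mul_comm]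

theorem volBase_self (a : Obj R) (x : S ⊗[R] a.E) :
    LinearMap.BilinForm.baseChange S a.vol x x = 0 := by
  induction x using TensorProduct.induction_on with
  | zero => simp
  | add x x' hx hx' =>
    simp only [map_add, LinearMap.add_apply, hx, hx', volBase_swap S a x x']
    ring
  | tmul s x =>
    rw [LinearMap.BilinForm.baseChange_tmul, a.vol_self, zero_smul]

/-- The pullback of an object along `Spec S → Spec R`. -/
noncomputable def Obj.baseChange (a : Obj R) : Obj S where
  E := S ⊗[R] a.E
  rank_two := by
    intro p
    rw [Module.rankAtStalk_baseChange]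
    exact a.rank_two _
  vol := LinearMap.BilinForm.baseChange S a.vol
  vol_self := volBase_self S a
  vol_unit := by
    rw [Ideal.eq_top_iff_one]
    have h : algebraMap R S 1 ∈
        Ideal.span {c : S | ∃ x y, LinearMap.BilinForm.baseChange S a.vol x y = c} := by
      apply a.one_of_vol (fun r => algebraMap R S r ∈
        Ideal.span {c : S | ∃ x y, LinearMap.BilinForm.baseChange S a.vol x y = c})
      · rw [map_zero]; exact Ideal.zero_mem _
      · intro r s hr hs
        rw [map_add]
        exact Ideal.add_mem _ hr hs
      · intro c r hr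
        rw [map_mul]
        exact Ideal.mul_mem_left _ _ hr
      · intro x y
        apply Ideal.subset_span
        refine ⟨1 ⊗ₜ x, 1 ⊗ₜ y, ?_⟩
        rw [LinearMap.BilinForm.baseChange_tmul, mul_one, Algebra.algebraMap_eq_smul_one]
    rwa [map_one] at h
  u := uBase S a

theorem liesOver_aux {a : Obj R} {p : Fin 3 → R} (h : a.LiesOver p) (x y : S ⊗[R] a.E) :
    uBase S a x ⨯₃ uBase S a y =
      (LinearMap.BilinForm.baseChange S a.vol x y) • fun i => algebraMap R S (p i) := by
  induction x using TensorProduct.induction_on with
  | zero => simp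
  | add x x' hx hx' => simp only [map_add, LinearMap.add_apply, hx, hx', add_smul]
  | tmul s x =>
    induction y using TensorProduct.induction_on with
    | zero => simp
    | add y y' hy hy' => simp only [map_add, hy, hy', add_smul]
    | tmul t y =>
      rw [LinearMap.BilinForm.baseChange_tmul, uBase_tmul, uBase_tmul]
      have hxy := h.eq x y
      funext i
      have hi := congrArg (algebraMap R S) (congrFun hxy i)
      fin_cases i <;>
      · simp only [cross_apply, Pi.smul_apply, smul_eq_mul, Algebra.smul_def] at hi ⊢
        simp at hi ⊢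
        linear_combination (s * t) * hi

/-- The map `π : 𝒳 → 𝔸³` is compatible with pullbacks. -/
theorem Obj.LiesOver.baseChange {a : Obj R} {p : Fin 3 → R} (h : a.LiesOver p) :
    (a.baseChange S).LiesOver (fun i => algebraMap R S (p i)) :=
  Obj.liesOver_iff.2 (liesOver_aux S h)

theorem iso_aux1 {a b : Obj R} (e : a.E ≃ₗ[R] b.E)
    (h : ∀ x y, b.vol (e x) (e y) = a.vol x y) (x y : S ⊗[R] a.E) :
    LinearMap.BilinForm.baseChange S b.vol (LinearEquiv.baseChange R S _ _ e x)
      (LinearEquiv.baseChange R S _ _ e y) = LinearMap.BilinForm.baseChange S a.vol x y := by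
  induction x using TensorProduct.induction_on with
  | zero => simp
  | add x x' hx hx' => simp only [map_add, LinearMap.add_apply, hx, hx']
  | tmul s x =>
    induction y using TensorProduct.induction_on with
    | zero => simp
    | add y y' hy hy' => simp only [map_add, hy, hy']
    | tmul t y =>
      rw [LinearEquiv.baseChange_tmul, LinearEquiv.baseChange_tmul,
        LinearMap.BilinForm.baseChange_tmul, LinearMap.BilinForm.baseChange_tmul, h]

theorem iso_aux2 {a b : Obj R} (e : a.E ≃ₗ[R] b.E)
    (h : ∀ x, b.u (e x) = a.u x) (x : S ⊗[R] a.E) :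
    uBase S b (LinearEquiv.baseChange R S _ _ e x) = uBase S a x := by
  induction x using TensorProduct.induction_on with
  | zero => simp
  | add x x' hx hx' => simp only [map_add, hx, hx']
  | tmul s x =>
    rw [LinearEquiv.baseChange_tmul, uBase_tmul, uBase_tmul, h]

/-- Pullback of isomorphisms. -/
noncomputable def Obj.Iso.baseChange {a b : Obj R} (e : a.Iso b) :
    (a.baseChange S).Iso (b.baseChange S) :=
  ⟨LinearEquiv.baseChange R S _ _ e.1, iso_aux1 S e.1 e.2.1, iso_aux2 S e.1 e.2.2⟩

end BaseChange

end Pool.Agent.H353R3
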