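import Mathlib

/-!
# Genus 0 prestable graphs, Chow rings of strata, localization towers
-/

set_option autoImplicit false

namespace Pool.Agent.H353R3.Ch

open MvPolynomial

/-- A prestable graph of genus `0` with `n` legs: a finite tree with a map from the legs to its
vertices. -/
structure PTree (n : ℕ) where
  V : Type
  [fV : Fintype V]
  [dV : DecidableEq V]
  G : SimpleGraph V
  [dG : DecidableRel G.Adj]
  tree : G.IsTree
  leg : Fin n → V

attribute [instance] PTree.fV PTree.dV PTree.dG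

namespace PTree

variable {n : ℕ} (Γ : PTree n)

/-- The flags (special points of the components): half-edges (oriented edges `d`, at the vertex
`d.fst`) and legs. -/
abbrev Flag : Type := Γ.G.Dart ⊕ Fin n

/-- The vertex of a flag. -/
def base : Γ.Flag → Γ.V
  | Sum.inl d => d.fst
  | Sum.inr i => Γ.leg i

/-- The valence `n(v)`: the number of flags at `v`. -/
def val (v : Γ.V) : ℕ := Fintype.card {h : Γ.Flag // Γ.base h = v}

/-- Generators: `ψ_h` for every flag `h` and `y_v` for every vertex without flags. -/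
abbrev Gen : Type := Γ.Flag ⊕ {v : Γ.V // Γ.val v = 0}

/-- The relations `ψ_h = 0` at vertices with at least three flags, and `ψ_h + ψ_h' = 0` at vertices
with exactly the two flags `h`, `h'`. -/
noncomputable def relIdeal : Ideal (MvPolynomial Γ.Gen ℚ) :=
  Ideal.span ({p | ∃ h : Γ.Flag, 3 ≤ Γ.val (Γ.base h) ∧ p = X (Sum.inl h)} ∪
    {p | ∃ h h' : Γ.Flag, h ≠ h' ∧ Γ.base h = Γ.base h' ∧ Γ.val (Γ.base h) = 2 ∧
      p = X (Sum.inl h) + X (Sum.inl h')})

/-- `⊗_v CH^*(M_{0,n(v)}^sm)`: `ℚ[y]` for `n(v) = 0`, `ℚ[ψ]` for `n(v) = 1, 2`, `ℚ` for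
`n(v) ≥ 3`. -/
def R : Type := MvPolynomial Γ.Gen ℚ ⧸ Γ.relIdeal

noncomputable instance instRingR : CommRing Γ.R :=
  Ideal.Quotient.commRing Γ.relIdeal

noncomputable instance instAlgR : Algebra ℚ Γ.R :=
  Ideal.Quotient.algebra ℚ

/-- The quotient map. -/
noncomputable def quo : MvPolynomial Γ.Gen ℚ →ₐ[ℚ] Γ.R := Ideal.Quotient.mkₐ ℚ Γ.relIdeal

/-- `ψ_h` in `⊗_v CH^*(M_{0,n(v)}^sm)`. -/
noncomputable def psi (h : Γ.Flag) : Γ.R := Γ.quo (X (Sum.inl h))

/-- `y_v` in `⊗_v CH^*(M_{0,n(v)}^sm)`, for the vertex without flags. -/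
noncomputable def yy (v : {v : Γ.V // Γ.val v = 0}) : Γ.R := Γ.quo (X (Sum.inr v))

/-- Automorphisms of the prestable graph: automorphisms of the tree fixing the vertices of the
legs. -/
def Auts : Type := {σ : Γ.G ≃g Γ.G // ∀ i, σ (Γ.leg i) = Γ.leg i}

/-- The action of an automorphism on the generators. -/
def act (σ : Γ.Auts) : Γ.Gen → Γ.Gen :=
  Sum.map (Sum.map (fun d => σ.1.toHom.mapDart d) id) id

/-- The polynomials in the generators fixed by all automorphisms. -/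
noncomputable def inv : Subalgebra ℚ (MvPolynomial Γ.Gen ℚ) :=
  ⨅ σ : Γ.Auts, AlgHom.equalizer (rename (Γ.act σ)) (AlgHom.id ℚ (MvPolynomial Γ.Gen ℚ))

/-- The Chow ring of the stratum `𝔐_Γ`: the invariants of the automorphism group in
`⊗_v CH^*(M_{0,n(v)}^sm)` (images of invariant polynomials). -/
noncomputable def CHs : Subalgebra ℚ Γ.R := Γ.inv.map Γ.quo

/-- The restriction to `𝔐_Γ` of `κ_a`, `a ≥ 1`: the sum over the vertices `v` of `κ_a(v)`, which is
`(-1)^(a+1) ψ^a` for `n(v) = 1`, `0` for `n(v) ≥ 2`, and `-2 y^(a/2)` (`a` even) or `0` (`a` odd)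
for `n(v) = 0`. -/
noncomputable def kap (a : ℕ) : Γ.R :=
  ∑ h : {h : Γ.Flag // Γ.val (Γ.base h) = 1}, (-1) ^ (a + 1) * Γ.psi h ^ a -
    ∑ v : {v : Γ.V // Γ.val v = 0}, (1 + (-1) ^ a) * Γ.yy v ^ (a / 2)

/-- The restriction to `𝔐_Γ` of `δ_k`, `k ≥ 1`: the sum over the half-edges `d` of the `k`-th power
of the normal class `-ψ_d - ψ_d'` of the edge. -/
noncomputable def del (k : ℕ) : Γ.R :=
  ∑ d : Γ.G.Dart, (-Γ.psi (Sum.inl d) - Γ.psi (Sum.inl d.symm)) ^ k

end PTree

/-- Strata `𝔐_{Γ_0}, 𝔐_{Γ_1}, …, 𝔐_{Γ_{m-1}}` and rational Chow rings `A j = CH^*(U_j)`, where `U_j`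
is the union of the first `j` strata, all `U_j` are open, and `𝔐_{Γ_j}` is closed in `U_{j+1}`. -/
structure Strata (n m : ℕ) where
  Γ : Fin m → PTree n
  A : Fin (m + 1) → Type
  [ring : ∀ j, CommRing (A j)]
  [alg : ∀ j, Algebra ℚ (A j)]

attribute [instance] Strata.ring Strata.alg

/-- The maps between the Chow rings: restriction to the open substack `U_j` of `U_{j+1}`, and
restriction to and push-forward from the closed stratum `𝔐_{Γ_j}` of `U_{j+1}` (only the values of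
`push j` on the subring `CHs` of `R` are used). -/
structure Maps {n m : ℕ} (S : Strata n m) where
  res : ∀ j : Fin m, S.A j.succ →ₐ[ℚ] S.A j.castSucc
  pull : ∀ j : Fin m, S.A j.succ →ₐ[ℚ] (S.Γ j).R
  push : ∀ j : Fin m, (S.Γ j).R → S.A j.succ

/-- `U_0` is empty, the localization sequences `CH(𝔐_{Γ_j}) → CH(U_{j+1}) → CH(U_j) → 0` are
exact, and the projection formula holds. -/
structure Maps.IsLocalization {n m : ℕ} {S : Strata n m} (M : Maps S) : Prop where
  empty : Subsingleton (S.A 0)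
  pull_mem : ∀ j x, M.pull j x ∈ (S.Γ j).CHs
  push_add : ∀ j, ∀ x ∈ (S.Γ j).CHs, ∀ y ∈ (S.Γ j).CHs, M.push j (x + y) = M.push j x + M.push j y
  res_surj : ∀ j, Function.Surjective (M.res j)
  exact : ∀ j x, M.res j x = 0 ↔ ∃ y ∈ (S.Γ j).CHs, M.push j y = x
  proj : ∀ j x, ∀ y ∈ (S.Γ j).CHs, M.push j (M.pull j x * y) = x * M.push j y

/-- The classes `κ_a` (`a ≥ 1`), `ψ_i` and `δ_k = ν_* ((-ψ - ψ')^(k-1))` (`k ≥ 1`), `ν` the gluing
map of the boundary, on the `U_j`. -/
structure Classes {n m : ℕ} (S : Strata n m) where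
  κ : ∀ j, ℕ → S.A j
  ψ : ∀ j, Fin n → S.A j
  δ : ∀ j, ℕ → S.A j

/-- The classes on `U_{j+1}` restrict to the classes on `U_j`. -/
structure Classes.Res {n m : ℕ} {S : Strata n m} (c : Classes S) (M : Maps S) : Prop where
  κ : ∀ j a, M.res j (c.κ j.succ a) = c.κ j.castSucc a
  ψ : ∀ j i, M.res j (c.ψ j.succ i) = c.ψ j.castSucc i
  δ : ∀ j k, M.res j (c.δ j.succ k) = c.δ j.castSucc k

/-- The restrictions of the classes on `U_{j+1}` to the stratum `𝔐_{Γ_j}`. -/
structure Classes.Pull {n m : ℕ} {S : Strata n m} (c : Classes S) (M : Maps S) : Prop where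
  κ : ∀ j a, 1 ≤ a → M.pull j (c.κ j.succ a) = (S.Γ j).kap a
  ψ : ∀ j i, M.pull j (c.ψ j.succ i) = (S.Γ j).psi (Sum.inr i)
  δ : ∀ j k, 1 ≤ k → M.pull j (c.δ j.succ k) = (S.Γ j).del k

/-- A localization tower: the formal properties of the Chow rings `A j = CH^*(U_j)`. -/
structure Tower {n m : ℕ} (S : Strata n m) where
  M : Maps S
  loc : M.IsLocalization
  c : Classes S
  res : c.Res M
  pull : c.Pull M

end Pool.Agent.H353R3.Ch
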