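import Mathlib

/-!
# Integrality over the ring generated by power sums
-/

set_option autoImplicit false

namespace Pool.Agent.H353R3.Ch

open MvPolynomial Finset

theorem esymm_mem {R : Type*} [CommRing R] [Algebra ℚ R] (S : Subalgebra ℚ R) {σ : Type*}
    [Fintype σ] (x : σ → R) (h : ∀ k, 1 ≤ k → k ≤ Fintype.card σ → ∑ i, x i ^ k ∈ S) :
    ∀ k, k ≤ Fintype.card σ → aeval x (esymm σ ℚ k) ∈ S := by
  intro k
  induction k using Nat.strong_induction_on with
  | _ k ih =>
    intro hk
    rcases Nat.eq_zero_or_pos k with rfl | hpos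
    · simp
    · have h1 := congrArg (aeval x) (mul_esymm_eq_sum σ ℚ k)
      simp only [map_mul, map_natCast, map_pow, map_neg, map_one, map_sum] at h1
      have h2 : (k : R) * aeval x (esymm σ ℚ k) ∈ S := by
        rw [h1]
        refine S.mul_mem (S.pow_mem (S.neg_mem S.one_mem) _) (S.sum_mem fun a ha => ?_)
        rw [Finset.mem_filter, Finset.HasAntidiagonal.mem_antidiagonal] at ha
        refine S.mul_mem (S.mul_mem (S.pow_mem (S.neg_mem S.one_mem) _)
          (ih _ ha.2 (by omega))) ?_
        have : aeval x (psum σ ℚ a.2) = ∑ i, x i ^ a.2 := by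
          simp [psum]
        rw [this]
        exact h _ (by omega) (by omega)
      have h3 : aeval x (esymm σ ℚ k) = ((k : ℚ)⁻¹) • ((k : R) * aeval x (esymm σ ℚ k)) := by
        have : ((k : R) * aeval x (esymm σ ℚ k)) = (k : ℚ) • aeval x (esymm σ ℚ k) := by
          rw [Algebra.smul_def, map_natCast]
        rw [this, smul_smul, inv_mul_cancel₀ (by positivity), one_smul]
      rw [h3]
      exact S.smul_mem h2 _

theorem integral_of_psum {R : Type*} [CommRing R] [Algebra ℚ R] (S : Subalgebra ℚ R) {σ : Type*}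
    [Fintype σ] (x : σ → R) (h : ∀ k, 1 ≤ k → k ≤ Fintype.card σ → ∑ i, x i ^ k ∈ S) (i : σ) :
    IsIntegral S (x i) := by
  classical
  have he := esymm_mem S x h
  set p : Polynomial R := ∏ i : σ, (Polynomial.X + Polynomial.C (x i)) with hp
  have hpm : p.Monic := Polynomial.monic_prod_of_monic _ _ fun i _ => Polynomial.monic_X_add_C _
  have hps : p = ∑ j ∈ Finset.range (Fintype.card σ + 1),
      Polynomial.C (aeval x (esymm σ ℚ j)) * Polynomial.X ^ (Fintype.card σ - j) := by
    have h1 := congrArg (Polynomial.map (aeval x : MvPolynomial σ ℚ →ₐ[ℚ] R).toRingHom)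
      (MvPolynomial.prod_C_add_X_eq_sum_esymm ℚ σ)
    simpa [Polynomial.map_prod, Polynomial.map_sum] using h1
  have hl : p ∈ Polynomial.lifts (algebraMap S R) := by
    rw [hps]
    refine Subsemiring.sum_mem _ fun j hj => ?_
    refine Subsemiring.mul_mem _ ?_ ?_
    · exact Polynomial.C_mem_lifts (algebraMap S R) ⟨_, he j (by
        rw [Finset.mem_range] at hj; omega)⟩
    · exact Polynomial.X_pow_mem_lifts _ _
  obtain ⟨q, hq, -, hqm⟩ := Polynomial.lifts_and_natDegree_eq_and_monic hl hpm
  have hroot : Polynomial.eval (-x i) p = 0 := by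
    rw [hp, Polynomial.eval_prod]
    exact Finset.prod_eq_zero (Finset.mem_univ i) (by simp)
  have h2 : IsIntegral S (-x i) := by
    refine ⟨q, hqm, ?_⟩
    rw [← Polynomial.eval_map, hq]
    exact hroot
  simpa using h2.neg

theorem sum_odd {R : Type*} [CommRing R] {σ : Type*} [Fintype σ] (x : σ → R) (k : ℕ) :
    ∑ i, (-1) ^ (2 * k + 1) * x i ^ (2 * k) = - ∑ i, (x i ^ 2) ^ k := by
  rw [← Finset.sum_neg_distrib]
  refine Finset.sum_congr rfl fun h _ => ?_
  rw [pow_succ, pow_mul, ← pow_mul (x h)]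
  ring

theorem half_eq {R : Type*} [CommRing R] [Algebra ℚ R] (y z : R) (h : z = - (2 * y)) :
    y = (-(1 / 2) : ℚ) • z := by
  have h2 : (2 : R) * y = (2 : ℚ) • y := by
    rw [show (2 : ℚ) = 1 + 1 by norm_num, add_smul, one_smul, two_mul]
  rw [h, h2, smul_neg, neg_smul, neg_neg, smul_smul]
  norm_num

end Pool.Agent.H353R3.Ch
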