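import Pool.Agent.H353R3.Ch1
import Pool.Agent.H353R3.Ch2

/-!
# `⊗_v CH^*(M_{0,n(v)}^sm)` is integral over the restrictions of the tautological classes
-/

set_option autoImplicit false

namespace Pool.Agent.H353R3.Ch

open MvPolynomial

variable {n : ℕ} (Γ : PTree n)

theorem quo_eq_zero {p : MvPolynomial Γ.Gen ℚ} (hp : p ∈ Γ.relIdeal) : Γ.quo p = 0 :=
  Ideal.Quotient.eq_zero_iff_mem.2 hp

theorem quo_surj : Function.Surjective Γ.quo := Ideal.Quotient.mk_surjective

theorem psi_three (h : Γ.Flag) (hv : 3 ≤ Γ.val (Γ.base h)) : Γ.psi h = 0 := by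
  rw [PTree.psi]
  refine quo_eq_zero Γ ?_
  exact Ideal.subset_span (Or.inl ⟨h, hv, rfl⟩)

theorem psi_two (h h' : Γ.Flag) (hne : h ≠ h') (hb : Γ.base h = Γ.base h')
    (hv : Γ.val (Γ.base h) = 2) : Γ.psi h = - Γ.psi h' := by
  have : Γ.psi h + Γ.psi h' = 0 := by
    rw [PTree.psi, PTree.psi, ← map_add]
    refine quo_eq_zero Γ ?_
    exact Ideal.subset_span (Or.inr ⟨h, h', hne, hb, hv, rfl⟩)
  exact eq_neg_of_add_eq_zero_left this

theorem val_eq (v : Γ.V) :
    Γ.val v = Γ.G.degree v + Fintype.card {i : Fin n // Γ.leg i = v} := by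
  classical
  rw [PTree.val, Fintype.card_congr (Equiv.subtypeSum (p := fun h => Γ.base h = v)),
    Fintype.card_sum]
  congr 1
  rw [← Γ.G.dart_fst_fiber_card_eq_degree v, Fintype.card_subtype]
  rfl

/-- a tree has a vertex of valence different from `2` or a vertex with a leg -/
theorem exists_good : ∃ v, Γ.val v ≠ 2 ∨ ∃ i, Γ.leg i = v := by
  classical
  by_contra hcon
  push Not at hcon
  have hdeg : ∀ v, Γ.G.degree v = 2 := by
    intro v
    have h1 := (hcon v).1
    rw [val_eq] at h1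
    have : Fintype.card {i : Fin n // Γ.leg i = v} = 0 := by
      rw [Fintype.card_eq_zero_iff]
      exact ⟨fun i => (hcon v).2 i.1 i.2⟩
    omega
  have h2 := Γ.G.sum_degrees_eq_twice_card_edges
  have h3 := Γ.tree.card_edgeFinset
  simp only [hdeg, Finset.sum_const, Finset.card_univ, smul_eq_mul] at h2
  omega

section Integral

variable (I : Subalgebra ℚ Γ.R)

/-- all `ψ`-classes at `v` belong to `I` -/
def Good (v : Γ.V) : Prop := ∀ h : Γ.Flag, Γ.base h = v → Γ.psi h ∈ I

theorem good_three (v : Γ.V) (hv : 3 ≤ Γ.val v) : Good Γ I v := by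
  intro h hh
  rw [psi_three Γ h (by rw [hh]; exact hv)]
  exact I.zero_mem

theorem good_zero (v : Γ.V) (hv : Γ.val v = 0) : Good Γ I v := by
  intro h hh
  rw [PTree.val, Fintype.card_eq_zero_iff] at hv
  exact (hv.false ⟨h, hh⟩).elim

theorem good_two (v : Γ.V) (hv : Γ.val v = 2) (h0 : Γ.Flag) (hb : Γ.base h0 = v)
    (hI : Γ.psi h0 ∈ I) : Good Γ I v := by
  intro h hh
  by_cases hne : h = h0
  · rw [hne]; exact hI
  · rw [psi_two Γ h h0 hne (by rw [hh, hb]) (by rw [hh, hv])]
    exact I.neg_mem hI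

/-- all `ψ`-classes are in `I` if `I` contains those at valence one, those of the legs, and the
normal classes of the edges -/
theorem all_good (h1 : ∀ h : Γ.Flag, Γ.val (Γ.base h) = 1 → Γ.psi h ∈ I)
    (hleg : ∀ i, Γ.psi (Sum.inr i) ∈ I)
    (he : ∀ d : Γ.G.Dart, -Γ.psi (Sum.inl d) - Γ.psi (Sum.inl d.symm) ∈ I) :
    ∀ v, Good Γ I v := by
  have hone : ∀ v, Γ.val v = 1 → Good Γ I v := fun v hv h hh => h1 h (by rw [hh, hv])
  have hnt : ∀ v, Γ.val v ≠ 2 → Good Γ I v := by
    intro v hv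
    rcases Nat.lt_or_ge (Γ.val v) 3 with h | h
    · interval_cases hh : Γ.val v
      · exact good_zero Γ I v hh
      · exact hone v hh
      · exact absurd rfl hv
    · exact good_three Γ I v h
  have hadj : ∀ v w, Γ.G.Adj v w → Good Γ I v → Good Γ I w := by
    intro v w hvw hv
    by_cases h2 : Γ.val w = 2
    · let d : Γ.G.Dart := ⟨(w, v), hvw.symm⟩
      refine good_two Γ I w h2 (Sum.inl d) rfl ?_
      have ha := he d
      have hb : Γ.psi (Sum.inl d.symm) ∈ I := hv _ rfl
      have hc : Γ.psi (Sum.inl d) =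
        -((-Γ.psi (Sum.inl d) - Γ.psi (Sum.inl d.symm)) + Γ.psi (Sum.inl d.symm)) := by ring
      rw [hc]
      exact I.neg_mem (I.add_mem ha hb)
    · exact hnt w h2
  obtain ⟨v0, hv0⟩ := exists_good Γ
  have hg0 : Good Γ I v0 := by
    by_cases h2 : Γ.val v0 = 2
    · rcases hv0 with h | ⟨i, hi⟩
      · exact absurd h2 h
      · exact good_two Γ I v0 h2 (Sum.inr i) hi (hleg i)
    · exact hnt v0 h2
  clear hv0
  intro v
  obtain ⟨w⟩ := Γ.tree.connected.preconnected v0 v
  induction w with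
  | nil => exact hg0
  | cons h p ih => exact ih (hadj _ _ h hg0)

end Integral

theorem empty_of_zero (v0 : Γ.V) (h0 : Γ.val v0 = 0) : IsEmpty Γ.Flag ∧ ∀ v, v = v0 := by
  have hv : ∀ v, v = v0 := by
    intro v
    by_contra hne
    obtain ⟨w⟩ := Γ.tree.connected.preconnected v0 v
    cases w with
    | nil => exact hne rfl
    | cons h p =>
      rw [PTree.val, Fintype.card_eq_zero_iff] at h0
      exact h0.false ⟨Sum.inl ⟨(v0, _), h⟩, rfl⟩
  refine ⟨⟨fun h => ?_⟩, hv⟩
  rw [PTree.val, Fintype.card_eq_zero_iff] at h0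
  exact h0.false ⟨h, hv _⟩

theorem all_integral (S : Subalgebra ℚ Γ.R) (N : ℕ) (hN : Fintype.card Γ.Flag ≤ N)
    (hκ : ∀ b, 1 ≤ b → b ≤ N + 1 → Γ.kap (2 * b) ∈ S) (hψ : ∀ i, Γ.psi (Sum.inr i) ∈ S)
    (hδ : ∀ k, 1 ≤ k → k ≤ N → Γ.del k ∈ S) (x : Γ.R) : IsIntegral S x := by
  classical
  let I : Subalgebra ℚ Γ.R := (integralClosure S Γ.R).restrictScalars ℚ
  have hI : ∀ y, y ∈ I ↔ IsIntegral S y := fun y => Iff.rfl
  have hS : ∀ y ∈ S, y ∈ I := fun y hy => (hI y).2 (isIntegral_algebraMap (x := (⟨y, hy⟩ : S)))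
  have key : (∀ h : Γ.Flag, Γ.psi h ∈ I) ∧ (∀ v, Γ.yy v ∈ I) := by
    by_cases hE : IsEmpty {v : Γ.V // Γ.val v = 0}
    · refine ⟨?_, fun v => (hE.false v).elim⟩
      have h1 : ∀ h : Γ.Flag, Γ.val (Γ.base h) = 1 → Γ.psi h ∈ I := by
        intro h hh
        have hp := integral_of_psum S
          (fun h : {h : Γ.Flag // Γ.val (Γ.base h) = 1} => Γ.psi h ^ 2) (by
            intro k hk1 hk2
            have hc : Fintype.card {h : Γ.Flag // Γ.val (Γ.base h) = 1} ≤ N :=
              (Fintype.card_subtype_le _).trans hN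
            have h3 := hκ k hk1 (by omega)
            have h4 : Γ.kap (2 * k) = - ∑ h : {h : Γ.Flag // Γ.val (Γ.base h) = 1},
                (Γ.psi h ^ 2) ^ k := by
              rw [PTree.kap, Finset.univ_eq_empty (α := {v : Γ.V // Γ.val v = 0}),
                Finset.sum_empty, sub_zero]
              exact sum_odd (fun h : {h : Γ.Flag // Γ.val (Γ.base h) = 1} => Γ.psi h) k
            rw [h4] at h3
            exact neg_mem_iff.1 h3) ⟨h, hh⟩
        exact (hI _).2 (hp.of_pow (by norm_num))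
      have he : ∀ d : Γ.G.Dart, -Γ.psi (Sum.inl d) - Γ.psi (Sum.inl d.symm) ∈ I := by
        intro d
        refine (hI _).2 (integral_of_psum S
          (fun d : Γ.G.Dart => -Γ.psi (Sum.inl d) - Γ.psi (Sum.inl d.symm)) ?_ d)
        intro k hk1 hk2
        have hc : Fintype.card Γ.G.Dart ≤ N := by
          rw [Fintype.card_sum] at hN
          omega
        exact hδ k hk1 (hk2.trans hc)
      have := all_good Γ I h1 (fun i => hS _ (hψ i)) he
      exact fun h => this _ h rfl
    · rw [not_isEmpty_iff] at hE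
      obtain ⟨v0⟩ := hE
      obtain ⟨hF, hV⟩ := empty_of_zero Γ v0.1 v0.2
      refine ⟨fun h => (hF.false h).elim, fun v => ?_⟩
      have hu : ∀ w : {v : Γ.V // Γ.val v = 0}, w = v := fun w =>
        Subtype.ext ((hV w.1).trans (hV v.1).symm)
      have h3 := hκ 1 le_rfl (by omega)
      have h4 : Γ.kap (2 * 1) = - (2 * Γ.yy v) := by
        have : IsEmpty {h : Γ.Flag // Γ.val (Γ.base h) = 1} := ⟨fun h => hF.false h.1⟩
        rw [PTree.kap, Finset.univ_eq_empty (α := {h : Γ.Flag // Γ.val (Γ.base h) = 1}),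
          Finset.sum_empty, zero_sub]
        have hu2 : (Finset.univ : Finset {v : Γ.V // Γ.val v = 0}) = {v} := by
          ext w; simp [hu w]
        rw [hu2, Finset.sum_singleton]
        norm_num
      have h5 : Γ.yy v = (-(1 / 2) : ℚ) • Γ.kap (2 * 1) := half_eq _ _ h4
      rw [h5]
      exact I.smul_mem (hS _ h3) _
  obtain ⟨p, rfl⟩ := quo_surj Γ x
  rw [← hI]
  induction p using MvPolynomial.induction_on with
  | C a =>
    have : Γ.quo (C a) = algebraMap ℚ Γ.R a := Γ.quo.commutes a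
    rw [this]
    exact I.algebraMap_mem a
  | add p q hp hq => rw [map_add]; exact I.add_mem hp hq
  | mul_X p g hp =>
    rw [map_mul]
    refine I.mul_mem hp ?_
    rcases g with h | v
    · exact key.1 h
    · exact key.2 v

end Pool.Agent.H353R3.Ch
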