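import Pool.Agent.H353R3.Ch3

/-!
# Finite generation along a localization tower
-/

set_option autoImplicit false
set_option linter.style.haveILetI false

namespace Pool.Agent.H353R3.Ch

open MvPolynomial

theorem finite_step {P A A' R C : Type*} [CommRing P] [IsNoetherianRing P] [CommRing A]
    [CommRing A'] [CommRing R] [CommRing C] (φ : P →+* A) (res : A →+* A')
    (hres : Function.Surjective res) (h' : (res.comp φ).Finite) (inc : C →+* R)
    (hinc : Function.Injective inc) (pull : A →+* C) (hR : (inc.comp (pull.comp φ)).Finite)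
    (push : C →+ A) (proj : ∀ x y, push (pull x * y) = x * push y)
    (exact : ∀ x, res x = 0 ↔ ∃ y, push y = x) : φ.Finite := by
  letI : Algebra P R := (inc.comp (pull.comp φ)).toAlgebra
  letI : Algebra P C := (pull.comp φ).toAlgebra
  letI : Algebra P A := φ.toAlgebra
  letI : Algebra P A' := (res.comp φ).toAlgebra
  haveI : Module.Finite P R := hR
  haveI : Module.Finite P A' := h'
  haveI : IsNoetherian P R := isNoetherian_of_isNoetherianRing_of_finite P R
  let incL : C →ₗ[P] R :=
    { toFun := inc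
      map_add' := map_add inc
      map_smul' := fun p c => by
        rw [Algebra.smul_def, Algebra.smul_def, map_mul]
        rfl }
  haveI : IsNoetherian P C := isNoetherian_of_injective incL hinc
  haveI : Module.Finite P C := inferInstance
  let resL : A →ₗ[P] A' :=
    { toFun := res
      map_add' := map_add res
      map_smul' := fun p c => by
        rw [Algebra.smul_def, Algebra.smul_def, map_mul]
        rfl }
  let pushL : C →ₗ[P] A :=
    { toFun := push
      map_add' := map_add push
      map_smul' := fun p c => by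
        rw [Algebra.smul_def, Algebra.smul_def]
        exact proj (φ p) c }
  have hfin : (⊤ : Submodule P A).FG := by
    refine Submodule.fg_of_fg_map_of_fg_inf_ker resL ?_ ?_
    · rw [Submodule.map_top, LinearMap.range_eq_top.2 hres]
      exact Module.Finite.fg_top
    · have : (⊤ : Submodule P A) ⊓ LinearMap.ker resL = LinearMap.range pushL := by
        ext x
        rw [top_inf_eq, LinearMap.mem_ker, LinearMap.mem_range]
        exact exact x
      rw [this, ← Submodule.map_top]
      exact (Module.Finite.fg_top (R := P) (M := C)).map pushL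
  exact ⟨hfin⟩

theorem finite_of_integral {P R : Type*} [CommRing P] [CommRing R] [Algebra ℚ P] [Algebra ℚ R]
    [Algebra.FiniteType ℚ R] (θ : P →ₐ[ℚ] R) (hint : ∀ x : R, IsIntegral θ.range x) :
    θ.toRingHom.Finite := by
  have hi : θ.toRingHom.IsIntegral := by
    intro x
    obtain ⟨q, hq, hqx⟩ := hint x
    have hsurj : Function.Surjective (θ.rangeRestrict : P →+* θ.range) :=
      θ.rangeRestrict_surjective
    have hl : q ∈ Polynomial.lifts (θ.rangeRestrict : P →+* θ.range) :=
      Polynomial.mem_lifts_of_surjective hsurj q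
    obtain ⟨p, hp, -, hpm⟩ := Polynomial.lifts_and_natDegree_eq_and_monic hl hq
    refine ⟨p, hpm, ?_⟩
    rw [← hp, Polynomial.eval₂_map] at hqx
    exact hqx
  have hf : θ.toRingHom.FiniteType := by
    have h1 : (algebraMap ℚ R).FiniteType := by
      rw [RingHom.finiteType_algebraMap]
      infer_instance
    refine RingHom.FiniteType.of_comp_finiteType (f := algebraMap ℚ P) ?_
    have : θ.toRingHom.comp (algebraMap ℚ P) = algebraMap ℚ R := θ.comp_algebraMap
    rw [this]
    exact h1
  exact hi.to_finite hf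

variable {n m : ℕ} {S : Strata n m} (T : Tower S)

/-- the number of flags of all strata -/
noncomputable def bound (S : Strata n m) : ℕ := ∑ j, Fintype.card (S.Γ j).Flag

theorem card_le_bound (j : Fin m) : Fintype.card (S.Γ j).Flag ≤ bound S :=
  Finset.single_le_sum (f := fun j => Fintype.card (S.Γ j).Flag) (fun _ _ => Nat.zero_le _)
    (Finset.mem_univ j)

/-- the tautological classes `κ_{2b}`, `ψ_i`, `δ_k` with `1 ≤ b, k ≤ N + 1` -/
def cls (N : ℕ) (j : Fin (m + 1)) : Fin (N + 1) ⊕ Fin n ⊕ Fin (N + 1) → S.A j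
  | Sum.inl b => T.c.κ j (2 * (b + 1))
  | Sum.inr (Sum.inl i) => T.c.ψ j i
  | Sum.inr (Sum.inr k) => T.c.δ j (k + 1)

theorem finite_all (j : Fin (m + 1)) :
    (aeval (cls T (bound S) j) : MvPolynomial _ ℚ →ₐ[ℚ] S.A j).toRingHom.Finite := by
  set N := bound S with hN
  induction j using Fin.induction with
  | zero =>
    haveI := T.loc.empty
    exact RingHom.Finite.of_surjective _ (fun x => ⟨0, Subsingleton.elim _ _⟩)
  | succ j ih =>
    set φ : MvPolynomial _ ℚ →ₐ[ℚ] S.A j.succ := aeval (cls T N j.succ) with hφ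
    have hcomp : (T.M.res j).comp φ = aeval (cls T N j.castSucc) := by
      refine MvPolynomial.algHom_ext fun g => ?_
      rw [AlgHom.comp_apply, hφ, aeval_X, aeval_X]
      rcases g with b | i | k
      · exact T.res.κ j _
      · exact T.res.ψ j _
      · exact T.res.δ j _
    have h' : ((T.M.res j).toRingHom.comp φ.toRingHom).Finite := by
      have : (T.M.res j).toRingHom.comp φ.toRingHom =
          (aeval (cls T N j.castSucc) : MvPolynomial _ ℚ →ₐ[ℚ] S.A j.castSucc).toRingHom := by
        rw [← hcomp]; rfl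
      rw [this]
      exact ih
    let θ : MvPolynomial (Fin (N + 1) ⊕ Fin n ⊕ Fin (N + 1)) ℚ →ₐ[ℚ] (S.Γ j).R :=
      (T.M.pull j).comp φ
    have hθ : ∀ g, θ (X g) = T.M.pull j (cls T N j.succ g) := by
      intro g
      simp only [θ, AlgHom.comp_apply, hφ, aeval_X]
    have hint : ∀ x : (S.Γ j).R, IsIntegral θ.range x := by
      refine all_integral (S.Γ j) θ.range N (card_le_bound j) ?_ ?_ ?_
      · intro b hb1 hb2
        refine ⟨X (Sum.inl ⟨b - 1, by omega⟩), ?_⟩
        have h1 := hθ (Sum.inl ⟨b - 1, by omega⟩)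
        have h2 := T.pull.κ j (2 * b) (by omega)
        rw [← h2]
        refine h1.trans ?_
        simp only [cls]
        rw [show b - 1 + 1 = b by omega]
      · intro i
        refine ⟨X (Sum.inr (Sum.inl i)), ?_⟩
        rw [← T.pull.ψ j i]
        exact hθ _
      · intro k hk1 hk2
        refine ⟨X (Sum.inr (Sum.inr ⟨k - 1, by omega⟩)), ?_⟩
        have h1 := hθ (Sum.inr (Sum.inr ⟨k - 1, by omega⟩))
        have h2 := T.pull.δ j k hk1
        rw [← h2]
        refine h1.trans ?_
        simp only [cls]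
        rw [show k - 1 + 1 = k by omega]
    have hθfin : θ.toRingHom.Finite := by
      haveI : Algebra.FiniteType ℚ (S.Γ j).R :=
        Algebra.FiniteType.of_surjective (S.Γ j).quo (quo_surj (S.Γ j))
      exact finite_of_integral θ hint
    let pu : S.A j.succ →ₐ[ℚ] (S.Γ j).CHs := (T.M.pull j).codRestrict _ (T.loc.pull_mem j)
    refine finite_step φ.toRingHom (T.M.res j).toRingHom (T.loc.res_surj j) h'
      (S.Γ j).CHs.val.toRingHom Subtype.val_injective pu.toRingHom hθfin
      (AddMonoidHom.mk' (fun y : (S.Γ j).CHs => T.M.push j y.1)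
        (fun x y => T.loc.push_add j x.1 x.2 y.1 y.2)) ?_ ?_
    · intro x y
      exact T.loc.proj j x y.1 y.2
    · intro x
      refine (T.loc.exact j x).trans ⟨?_, ?_⟩
      · rintro ⟨y, hy, h⟩
        exact ⟨⟨y, hy⟩, h⟩
      · rintro ⟨y, h⟩
        exact ⟨y.1, y.2, h⟩

/-- the subalgebra generated by the classes `κ_{2b}`, `ψ_i`, `δ_k` with `1 ≤ b, k ≤ N` -/
def taut (N : ℕ) : Subalgebra ℚ (S.A (Fin.last m)) :=
  Algebra.adjoin ℚ ({x | ∃ b, 1 ≤ b ∧ b ≤ N ∧ x = T.c.κ (Fin.last m) (2 * b)} ∪
    {x | ∃ i, x = T.c.ψ (Fin.last m) i} ∪ {x | ∃ k, 1 ≤ k ∧ k ≤ N ∧ x = T.c.δ (Fin.last m) k})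

include T in
theorem finiteType : Algebra.FiniteType ℚ (S.A (Fin.last m)) := by
  have h := finite_all T (Fin.last m)
  have h1 : (algebraMap ℚ (S.A (Fin.last m))).FiniteType := by
    have h2 : (algebraMap ℚ (MvPolynomial (Fin (bound S + 1) ⊕ Fin n ⊕ Fin (bound S + 1)) ℚ)).FiniteType := by
      rw [RingHom.finiteType_algebraMap]
      infer_instance
    have h3 := RingHom.FiniteType.comp h.finiteType h2
    have : (aeval (cls T (bound S) (Fin.last m)) : MvPolynomial _ ℚ →ₐ[ℚ] _).toRingHom.comp
        (algebraMap ℚ (MvPolynomial _ ℚ)) = algebraMap ℚ (S.A (Fin.last m)) :=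
      (aeval (cls T (bound S) (Fin.last m))).comp_algebraMap
    rw [this] at h3
    exact h3
  exact RingHom.finiteType_algebraMap.1 h1

theorem finite_taut : Module.Finite (taut T (bound S + 1)) (S.A (Fin.last m)) := by
  have h := finite_all T (Fin.last m)
  set ψ' : MvPolynomial (Fin (bound S + 1) ⊕ Fin n ⊕ Fin (bound S + 1)) ℚ →ₐ[ℚ] _ :=
    aeval (cls T (bound S) (Fin.last m)) with hψ'
  have hr : ∀ p, ψ' p ∈ taut T (bound S + 1) := by
    intro p
    have : ψ'.range ≤ taut T (bound S + 1) := by
      rw [hψ', ← Algebra.adjoin_range_eq_range_aeval]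
      refine Algebra.adjoin_mono ?_
      rintro _ ⟨g, rfl⟩
      rcases g with b | i | k
      · exact Or.inl (Or.inl ⟨b + 1, by omega, by omega, rfl⟩)
      · exact Or.inl (Or.inr ⟨i, rfl⟩)
      · exact Or.inr ⟨k + 1, by omega, by omega, rfl⟩
    exact this ⟨p, rfl⟩
  let ρ : MvPolynomial (Fin (bound S + 1) ⊕ Fin n ⊕ Fin (bound S + 1)) ℚ →ₐ[ℚ]
      taut T (bound S + 1) := ψ'.codRestrict _ hr
  have hcomp : (algebraMap (taut T (bound S + 1)) (S.A (Fin.last m))).comp ρ.toRingHom =
      ψ'.toRingHom := rfl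
  rw [← hcomp] at h
  have h2 := RingHom.Finite.of_comp_finite h
  exact RingHom.finite_algebraMap.1 h2

end Pool.Agent.H353R3.Ch
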