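import Mathlib

/-!
# Limits of subspaces along an ultrafilter
-/

open Filter Topology Module

namespace Pool.Agent.H353R3.Fl

section Limit

variable {E : Type*} [NormedAddCommGroup E] [InnerProductSpace ℂ E]

/-- The limit of the subspaces `W n` along the ultrafilter `U`. -/
def limSub (U : Ultrafilter ℕ) (W : ℕ → Submodule ℂ E) : Submodule ℂ E where
  carrier := {f | ∃ g : ℕ → E, (∀ n, g n ∈ W n) ∧ Tendsto g U (𝓝 f)}
  add_mem' := by
    rintro a b ⟨g, hg, hga⟩ ⟨g', hg', hgb⟩
    exact ⟨fun n => g n + g' n, fun n => (W n).add_mem (hg n) (hg' n), hga.add hgb⟩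
  zero_mem' := ⟨fun _ => 0, fun n => (W n).zero_mem, tendsto_const_nhds⟩
  smul_mem' := by
    rintro c a ⟨g, hg, hga⟩
    exact ⟨fun n => c • g n, fun n => (W n).smul_mem c (hg n), hga.const_smul c⟩

theorem mem_limSub {U : Ultrafilter ℕ} {W : ℕ → Submodule ℂ E} {f : E} :
    f ∈ limSub U W ↔ ∃ g : ℕ → E, (∀ n, g n ∈ W n) ∧ Tendsto g U (𝓝 f) := Iff.rfl

theorem limSub_spec [FiniteDimensional ℂ E] (U : Ultrafilter ℕ) (W : ℕ → Submodule ℂ E) (d : ℕ)
    (hW : ∀ n, finrank ℂ (W n) = d) :
    finrank ℂ (limSub U W) = d ∧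
      ∀ ε > 0, ∀ᶠ n in (U : Filter ℕ), ∀ f ∈ limSub U W, ∃ g ∈ W n, ‖f - g‖ ≤ ε * ‖f‖ := by
  -- orthonormal bases
  let b : ∀ n, OrthonormalBasis (Fin d) ℂ (W n) := fun n =>
    (stdOrthonormalBasis ℂ (W n)).reindex (finCongr (hW n))
  let e : ℕ → Fin d → E := fun n j => (b n j : E)
  have he : ∀ n, Orthonormal ℂ (e n) := by
    intro n
    have := (b n).orthonormal
    exact this.comp_linearIsometry (W n).subtypeₗᵢ
  have hmem : ∀ n j, e n j ∈ W n := fun n j => (b n j).2
  have hexp : ∀ n, ∀ g ∈ W n, g = ∑ j, inner ℂ (e n j) g • e n j := by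
    intro n g hg
    have := (b n).sum_repr' ⟨g, hg⟩
    have h2 := congrArg Subtype.val this
    simp only [Submodule.coe_sum, Submodule.coe_smul, Submodule.coe_inner] at h2
    exact h2.symm
  -- limits
  have hlim : ∀ j, ∃ x : E, Tendsto (fun n => e n j) U (𝓝 x) := by
    intro j
    have hc : IsCompact (Metric.closedBall (0 : E) 1) :=
      (FiniteDimensional.proper ℂ E).isCompact_closedBall 0 1
    have := hc.ultrafilter_le_nhds (U.map fun n => e n j) (by
      rw [le_principal_iff]
      change ∀ᶠ n in (U : Filter ℕ), e n j ∈ _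
      exact Eventually.of_forall fun n => by
        rw [Metric.mem_closedBall, dist_zero_right, (he n).1 j])
    obtain ⟨x, -, hx⟩ := this
    exact ⟨x, hx⟩
  choose x hx using hlim
  have hxo : Orthonormal ℂ x := by
    rw [orthonormal_iff_ite]
    intro i j
    have h1 : Tendsto (fun n => inner ℂ (e n i) (e n j)) U (𝓝 (inner ℂ (x i) (x j))) :=
      (hx i).inner (hx j)
    have h2 : (fun n => inner ℂ (e n i) (e n j)) = fun _ => (if i = j then (1 : ℂ) else 0) := by
      funext n
      exact (orthonormal_iff_ite.1 (he n)) i j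
    rw [h2] at h1
    exact tendsto_nhds_unique h1 tendsto_const_nhds
  have hspan : limSub U W = Submodule.span ℂ (Set.range x) := by
    apply le_antisymm
    · rintro f ⟨g, hg, hgf⟩
      have h1 : Tendsto (fun n => ∑ j, inner ℂ (e n j) (g n) • e n j) U
          (𝓝 (∑ j, inner ℂ (x j) f • x j)) :=
        tendsto_finsetSum _ fun j _ => ((hx j).inner hgf).smul (hx j)
      have h2 : (fun n => ∑ j, inner ℂ (e n j) (g n) • e n j) = g := by
        funext n
        exact (hexp n _ (hg n)).symm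
      rw [h2] at h1
      rw [tendsto_nhds_unique hgf h1]
      exact Submodule.sum_mem _ fun j _ => Submodule.smul_mem _ _
        (Submodule.subset_span ⟨j, rfl⟩)
    · rw [Submodule.span_le]
      rintro _ ⟨j, rfl⟩
      exact ⟨fun n => e n j, fun n => hmem n j, hx j⟩
  constructor
  · rw [hspan, finrank_span_eq_card hxo.linearIndependent, Fintype.card_fin]
  · intro ε hε
    have h3 : ∀ᶠ n in (U : Filter ℕ), ∑ j, ‖x j - e n j‖ ≤ ε := by
      have h4 : Tendsto (fun n => ∑ j, ‖x j - e n j‖) U (𝓝 (∑ j : Fin d, ‖x j - x j‖)) :=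
        tendsto_finsetSum _ fun j _ => (tendsto_const_nhds.sub (hx j)).norm
      simp only [sub_self, norm_zero, Finset.sum_const_zero] at h4
      exact (h4.eventually (ge_mem_nhds hε))
    filter_upwards [h3] with n hn f hf
    rw [hspan] at hf
    have hfx : f = ∑ j, inner ℂ (x j) f • x j := by
      obtain ⟨c, rfl⟩ := (Submodule.mem_span_range_iff_exists_fun ℂ).1 hf
      refine Finset.sum_congr rfl fun j _ => ?_
      congr 1
      have := hxo.inner_right_fintype c j
      exact this.symm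
    refine ⟨∑ j, inner ℂ (x j) f • e n j, Submodule.sum_mem _ fun j _ =>
      Submodule.smul_mem _ _ (hmem n j), ?_⟩
    calc ‖f - ∑ j, inner ℂ (x j) f • e n j‖
        = ‖∑ j, inner ℂ (x j) f • (x j - e n j)‖ := by
          conv_lhs => rw [hfx]
          rw [← Finset.sum_sub_distrib]
          congr 1
          refine Finset.sum_congr rfl fun j _ => ?_
          rw [← hfx, smul_sub]
      _ ≤ ∑ j, ‖inner ℂ (x j) f • (x j - e n j)‖ := norm_sum_le _ _
      _ ≤ ∑ j, ‖f‖ * ‖x j - e n j‖ := by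
          refine Finset.sum_le_sum fun j _ => ?_
          rw [norm_smul]
          refine mul_le_mul_of_nonneg_right ?_ (norm_nonneg _)
          calc ‖inner ℂ (x j) f‖ ≤ ‖x j‖ * ‖f‖ := norm_inner_le_norm _ _
            _ = ‖f‖ := by rw [hxo.1 j, one_mul]
      _ = (∑ j, ‖x j - e n j‖) * ‖f‖ := by rw [← Finset.mul_sum, mul_comm]
      _ ≤ ε * ‖f‖ := mul_le_mul_of_nonneg_right hn (norm_nonneg _)

end Limit

end Pool.Agent.H353R3.Fl
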