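import Pool.Agent.H353R3.Fl1

/-!
# Multigraded Hilbert functions, ideals of points and their limits
-/

open Filter Topology Module MvPolynomial

namespace Pool.Agent.H353R3.Fl

section Defs

variable {ι A : Type} [AddCommGroup A] (deg : ι → A)

/-- The ideal `I` is homogeneous for the grading with `x_i` of degree `deg i`. -/
def IsHomog (I : Ideal (MvPolynomial ι ℂ)) : Prop :=
  ∀ f ∈ I, ∀ D : A, weightedHomogeneousComponent deg D f ∈ I

/-- The value `dim (S / I)_D` of the Hilbert function of the homogeneous ideal `I`. -/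
noncomputable def hilb (I : Ideal (MvPolynomial ι ℂ)) (D : A) : ℕ :=
  finrank ℂ (weightedHomogeneousSubmodule ℂ deg D ⧸
    Submodule.comap (weightedHomogeneousSubmodule ℂ deg D).subtype (I.restrictScalars ℂ))

/-- The generic Hilbert function `h_k(D) = min(k, dim S_D)`. -/
noncomputable def genHilb (k : ℕ) (D : A) : ℕ :=
  min k (finrank ℂ (weightedHomogeneousSubmodule ℂ deg D))

/-- The ideal of the points with homogeneous coordinates `p 0, …, p (k - 1)`: it is generated by
the homogeneous polynomials vanishing at all of them. -/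
noncomputable def idealOf {k : ℕ} (p : Fin k → ι → ℂ) : Ideal (MvPolynomial ι ℂ) :=
  Ideal.span {f | (∃ D, IsWeightedHomogeneous deg f D) ∧ ∀ i, eval (p i) f = 0}

/-- `p` and `q` are in the same orbit of the group `G = Hom(A, ℂˣ)`: they are homogeneous
coordinates of the same point. -/
def SamePoint (p q : ι → ℂ) : Prop :=
  ∃ χ : Multiplicative A →* ℂˣ, ∀ i, q i = (χ (Multiplicative.ofAdd (deg i)) : ℂ) * p i

/-- The ideals of sets of `k` distinct points of `U / G` with the generic Hilbert function. -/
def pointIdeals (U : Set (ι → ℂ)) (k : ℕ) : Set (Ideal (MvPolynomial ι ℂ)) :=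
  {J | ∃ p : Fin k → ι → ℂ, (∀ i, p i ∈ U) ∧ (∀ i j, i ≠ j → ¬ SamePoint deg (p i) (p j)) ∧
    J = idealOf deg p ∧ ∀ D, hilb deg J D = genHilb deg k D}

/-- The sequence of ideals `J n` converges to the ideal `I`: every homogeneous element of `I` is
the coefficientwise limit of homogeneous elements of the `J n` of the same degree. (For homogeneous
ideals with the same Hilbert function this is convergence in the product of the Grassmannians
of the spaces `S_D`.) -/
def Converges (J : ℕ → Ideal (MvPolynomial ι ℂ)) (I : Ideal (MvPolynomial ι ℂ)) : Prop :=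
  ∀ (D : A), ∀ f ∈ I, IsWeightedHomogeneous deg f D → ∃ g : ℕ → MvPolynomial ι ℂ,
    (∀ n, g n ∈ J n ∧ IsWeightedHomogeneous deg (g n) D) ∧
    ∀ m, Tendsto (fun n => coeff m (g n)) atTop (𝓝 (coeff m f))

/-- The points of the Slip variety: the homogeneous ideals with Hilbert function `h_k` which are
limits of ideals of `k` distinct points with Hilbert function `h_k`. -/
def slip (U : Set (ι → ℂ)) (k : ℕ) : Set (Ideal (MvPolynomial ι ℂ)) :=
  {I | IsHomog deg I ∧ (∀ D, hilb deg I D = genHilb deg k D) ∧
    ∃ J : ℕ → Ideal (MvPolynomial ι ℂ), (∀ n, J n ∈ pointIdeals deg U k) ∧ Converges deg J I}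

end Defs

section Vec

variable {ι A : Type} [AddCommGroup A] (deg : ι → A)

/-- The exponents of the monomials of degree `D`. -/
abbrev Mon (D : A) : Type := {m : ι →₀ ℕ // Finsupp.weight deg m = D}

variable (D : A) [Fintype (Mon deg D)]

/-- The vector of the coefficients in degree `D`. -/
noncomputable def toVec : MvPolynomial ι ℂ →ₗ[ℂ] EuclideanSpace ℂ (Mon deg D) where
  toFun f := WithLp.toLp 2 fun m => coeff m.1 f
  map_add' f g := by ext m; simp
  map_smul' c f := by ext m; simp

/-- The homogeneous polynomial with given coefficients. -/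
noncomputable def ofVec : EuclideanSpace ℂ (Mon deg D) →ₗ[ℂ] MvPolynomial ι ℂ where
  toFun v := ∑ m, monomial m.1 (v m)
  map_add' v w := by
    rw [← Finset.sum_add_distrib]
    exact Finset.sum_congr rfl fun m _ => by simp
  map_smul' c v := by
    rw [RingHom.id_apply, Finset.smul_sum]
    exact Finset.sum_congr rfl fun m _ => by simp [smul_monomial]

theorem ofVec_apply (v : EuclideanSpace ℂ (Mon deg D)) :
    ofVec deg D v = ∑ m, monomial m.1 (v m) := rfl

theorem toVec_apply (f : MvPolynomial ι ℂ) (m : Mon deg D) :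
    toVec deg D f m = coeff m.1 f := rfl

theorem coeff_ofVec (v : EuclideanSpace ℂ (Mon deg D)) (m : ι →₀ ℕ) :
    coeff m (ofVec deg D v) = open Classical in
      if h : Finsupp.weight deg m = D then v ⟨m, h⟩ else 0 := by
  classical
  rw [ofVec_apply, coeff_sum]
  simp only [coeff_monomial]
  by_cases h : Finsupp.weight deg m = D
  · rw [Finset.sum_eq_single ⟨m, h⟩]
    · simp [h]
    · rintro ⟨m', hm'⟩ _ hne
      rw [if_neg]
      intro h2
      exact hne (Subtype.ext h2)
    · simp
  · rw [dif_neg h]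
    apply Finset.sum_eq_zero
    rintro ⟨m', hm'⟩ _
    rw [if_neg]
    intro h2
    exact h (by rw [← h2]; exact hm')

theorem ofVec_homog (v : EuclideanSpace ℂ (Mon deg D)) :
    IsWeightedHomogeneous deg (ofVec deg D v) D := by
  classical
  intro m hm
  by_contra h
  rw [coeff_ofVec, dif_neg h] at hm
  exact hm rfl

theorem toVec_ofVec (v : EuclideanSpace ℂ (Mon deg D)) : toVec deg D (ofVec deg D v) = v := by
  ext m
  rw [toVec_apply, coeff_ofVec, dif_pos m.2]

theorem ofVec_toVec (f : MvPolynomial ι ℂ) :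
    ofVec deg D (toVec deg D f) = weightedHomogeneousComponent deg D f := by
  classical
  ext m
  rw [coeff_ofVec, coeff_weightedHomogeneousComponent]
  by_cases h : Finsupp.weight deg m = D
  · rw [dif_pos h, if_pos h, toVec_apply]
  · rw [dif_neg h, if_neg h]

theorem component_of_homog {f : MvPolynomial ι ℂ} {D : A} (hf : IsWeightedHomogeneous deg f D) :
    weightedHomogeneousComponent deg D f = f := by
  classical
  ext m
  rw [coeff_weightedHomogeneousComponent]
  split_ifs with h
  · rfl
  · by_contra hne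
    exact h (hf (Ne.symm hne))

/-- The degree `D` part of an ideal, in coordinates. -/
noncomputable def idealVec (I : Ideal (MvPolynomial ι ℂ)) :
    Submodule ℂ (EuclideanSpace ℂ (Mon deg D)) :=
  (I.restrictScalars ℂ).comap (ofVec deg D)

theorem mem_idealVec {I : Ideal (MvPolynomial ι ℂ)} {v : EuclideanSpace ℂ (Mon deg D)} :
    v ∈ idealVec deg D I ↔ ofVec deg D v ∈ I := Iff.rfl

/-- Coordinates on `S_D`. -/
noncomputable def vecEquiv :
    weightedHomogeneousSubmodule ℂ deg D ≃ₗ[ℂ] EuclideanSpace ℂ (Mon deg D) where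
  toFun f := toVec deg D f.1
  map_add' f g := by simp
  map_smul' c f := by simp
  invFun v := ⟨ofVec deg D v, ofVec_homog deg D v⟩
  left_inv f := by
    apply Subtype.ext
    simp only [ofVec_toVec]
    exact component_of_homog deg f.2
  right_inv v := toVec_ofVec deg D v

theorem finrank_degree : finrank ℂ (weightedHomogeneousSubmodule ℂ deg D) =
    Fintype.card (Mon deg D) := by
  rw [(vecEquiv deg D).finrank_eq]
  simp

theorem finrank_idealVec_add (I : Ideal (MvPolynomial ι ℂ)) :
    hilb deg I D + finrank ℂ (idealVec deg D I) = Fintype.card (Mon deg D) := by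
  have hfin : Module.Finite ℂ (weightedHomogeneousSubmodule ℂ deg D) :=
    Module.Finite.equiv (vecEquiv deg D).symm
  have h1 := Submodule.finrank_quotient_add_finrank
    (Submodule.comap (weightedHomogeneousSubmodule ℂ deg D).subtype (I.restrictScalars ℂ))
  rw [finrank_degree] at h1
  rw [← h1, hilb]
  congr 1
  have h2 : idealVec deg D I = Submodule.map (vecEquiv deg D).toLinearMap
      (Submodule.comap (weightedHomogeneousSubmodule ℂ deg D).subtype (I.restrictScalars ℂ)) := by
    ext v
    constructor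
    · intro hv
      refine ⟨(vecEquiv deg D).symm v, ?_, ?_⟩
      · exact hv
      · exact (vecEquiv deg D).apply_symm_apply v
    · rintro ⟨f, hf, rfl⟩
      rw [mem_idealVec]
      have : ofVec deg D (toVec deg D f.1) = f.1 := by
        rw [ofVec_toVec]; exact component_of_homog deg f.2
      change ofVec deg D (toVec deg D f.1) ∈ I
      rw [this]
      exact hf
  rw [h2]
  exact LinearEquiv.finrank_map_eq (vecEquiv deg D) _

theorem hilb_eq_iff (I : Ideal (MvPolynomial ι ℂ)) (h : ℕ) (hh : h ≤ Fintype.card (Mon deg D)) :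
    hilb deg I D = h ↔ finrank ℂ (idealVec deg D I) = Fintype.card (Mon deg D) - h := by
  have := finrank_idealVec_add deg D I
  omega

end Vec

section Limit

variable {ι A : Type} [AddCommGroup A] (deg : ι → A)

theorem tendsto_euclid {κ α : Type*} [Fintype κ] {l : Filter α} {w : α → EuclideanSpace ℂ κ}
    {v : EuclideanSpace ℂ κ} :
    Tendsto w l (𝓝 v) ↔ ∀ i, Tendsto (fun n => w n i) l (𝓝 (v i)) := by
  rw [(EuclideanSpace.equiv κ ℂ).toHomeomorph.isInducing.tendsto_nhds_iff, tendsto_pi_nhds]
  rfl

/-- The limit of a sequence of ideals along an ultrafilter. -/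
def limIdeal (U : Ultrafilter ℕ) (J : ℕ → Ideal (MvPolynomial ι ℂ)) :
    Ideal (MvPolynomial ι ℂ) where
  carrier := {f | ∃ g : ℕ → MvPolynomial ι ℂ, (∀ n, g n ∈ J n) ∧
    ∀ m, Tendsto (fun n => coeff m (g n)) U (𝓝 (coeff m f))}
  add_mem' := by
    rintro a b ⟨g, hg, hga⟩ ⟨g', hg', hgb⟩
    refine ⟨fun n => g n + g' n, fun n => (J n).add_mem (hg n) (hg' n), fun m => ?_⟩
    simp only [coeff_add]
    exact (hga m).add (hgb m)
  zero_mem' := ⟨fun _ => 0, fun n => (J n).zero_mem, fun m => tendsto_const_nhds⟩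
  smul_mem' := by
    classical
    rintro c a ⟨g, hg, hga⟩
    refine ⟨fun n => c * g n, fun n => (J n).mul_mem_left c (hg n), fun m => ?_⟩
    simp only [smul_eq_mul, coeff_mul]
    exact tendsto_finsetSum _ fun x _ => (hga x.2).const_mul _

theorem mem_limIdeal {U : Ultrafilter ℕ} {J : ℕ → Ideal (MvPolynomial ι ℂ)}
    {f : MvPolynomial ι ℂ} : f ∈ limIdeal U J ↔ ∃ g : ℕ → MvPolynomial ι ℂ, (∀ n, g n ∈ J n) ∧
    ∀ m, Tendsto (fun n => coeff m (g n)) U (𝓝 (coeff m f)) := Iff.rfl

theorem limIdeal_mono (U : Ultrafilter ℕ) {J J' : ℕ → Ideal (MvPolynomial ι ℂ)}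
    (h : ∀ n, J n ≤ J' n) : limIdeal U J ≤ limIdeal U J' := by
  rintro f ⟨g, hg, hgf⟩
  exact ⟨g, fun n => h n (hg n), hgf⟩

theorem limIdeal_homog (U : Ultrafilter ℕ) {J : ℕ → Ideal (MvPolynomial ι ℂ)}
    (h : ∀ n, IsHomog deg (J n)) : IsHomog deg (limIdeal U J) := by
  classical
  rintro f ⟨g, hg, hgf⟩ D
  refine ⟨fun n => weightedHomogeneousComponent deg D (g n), fun n => h n _ (hg n) D,
    fun m => ?_⟩
  simp only [coeff_weightedHomogeneousComponent]
  split_ifs
  · exact hgf m
  · exact tendsto_const_nhds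

theorem idealVec_limIdeal (D : A) [Fintype (Mon deg D)] (U : Ultrafilter ℕ)
    {J : ℕ → Ideal (MvPolynomial ι ℂ)} (h : ∀ n, IsHomog deg (J n)) :
    idealVec deg D (limIdeal U J) = limSub U fun n => idealVec deg D (J n) := by
  ext v
  rw [mem_idealVec, mem_limSub, mem_limIdeal]
  constructor
  · rintro ⟨g, hg, hgf⟩
    refine ⟨fun n => toVec deg D (g n), fun n => ?_, ?_⟩
    · rw [mem_idealVec, ofVec_toVec]
      exact h n _ (hg n) D
    · rw [← toVec_ofVec deg D v, tendsto_euclid]
      intro m
      exact hgf m.1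
  · rintro ⟨w, hw, hwv⟩
    refine ⟨fun n => ofVec deg D (w n), fun n => hw n, fun m => ?_⟩
    simp only [coeff_ofVec]
    split_ifs with hm
    · exact (tendsto_euclid.1 hwv) ⟨m, hm⟩
    · exact tendsto_const_nhds

end Limit

end Pool.Agent.H353R3.Fl
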