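import Pool.Agent.H353R3.Fl3

/-!
# General position
-/

open Filter Topology Module MvPolynomial

namespace Pool.Agent.H353R3.Fl

section Density

/-- The locus where a polynomial does not vanish is dense, if it is not empty. -/
theorem dense_ne_zero {α β : Type*} [Fintype α] [Fintype β] (P : MvPolynomial (α × β) ℂ)
    (q : α → β → ℂ) (hq : eval (fun x => q x.1 x.2) P ≠ 0) :
    Dense {p : α → β → ℂ | eval (fun x => p x.1 x.2) P ≠ 0} := by
  intro p
  let Q : Polynomial ℂ := aeval (fun x : α × β =>
    Polynomial.C (p x.1 x.2) + Polynomial.X * Polynomial.C (q x.1 x.2 - p x.1 x.2)) P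
  have hQ : ∀ t : ℂ, Q.eval t = eval (fun x => (p + t • (q - p)) x.1 x.2) P := by
    intro t
    have h1 : (Polynomial.evalRingHom t).comp (aeval (fun x : α × β =>
        Polynomial.C (p x.1 x.2) + Polynomial.X * Polynomial.C (q x.1 x.2 - p x.1 x.2)) :
          MvPolynomial (α × β) ℂ →ₐ[ℂ] Polynomial ℂ).toRingHom
        = eval (fun x => (p + t • (q - p)) x.1 x.2) := by
      apply MvPolynomial.ringHom_ext
      · intro c
        simp
      · intro x
        simp
    exact RingHom.congr_fun h1 P
  have hQ0 : Q ≠ 0 := by
    intro h0
    apply hq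
    have := hQ 1
    rw [h0, Polynomial.eval_zero] at this
    rw [this]
    congr 2
    funext x
    simp
  have hdense : Dense {t : ℂ | Q.eval t ≠ 0} := by
    have hfin : {t : ℂ | Q.eval t = 0}.Finite := by
      refine (Q.roots.toFinset.finite_toSet).subset ?_
      intro t ht
      simp only [Finset.mem_coe, Multiset.mem_toFinset]
      rw [Polynomial.mem_roots hQ0]
      exact ht
    exact hfin.countable.dense_compl ℂ
  have hcont : Continuous fun t : ℂ => p + t • (q - p) := by fun_prop
  have h0 : (0 : ℂ) ∈ closure {t : ℂ | Q.eval t ≠ 0} := hdense 0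
  have h1 := image_closure_subset_closure_image hcont (s := {t : ℂ | Q.eval t ≠ 0}) ⟨0, h0, rfl⟩
  simp only [zero_smul, add_zero] at h1
  refine closure_mono ?_ h1
  rintro _ ⟨t, ht, rfl⟩
  change eval (fun x => (p + t • (q - p)) x.1 x.2) P ≠ 0
  rw [← hQ]
  exact ht

/-- Linearly independent functions have a non-vanishing determinant of values. -/
theorem exists_points {s : ℕ} {T : Type*} (f : Fin s → T → ℂ)
    (hf : ∀ c : Fin s → ℂ, (∀ t, ∑ j, c j * f j t = 0) → c = 0) :
    ∃ t : Fin s → T, (Matrix.of fun a b => f b (t a)).det ≠ 0 := by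
  classical
  let F : T → (Fin s → ℂ) := fun t j => f j t
  obtain ⟨κ, a, ha, hspan, hli⟩ := exists_linearIndependent' ℂ F
  have htop : Submodule.span ℂ (Set.range F) = ⊤ := by
    by_contra hne
    obtain ⟨φ, hφ0, hφ⟩ := Submodule.exists_le_ker_of_lt_top _ (lt_top_iff_ne_top.2 hne)
    apply hφ0
    have h1 : (fun j => φ (Pi.single j 1)) = 0 := by
      apply hf
      intro t
      have h2 : φ (F t) = 0 := hφ (Submodule.subset_span ⟨t, rfl⟩)
      rw [LinearMap.pi_apply_eq_sum_univ φ (F t)] at h2
      rw [← h2]
      refine Finset.sum_congr rfl fun j _ => ?_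
      rw [smul_eq_mul, mul_comm]
      congr 2
      funext i
      simp [Pi.single_apply, eq_comm]
    apply LinearMap.pi_ext'
    intro j
    ext
    exact congrFun h1 j
  let b : Module.Basis κ ℂ (Fin s → ℂ) := Module.Basis.mk hli (by rw [hspan, htop])
  have : Fintype κ := FiniteDimensional.fintypeBasisIndex b
  have hcard : Fintype.card κ = Fintype.card (Fin s) := by
    rw [← Module.finrank_eq_card_basis b, Module.finrank_pi]
  let e : κ ≃ Fin s := Fintype.equivOfCardEq hcard
  refine ⟨fun i => a (e.symm i), ?_⟩
  have hli' : LinearIndependent ℂ (fun i : Fin s => F (a (e.symm i))) :=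
    hli.comp e.symm e.symm.injective
  have hu : IsUnit (Matrix.of fun i j : Fin s => F (a (e.symm i)) j) := by
    rw [← Matrix.linearIndependent_rows_iff_isUnit]
    exact hli'
  rw [Matrix.isUnit_iff_isUnit_det] at hu
  exact hu.ne_zero

end Density

section Generic

variable {ι A : Type} [Fintype ι] [AddCommGroup A] (deg : ι → A)

/-- For each degree and each `k` the tuples of points the first `k` of which impose
`min(k, dim S_D)` conditions in degree `D` contain a dense open set. -/
theorem exists_open_dense (D : A) [Fintype (Mon deg D)] {r k : ℕ} (hk : k ≤ r) :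
    ∃ G : Set (Fin r → ι → ℂ), IsOpen G ∧ Dense G ∧ ∀ p ∈ G,
      hilb deg (idealOf deg fun i : Fin k => p (Fin.castLE hk i)) D =
        min k (Fintype.card (Mon deg D)) := by
  classical
  set s := min k (Fintype.card (Mon deg D)) with hs
  have hsk : s ≤ k := min_le_left _ _
  have hsr : s ≤ r := hsk.trans hk
  have hsc : s ≤ Fintype.card (Mon deg D) := min_le_right _ _
  let c : Fin s → Mon deg D := fun j => (Fintype.equivFin (Mon deg D)).symm (Fin.castLE hsc j)
  have hc : Function.Injective c := by
    intro i j hij
    have := (Fintype.equivFin (Mon deg D)).symm.injective hij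
    exact Fin.castLE_injective hsc this
  let P : MvPolynomial (Fin r × ι) ℂ := Matrix.det (Matrix.of fun a b : Fin s =>
    rename (fun i => (Fin.castLE hsr a, i)) (monomial (c b).1 (1 : ℂ)))
  have hP : ∀ p : Fin r → ι → ℂ, eval (fun x => p x.1 x.2) P =
      Matrix.det (Matrix.of fun a b : Fin s =>
        eval (p (Fin.castLE hsr a)) (monomial (c b).1 (1 : ℂ))) := by
    intro p
    rw [RingHom.map_det]
    congr 1
    ext a b
    simp only [RingHom.mapMatrix_apply, Matrix.map_apply, Matrix.of_apply, eval_rename]
    rfl
  refine ⟨{p | eval (fun x => p x.1 x.2) P ≠ 0}, ?_, ?_, ?_⟩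
  · refine isOpen_ne_fun ?_ continuous_const
    exact (MvPolynomial.continuous_eval P).comp (by fun_prop)
  · -- existence of points
    obtain ⟨t, ht⟩ := exists_points (fun (b : Fin s) (x : ι → ℂ) =>
      eval x (monomial (c b).1 (1 : ℂ))) (by
        intro d hd
        have hpoly : (∑ j, C (d j) * monomial (c j).1 (1 : ℂ)) = 0 := by
          apply MvPolynomial.funext
          intro x
          rw [map_sum, map_zero, ← hd x]
          simp only [map_mul, eval_C]
        funext j
        have h1 := congrArg (coeff (c j).1) hpoly
        rw [coeff_sum, Finset.sum_eq_single j] at h1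
        · simpa using h1
        · intro i _ hij
          rw [coeff_C_mul, coeff_monomial, if_neg, mul_zero]
          intro h2
          exact hij (hc (Subtype.ext h2))
        · simp)
    let q : Fin r → ι → ℂ := fun i => if h : i.1 < s then t ⟨i.1, h⟩ else 0
    refine dense_ne_zero P q ?_
    rw [hP]
    have : (Matrix.of fun a b : Fin s =>
        eval (q (Fin.castLE hsr a)) (monomial (c b).1 (1 : ℂ))) =
        Matrix.of fun a b => eval (t a) (monomial (c b).1 (1 : ℂ)) := by
      ext a b
      simp only [Matrix.of_apply]
      congr 2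
      have : (Fin.castLE hsr a).1 < s := a.2
      simp only [q, dif_pos this]
      rfl
    rw [this]
    exact ht
  · intro p hp
    set p' : Fin k → ι → ℂ := fun i => p (Fin.castLE hk i) with hp'
    have hp2 : eval (fun x => p x.1 x.2) P ≠ 0 := hp
    rw [hP] at hp2
    set M := Matrix.of fun a b : Fin s =>
        eval (p (Fin.castLE hsr a)) (monomial (c b).1 (1 : ℂ)) with hM
    have hMu : IsUnit M := by
      rw [Matrix.isUnit_iff_isUnit_det]
      exact isUnit_iff_ne_zero.2 hp2
    rw [← rank_evalVec]
    apply le_antisymm
    · apply le_min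
      · have := Submodule.finrank_le (LinearMap.range (evalVec deg D p'))
        simpa using this
      · have := LinearMap.finrank_range_le (evalVec deg D p')
        simpa using this
    · -- projection to the first `s` coordinates is surjective on the range
      let pr : (Fin k → ℂ) →ₗ[ℂ] (Fin s → ℂ) := LinearMap.funLeft ℂ ℂ (Fin.castLE hsk)
      have hmap : Submodule.map pr (LinearMap.range (evalVec deg D p')) = ⊤ := by
        rw [eq_top_iff]
        intro y _
        obtain ⟨x, hx⟩ := (Matrix.mulVec_surjective_iff_isUnit.2 hMu) y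
        let v : EuclideanSpace ℂ (Mon deg D) := ∑ b, x b • EuclideanSpace.single (c b) (1 : ℂ)
        refine ⟨evalVec deg D p' v, ⟨v, rfl⟩, ?_⟩
        rw [← hx]
        funext a
        change evalVec deg D p' v (Fin.castLE hsk a) = _
        rw [evalVec_apply']
        have hv : ∀ m, v m = ∑ b, x b * (if m = c b then (1 : ℂ) else 0) := by
          intro m
          simp only [v]
          rw [WithLp.ofLp_sum, Finset.sum_apply]
          refine Finset.sum_congr rfl fun b _ => ?_
          simp
        simp only [hv, Finset.sum_mul]
        rw [Finset.sum_comm]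
        rw [Matrix.mulVec, dotProduct]
        refine Finset.sum_congr rfl fun b _ => ?_
        rw [Finset.sum_eq_single (c b)]
        · rw [if_pos rfl, mul_one, mul_comm]
          rfl
        · intro m _ hm
          rw [if_neg hm]; simp
        · simp
      have h1 := Submodule.finrank_map_le pr (LinearMap.range (evalVec deg D p'))
      rw [hmap] at h1
      simpa using h1

end Generic

end Pool.Agent.H353R3.Fl
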