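import Pool.Agent.H353R3.Fl4

/-!
# The flag condition
-/

open Filter Topology Module MvPolynomial

namespace Pool.Agent.H353R3.Fl

section Main

variable {ι A : Type} [Fintype ι] [AddCommGroup A] (deg : ι → A)

/-- Every tuple of points of an open set is a limit of tuples in general position. -/
theorem exists_good [Countable A] (fin : ∀ D : A, Finite (Mon deg D)) {U : Set (ι → ℂ)}
    (hU : IsOpen U) {r : ℕ} (p : Fin r → ι → ℂ) (hp : ∀ i, p i ∈ U)
    {O : Set (Fin r → ι → ℂ)} (hO : O ∈ 𝓝 p) :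
    ∃ q ∈ O, (∀ i, q i ∈ U) ∧ ∀ (k : ℕ) (hk : k ≤ r) (D : A),
      hilb deg (idealOf deg fun i : Fin k => q (Fin.castLE hk i)) D = genHilb deg k D := by
  have fin' : ∀ D : A, Fintype (Mon deg D) := fun D => Fintype.ofFinite _
  choose G hGo hGd hG using fun (x : A × Fin (r + 1)) =>
    exists_open_dense deg x.1 (r := r) (k := x.2.1) (Nat.lt_succ_iff.1 x.2.2)
  have hd : Dense (⋂ x, G x) := dense_iInter_of_isOpen hGo hGd
  have hO' : O ∩ {q | ∀ i, q i ∈ U} ∈ 𝓝 p := by
    refine inter_mem hO ?_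
    refine IsOpen.mem_nhds ?_ hp
    simp only [Set.ofPred_forall]
    exact isOpen_iInter_of_finite fun i => hU.preimage (continuous_apply i)
  obtain ⟨q, hq1, hq2⟩ := hd.inter_nhds_nonempty hO'
  refine ⟨q, hq2.1, hq2.2, fun k hk D => ?_⟩
  have := hG (D, ⟨k, Nat.lt_succ_iff.2 hk⟩) q (Set.mem_iInter.1 hq1 _)
  rw [genHilb, finrank_degree]
  exact this

/-- Homogeneous coordinates of the same point: proportional values in each degree. -/
theorem SamePoint.eval {p q : ι → ℂ} (h : SamePoint deg p q) (D : A) :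
    ∃ c : ℂ, ∀ f : MvPolynomial ι ℂ, IsWeightedHomogeneous deg f D →
      eval q f = c * eval p f := by
  obtain ⟨χ, hχ⟩ := h
  refine ⟨(χ (Multiplicative.ofAdd D) : ℂ), fun f hf => ?_⟩
  rw [MvPolynomial.eval_eq, MvPolynomial.eval_eq, Finset.mul_sum]
  refine Finset.sum_congr rfl fun m hm => ?_
  have hm' : Finsupp.weight deg m = D := hf (mem_support_iff.1 hm)
  have h1 : ∏ i ∈ m.support, q i ^ m i = (χ (Multiplicative.ofAdd D) : ℂ) *
      ∏ i ∈ m.support, p i ^ m i := by
    have h2 : (χ (Multiplicative.ofAdd D) : ℂ) =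
        ∏ i ∈ m.support, (χ (Multiplicative.ofAdd (deg i)) : ℂ) ^ m i := by
      rw [← hm', Finsupp.weight_apply, Finsupp.sum, ofAdd_sum, map_prod, Units.coe_prod]
      refine Finset.prod_congr rfl fun i _ => ?_
      rw [ofAdd_nsmul, map_pow, Units.val_pow_eq_pow_val]
    rw [h2, ← Finset.prod_mul_distrib]
    refine Finset.prod_congr rfl fun i _ => ?_
    rw [hχ, mul_pow]
  rw [h1]
  ring

/-- Points imposing independent conditions in some degree are distinct. -/
theorem not_samePoint {k : ℕ} (q : Fin k → ι → ℂ) (D : A) [Fintype (Mon deg D)]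
    (h : hilb deg (idealOf deg q) D = k) (i j : Fin k) (hij : i ≠ j) :
    ¬ SamePoint deg (q i) (q j) := by
  intro hs
  obtain ⟨c, hc⟩ := hs.eval deg D
  rw [← rank_evalVec] at h
  have hsurj : Function.Surjective (evalVec deg D q) := by
    rw [← LinearMap.range_eq_top]
    apply Submodule.eq_top_of_finrank_eq
    rw [h]; simp
  obtain ⟨v, hv⟩ := hsurj (Pi.single j 1)
  have h1 : evalVec deg D q v j = c * evalVec deg D q v i := by
    rw [evalVec_apply, evalVec_apply]
    exact hc _ (ofVec_homog deg D v)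
  rw [hv] at h1
  simp [hij] at h1

theorem flag [Countable A] (fin : ∀ D : A, Finite (Mon deg D)) {U : Set (ι → ℂ)}
    (hU : IsOpen U) {r : ℕ} (hr : 1 ≤ r)
    (hbig : ∃ D : A, r ≤ finrank ℂ (weightedHomogeneousSubmodule ℂ deg D))
    (I : Ideal (MvPolynomial ι ℂ)) (hI : I ∈ slip deg U r) :
    ∃ J : ℕ → Ideal (MvPolynomial ι ℂ), J r = I ∧ J 0 = ⊤ ∧ (∀ k < r, J (k + 1) ≤ J k) ∧
      ∀ k ≤ r, J k ∈ slip deg U k := by
  classical
  have fin' : ∀ D : A, Fintype (Mon deg D) := fun D => Fintype.ofFinite _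
  obtain ⟨enum, henum⟩ := exists_surjective_nat A
  obtain ⟨hIh, hIf, J₀, hJ₀, hconv⟩ := hI
  choose p hpU hpd hpJ hpf using hJ₀
  -- nearby points in general position
  have hex : ∀ n : ℕ, ∃ q : Fin r → ι → ℂ, (∀ j ≤ n,
      ∀ v ∈ idealVec deg (enum j) (idealOf deg (p n)),
        ∃ w ∈ idealVec deg (enum j) (idealOf deg q), ‖v - w‖ ≤ (1 / ((n : ℝ) + 1)) * ‖v‖) ∧
      (∀ i, q i ∈ U) ∧ ∀ (k : ℕ) (hk : k ≤ r) (D : A),
      hilb deg (idealOf deg fun i : Fin k => q (Fin.castLE hk i)) D = genHilb deg k D := by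
    intro n
    have hO : {q : Fin r → ι → ℂ | ∀ j ∈ Finset.range (n + 1),
        ∀ v ∈ idealVec deg (enum j) (idealOf deg (p n)),
        ∃ w ∈ idealVec deg (enum j) (idealOf deg q), ‖v - w‖ ≤ (1 / ((n : ℝ) + 1)) * ‖v‖}
        ∈ 𝓝 (p n) := by
      have : ∀ᶠ q in 𝓝 (p n), ∀ j ∈ Finset.range (n + 1),
          ∀ v ∈ idealVec deg (enum j) (idealOf deg (p n)),
          ∃ w ∈ idealVec deg (enum j) (idealOf deg q),
            ‖v - w‖ ≤ (1 / ((n : ℝ) + 1)) * ‖v‖ := by
        rw [Filter.eventually_all_finset]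
        intro j _
        apply close_idealOf deg (enum j) (p n)
        · have := hpf n (enum j)
          rw [hpJ n, genHilb, finrank_degree] at this
          exact this
        · positivity
      exact this
    obtain ⟨q, hq, hqU, hqk⟩ := exists_good deg fin hU (p n) (hpU n) hO
    exact ⟨q, fun j hj => hq j (Finset.mem_range.2 (by omega)), hqU, hqk⟩
  choose q hqc hqU hqk using hex
  let 𝒰 : Ultrafilter ℕ := Filter.hyperfilter ℕ
  have h𝒰 : (𝒰 : Filter ℕ) ≤ atTop := by
    rw [← Nat.cofinite_eq_atTop]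
    exact Filter.hyperfilter_le_cofinite
  let K : (k : ℕ) → k ≤ r → ℕ → Ideal (MvPolynomial ι ℂ) := fun k hk n =>
    idealOf deg fun i : Fin k => q n (Fin.castLE hk i)
  have hKh : ∀ k hk n, IsHomog deg (K k hk n) := fun k hk n => idealOf_homog deg _
  have hKf : ∀ k hk n D, hilb deg (K k hk n) D = genHilb deg k D := fun k hk n D => hqk n k hk D
  -- the limit ideals are in the Slip varieties
  obtain ⟨D₀, hD₀⟩ := hbig
  have hslip : ∀ k hk, limIdeal 𝒰 (K k hk) ∈ slip deg U k := by
    intro k hk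
    obtain ⟨φ, hφ⟩ := exists_seq deg fin 𝒰 (hKh k hk) (genHilb deg k) (hKf k hk)
    refine ⟨limIdeal_homog deg 𝒰 (hKh k hk), fun D => hilb_limIdeal deg D 𝒰 (hKh k hk) _
      (fun n => hKf k hk n D), fun n => K k hk (φ n), fun n => ?_, hφ⟩
    refine ⟨fun i => q (φ n) (Fin.castLE hk i), fun i => hqU _ _, ?_, rfl, hKf k hk _⟩
    apply not_samePoint deg _ D₀
    rw [hqk, genHilb, min_eq_left (hk.trans hD₀)]
  -- `I` is contained in the limit of the ideals of the `q n`
  have hIle : I ≤ limIdeal 𝒰 (K r le_rfl) := by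
    have hhom : ∀ D, ∀ f ∈ I, IsWeightedHomogeneous deg f D →
        f ∈ limIdeal 𝒰 (K r le_rfl) := by
      intro D f hf hfD
      obtain ⟨j, rfl⟩ := henum D
      obtain ⟨g, hg, hgf⟩ := hconv (enum j) f hf hfD
      set v : ℕ → EuclideanSpace ℂ (Mon deg (enum j)) := fun n => toVec deg (enum j) (g n) with hv
      have hvI : ∀ n, v n ∈ idealVec deg (enum j) (idealOf deg (p n)) := by
        intro n
        rw [mem_idealVec, hv]
        simp only [ofVec_toVec]
        rw [component_of_homog deg (hg n).2, ← hpJ n]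
        exact (hg n).1
      have hw : ∀ n : ℕ, ∃ w ∈ idealVec deg (enum j) (K r le_rfl n), j ≤ n →
          ‖v n - w‖ ≤ (1 / ((n : ℝ) + 1)) * ‖v n‖ := by
        intro n
        by_cases hjn : j ≤ n
        · obtain ⟨w, hw, hw'⟩ := hqc n j hjn (v n) (hvI n)
          exact ⟨w, hw, fun _ => hw'⟩
        · exact ⟨0, Submodule.zero_mem _, fun h => absurd h hjn⟩
      choose w hw hw' using hw
      have hvt : Tendsto v atTop (𝓝 (toVec deg (enum j) f)) := by
        rw [tendsto_euclid]
        intro m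
        exact hgf m.1
      have hwt : Tendsto w atTop (𝓝 (toVec deg (enum j) f)) := by
        have h1 : Tendsto (fun n => v n - w n) atTop (𝓝 0) := by
          rw [tendsto_zero_iff_norm_tendsto_zero]
          have h0 : Tendsto (fun n : ℕ => (1 / ((n : ℝ) + 1)) * ‖v n‖) atTop (𝓝 0) := by
            have := (tendsto_one_div_add_atTop_nhds_zero_nat (𝕜 := ℝ)).mul hvt.norm
            simpa using this
          refine squeeze_zero' (Eventually.of_forall fun _ => norm_nonneg _) ?_ h0
          filter_upwards [eventually_ge_atTop j] with n hn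
          exact hw' n hn
        have h2 := hvt.sub h1
        simpa using h2
      refine ⟨fun n => ofVec deg (enum j) (w n), fun n => hw n, fun m => ?_⟩
      have hff : f = ofVec deg (enum j) (toVec deg (enum j) f) := by
        rw [ofVec_toVec]; exact (component_of_homog deg hfD).symm
      rw [hff]
      simp only [coeff_ofVec]
      split_ifs with hm
      · exact ((tendsto_euclid.1 hwt) ⟨m, hm⟩).mono_left h𝒰
      · exact tendsto_const_nhds
    intro f hf
    rw [← sum_weightedHomogeneousComponent deg f, finsum_eq_sum _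
      (weightedHomogeneousComponent_finsupp f)]
    refine Ideal.sum_mem _ fun D _ => ?_
    exact hhom D _ (hIh f hf D) (weightedHomogeneousComponent_isWeightedHomogeneous D f)
  -- the chain
  have hmono : ∀ k (hk : k + 1 ≤ r), limIdeal 𝒰 (K (k + 1) hk) ≤
      limIdeal 𝒰 (K k (Nat.le_of_succ_le hk)) := by
    intro k hk
    apply limIdeal_mono
    intro n
    refine Ideal.span_le.2 ?_
    rintro f ⟨hf, hf'⟩
    exact Ideal.subset_span ⟨hf, fun i => hf' (Fin.castLE (Nat.le_succ k) i)⟩
  refine ⟨fun k => if k = r then I else if hk : k ≤ r then limIdeal 𝒰 (K k hk) else ⊤,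
    if_pos rfl, ?_, ?_, ?_⟩
  · have h0 : (0 : ℕ) ≠ r := by omega
    simp only [if_neg h0, dif_pos (Nat.zero_le r)]
    rw [Ideal.eq_top_iff_one]
    refine ⟨fun _ => 1, fun n => ?_, fun m => tendsto_const_nhds⟩
    exact Ideal.subset_span ⟨⟨0, isWeightedHomogeneous_one ℂ deg⟩, fun i => i.elim0⟩
  · intro k hk
    have hkr : k ≠ r := hk.ne
    simp only [if_neg hkr, dif_pos hk.le]
    by_cases h : k + 1 = r
    · rw [if_pos h]
      subst h
      exact hIle.trans (hmono k le_rfl)
    · rw [if_neg h, dif_pos (show k + 1 ≤ r by omega)]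
      exact hmono k (by omega)
  · intro k hk
    by_cases h : k = r
    · subst h
      simp only [if_true]
      exact ⟨hIh, hIf, J₀, fun n => ⟨p n, hpU n, hpd n, hpJ n, hpf n⟩, hconv⟩
    · simp only [if_neg h, dif_pos hk]
      exact hslip k hk

end Main

end Pool.Agent.H353R3.Fl
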