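import Mathlib
import Pool.Agent.Helper449.MST.Defs

/-!
# The completed Grothendieck ring of varieties

`K` is an algebraic closure of `𝔽₃`. We define `K₀(Var_K)` by generators and relations, invert
`L = [𝔸¹]`, and define the dimension filtration.
-/

open MvPolynomial
open Pool.Agent.Helper449.MST (K Constr RegularOn Isom constr_univ)

namespace Pool.Agent.H353R3.Mot

/-- A constructible subset of an affine space `K^n`. -/
structure Cs where
  n : ℕ
  S : Set (Fin n → K)
  constr : Constr S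

/-- The product `S × T ⊆ K^{n+m}`. -/
def prodSet {n m : ℕ} (S : Set (Fin n → K)) (T : Set (Fin m → K)) : Set (Fin (n + m) → K) :=
  {z | (fun i => z (Fin.castAdd m i)) ∈ S ∧ (fun i => z (Fin.natAdd n i)) ∈ T}

/-- The relations of the Grothendieck ring: `[S ∪ T] = [S] + [T]` for disjoint `S`, `T`,
`[S] = [T]` for isomorphic `S`, `T`, `[S × T] = [S] [T]`, and `[K^0] = 1`. -/
inductive Rel : MvPolynomial Cs ℤ → Prop
  | scissors {n : ℕ} {S T : Set (Fin n → K)} (hS : Constr S) (hT : Constr T)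
      (hU : Constr (S ∪ T)) (h : Disjoint S T) :
      Rel (X ⟨n, S ∪ T, hU⟩ - (X ⟨n, S, hS⟩ + X ⟨n, T, hT⟩))
  | iso {n m : ℕ} {S : Set (Fin n → K)} {T : Set (Fin m → K)} (hS : Constr S) (hT : Constr T)
      (h : Isom S T) : Rel (X ⟨n, S, hS⟩ - X ⟨m, T, hT⟩)
  | prod {n m : ℕ} {S : Set (Fin n → K)} {T : Set (Fin m → K)} (hS : Constr S) (hT : Constr T)
      (hP : Constr (prodSet S T)) :
      Rel (X ⟨n + m, prodSet S T, hP⟩ - X ⟨n, S, hS⟩ * X ⟨m, T, hT⟩)
  | one (h : Constr (Set.univ : Set (Fin 0 → K))) : Rel (X ⟨0, Set.univ, h⟩ - 1)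

/-- The Grothendieck ring `K₀(Var_K)`. -/
def K0 : Type := MvPolynomial Cs ℤ ⧸ Ideal.span {x | Rel x}

noncomputable instance instK0 : CommRing K0 :=
  (inferInstance : CommRing (MvPolynomial Cs ℤ ⧸ Ideal.span {x | Rel x}))

/-- The quotient map. -/
noncomputable def mkK : MvPolynomial Cs ℤ →+* K0 := Ideal.Quotient.mk (Ideal.span {x | Rel x})

/-- The class of a constructible set in `K₀(Var_K)`. -/
noncomputable def cls0 (v : Cs) : K0 := mkK (X v)

/-- The affine space `K^n`. -/
def aff (n : ℕ) : Cs := ⟨n, Set.univ, constr_univ n⟩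

/-- The ring `K₀(Var_K)[L⁻¹]`, where `L` is the class of the affine line. -/
def ML : Type := Localization.Away (cls0 (aff 1))

noncomputable instance instML : CommRing ML :=
  (inferInstance : CommRing (Localization.Away (cls0 (aff 1))))

/-- The canonical map `K₀(Var_K) → K₀(Var_K)[L⁻¹]`. -/
noncomputable def toML : K0 →+* ML := algebraMap K0 (Localization.Away (cls0 (aff 1)))

theorem isUnit_L : IsUnit (toML (cls0 (aff 1))) :=
  IsLocalization.map_units (Localization.Away (cls0 (aff 1)))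
    (⟨cls0 (aff 1), Submonoid.mem_powers _⟩ : Submonoid.powers (cls0 (aff 1)))

/-- The unit `L` of `K₀(Var_K)[L⁻¹]`. -/
noncomputable def Lu : MLˣ := isUnit_L.unit

/-- `dim S ≤ D`, where `dim S` is the Krull dimension of the coordinate ring of the Zariski closure
of `S`. -/
def DimLe {n : ℕ} (S : Set (Fin n → K)) (D : ℕ) : Prop :=
  ringKrullDim (MvPolynomial (Fin n) K ⧸ vanishingIdeal K S) ≤ (D : WithBot ℕ∞)

/-- The step `F_m` of the dimension filtration: the subgroup generated by the `[S] L^{-p}` with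
`dim S - p ≤ -m`. -/
noncomputable def Fil (m : ℤ) : AddSubgroup ML :=
  AddSubgroup.closure {x | ∃ (v : Cs) (D : ℕ) (p : ℤ), DimLe v.S D ∧ (D : ℤ) - p ≤ -m ∧
    x = toML (cls0 v) * ((Lu ^ (-p) : MLˣ) : ML)}

end Pool.Agent.H353R3.Mot
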