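import Pool.Agent.H353R3.Mot2

/-!
# The completed Grothendieck ring: filtration and topology
-/

open MvPolynomial
open Pool.Agent.Helper449.MST (K Constr RegularOn Isom constr_univ)

namespace Pool.Agent.H353R3.Mot

theorem mkK_rel {x : MvPolynomial Cs ℤ} (h : Rel x) : mkK x = 0 :=
  Ideal.Quotient.eq_zero_iff_mem.2 (Ideal.subset_span h)

theorem mkK_surjective : Function.Surjective mkK := Ideal.Quotient.mk_surjective

theorem cls0_prod (v w : Cs) :
    cls0 ⟨v.n + w.n, prodSet v.S w.S, constr_prod v.constr w.constr⟩ = cls0 v * cls0 w := by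
  have h := Rel.prod v.constr w.constr (constr_prod v.constr w.constr)
  have h2 := mkK_rel h
  rw [map_sub, sub_eq_zero, map_mul] at h2
  exact h2

theorem cls0_one : cls0 (aff 0) = 1 := by
  have h := Rel.one (constr_univ 0)
  have h2 := mkK_rel h
  rw [map_sub, sub_eq_zero, map_one] at h2
  exact h2

theorem cls0_empty (n : ℕ) (h : Constr (∅ : Set (Fin n → K))) : cls0 ⟨n, ∅, h⟩ = 0 := by
  have hU : Constr ((∅ : Set (Fin n → K)) ∪ ∅) := by rw [Set.union_empty]; exact h
  have h1 := Rel.scissors h h hU (Set.disjoint_empty _)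
  have h2 := mkK_rel h1
  rw [map_sub, sub_eq_zero, map_add] at h2
  have h3 : (⟨n, ∅ ∪ ∅, hU⟩ : Cs) = ⟨n, ∅, h⟩ := by
    congr 1
    exact Set.union_empty _
  rw [h3] at h2
  exact (left_eq_add.1 h2)

theorem cls0_aff (n : ℕ) : cls0 (aff n) = cls0 (aff 1) ^ n := by
  induction n with
  | zero => rw [cls0_one, pow_zero]
  | succ n ih =>
    rw [pow_succ, ← ih, ← cls0_prod]
    congr 1
    unfold aff prodSet
    congr 1
    ext z
    simp

theorem val_Lu : (Lu : ML) = toML (cls0 (aff 1)) := IsUnit.unit_spec _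

theorem Fil_anti {m m' : ℤ} (h : m ≤ m') : Fil m' ≤ Fil m := by
  refine AddSubgroup.closure_mono ?_
  rintro x ⟨v, D, p, hv, hD, rfl⟩
  exact ⟨v, D, p, hv, by omega, rfl⟩

theorem Fil_mul {m m' : ℤ} {x y : ML} (hx : x ∈ Fil m) (hy : y ∈ Fil m') :
    x * y ∈ Fil (m + m') := by
  induction hx using AddSubgroup.closure_induction with
  | mem x hx =>
    induction hy using AddSubgroup.closure_induction with
    | mem y hy =>
      obtain ⟨v, D, p, hv, hD, rfl⟩ := hx
      obtain ⟨w, E, p', hw, hE, rfl⟩ := hy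
      refine AddSubgroup.subset_closure ⟨⟨v.n + w.n, prodSet v.S w.S,
        constr_prod v.constr w.constr⟩, D + E, p + p', hv.prod hw, by push_cast; omega, ?_⟩
      rw [cls0_prod, map_mul, neg_add, zpow_add, Units.val_mul]
      ring
    | zero => rw [mul_zero]; exact zero_mem _
    | add y z _ _ h1 h2 => rw [mul_add]; exact add_mem h1 h2
    | neg y _ h1 => rw [mul_neg]; exact neg_mem h1
  | zero => rw [zero_mul]; exact zero_mem _
  | add y z _ _ h1 h2 => rw [add_mul]; exact add_mem h1 h2
  | neg y _ h1 => rw [neg_mul]; exact neg_mem h1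

theorem zpow_mem (p : ℤ) : ((Lu ^ (-p) : MLˣ) : ML) ∈ Fil p := by
  refine AddSubgroup.subset_closure ⟨aff 0, 0, p, ?_, by simp, ?_⟩
  · exact dimLe_univ 0
  · rw [cls0_one, map_one, one_mul]

theorem one_mem_Fil : (1 : ML) ∈ Fil 0 := by
  have := zpow_mem 0
  simpa using this

theorem exists_Fil (x : ML) : ∃ m, x ∈ Fil m := by
  obtain ⟨⟨a, b⟩, h⟩ := IsLocalization.surj (M := Submonoid.powers (cls0 (aff 1)))
    (S := Localization.Away (cls0 (aff 1))) x
  obtain ⟨k, hk⟩ := b.2
  have h1 : x * (Lu : ML) ^ k = toML a := by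
    rw [val_Lu, ← map_pow]
    have : toML (cls0 (aff 1) ^ k) = algebraMap K0 (Localization.Away (cls0 (aff 1))) b := by
      rw [← hk]; rfl
    rw [this]
    exact h
  have h2 : x = toML a * ((Lu ^ (-(k : ℤ)) : MLˣ) : ML) := by
    rw [← h1, mul_assoc, ← Units.val_pow_eq_pow_val, ← Units.val_mul, ← zpow_natCast, ← zpow_add]
    simp
  have h3 : ∀ a : K0, ∃ m, toML a ∈ Fil m := by
    intro a
    obtain ⟨P, rfl⟩ := mkK_surjective a
    induction P using MvPolynomial.induction_on with
    | C a =>
      refine ⟨0, ?_⟩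
      have : toML (mkK (C a)) = a • (1 : ML) := by
        have h4 : (C a : MvPolynomial Cs ℤ) = (a : MvPolynomial Cs ℤ) := by simp
        rw [h4, map_intCast, map_intCast, zsmul_eq_mul, mul_one]
      rw [this]
      exact AddSubgroup.zsmul_mem _ one_mem_Fil a
    | add p q hp hq =>
      obtain ⟨m1, h1⟩ := hp
      obtain ⟨m2, h2⟩ := hq
      refine ⟨min m1 m2, ?_⟩
      rw [map_add, map_add]
      exact add_mem (Fil_anti (min_le_left _ _) h1) (Fil_anti (min_le_right _ _) h2)
    | mul_X p i hp =>
      obtain ⟨m1, h1⟩ := hp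
      refine ⟨m1 + (-(i.n : ℤ)), ?_⟩
      rw [map_mul, map_mul]
      refine Fil_mul h1 ?_
      refine AddSubgroup.subset_closure ⟨i, i.n, 0, ?_, by simp, by
        rw [neg_zero, zpow_zero, Units.val_one, mul_one]; rfl⟩
      unfold DimLe
      refine le_trans (ringKrullDim_quotient_le _) ?_
      rw [MvPolynomial.ringKrullDim_of_isNoetherianRing, ringKrullDim_eq_zero_of_field]
      simp
  obtain ⟨m, hm⟩ := h3 a
  exact ⟨m + k, h2 ▸ Fil_mul hm (zpow_mem k)⟩

theorem basis : RingSubgroupsBasis Fil := by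
  refine RingSubgroupsBasis.of_comm _ ?_ ?_ ?_
  · intro i j
    exact ⟨max i j, le_inf (Fil_anti (le_max_left _ _)) (Fil_anti (le_max_right _ _))⟩
  · intro i
    refine ⟨|i|, ?_⟩
    rintro _ ⟨x, hx, y, hy, rfl⟩
    refine Fil_anti ?_ (Fil_mul hx hy)
    have := le_abs_self i
    have := abs_nonneg i
    linarith
  · intro x i
    obtain ⟨m, hm⟩ := exists_Fil x
    refine ⟨i - m, ?_⟩
    intro y hy
    have := Fil_mul hm hy
    rw [add_sub_cancel] at this
    exact this

/-- The topology of the dimension filtration. -/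
noncomputable instance : TopologicalSpace ML := basis.topology

noncomputable instance : NonarchimedeanRing ML := basis.nonarchimedean

noncomputable instance : UniformSpace ML := IsTopologicalAddGroup.rightUniformSpace ML

instance : IsUniformAddGroup ML := isUniformAddGroup_of_addCommGroup

/-- The completed Grothendieck ring. -/
abbrev Mhat : Type := UniformSpace.Completion ML

noncomputable example : CommRing Mhat := inferInstance
noncomputable example : IsTopologicalRing Mhat := inferInstance
noncomputable example : NonarchimedeanRing Mhat := inferInstance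

end Pool.Agent.H353R3.Mot
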