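import Pool.Agent.H353R3.Mot3

/-!
# Counting points
-/

open MvPolynomial Filter Topology
open Pool.Agent.Helper449.MST (K Constr RegularOn Isom constr_univ cnt cnt_growth cnt_univ cnt_iso
  cnt_union pts pts_finite q)

namespace Pool.Agent.H353R3.Mot

theorem cnt_prod {n m : ℕ} (j : ℕ) (S : Set (Fin n → K)) (T : Set (Fin m → K)) :
    cnt j (prodSet S T) = cnt j S * cnt j T := by
  unfold cnt
  have himg : pts j (prodSet S T) = (fun p : (Fin n → K) × (Fin m → K) => Fin.append p.1 p.2) ''
      (pts j S ×ˢ pts j T) := by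
    ext x
    constructor
    · rintro ⟨⟨hx1, hx2⟩, hx3⟩
      refine ⟨(fun i => x (Fin.castAdd m i), fun i => x (Fin.natAdd n i)),
        ⟨⟨hx1, fun i => hx3 _⟩, ⟨hx2, fun i => hx3 _⟩⟩, ?_⟩
      funext i
      refine Fin.addCases (fun i => ?_) (fun i => ?_) i
      · simp
      · simp
    · rintro ⟨⟨u, w⟩, ⟨⟨hu1, hu2⟩, ⟨hw1, hw2⟩⟩, rfl⟩
      refine ⟨⟨?_, ?_⟩, ?_⟩
      · simpa using hu1
      · simpa using hw1
      · intro i
        refine Fin.addCases (fun i => ?_) (fun i => ?_) i
        · simpa using hu2 i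
        · simpa using hw2 i
  rw [himg, Set.ncard_image_of_injective, Set.ncard_prod]
  rintro ⟨u, w⟩ ⟨u', w'⟩ h
  have h' : Fin.append u w = Fin.append u' w' := h
  refine Prod.ext ?_ ?_
  · funext i
    have := congrFun h' (Fin.castAdd m i)
    simpa using this
  · funext i
    have := congrFun h' (Fin.natAdd n i)
    simpa using this

/-- The ring of germs at infinity of real sequences. -/
abbrev G : Type := Germ (atTop : Filter ℕ) ℝ

/-- The germ of the number of points of `S` over the field with `q_j` elements. -/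
noncomputable def cg (v : Cs) : G := ((fun j => (cnt j v.S : ℝ) : ℕ → ℝ) : G)

noncomputable def real0 : MvPolynomial Cs ℤ →+* G := eval₂Hom (Int.castRingHom G) cg

theorem real0_rel {x : MvPolynomial Cs ℤ} (h : Rel x) : real0 x = 0 := by
  cases h with
  | scissors hS hT hU h =>
    rw [map_sub, map_add, sub_eq_zero]
    simp only [real0, coe_eval₂Hom, eval₂_X]
    unfold cg
    rw [← Germ.coe_add]
    refine Germ.coe_eq.2 (Eventually.of_forall fun j => ?_)
    simp only [Pi.add_apply]
    rw [cnt_union j _ _ h]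
    push_cast
    rfl
  | iso hS hT h =>
    rw [map_sub, sub_eq_zero]
    simp only [real0, coe_eval₂Hom, eval₂_X]
    unfold cg
    obtain ⟨j₀, hj⟩ := cnt_iso _ _ h
    refine Germ.coe_eq.2 ?_
    filter_upwards [eventually_ge_atTop j₀] with j hj'
    rw [hj j hj']
  | prod hS hT hP =>
    rw [map_sub, map_mul, sub_eq_zero]
    simp only [real0, coe_eval₂Hom, eval₂_X]
    unfold cg
    rw [← Germ.coe_mul]
    refine Germ.coe_eq.2 (Eventually.of_forall fun j => ?_)
    simp only [Pi.mul_apply]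
    rw [cnt_prod]
    push_cast
    rfl
  | one h =>
    rw [map_sub, map_one, sub_eq_zero]
    simp only [real0, coe_eval₂Hom, eval₂_X]
    unfold cg
    rw [← Germ.coe_one]
    refine Germ.coe_eq.2 (Eventually.of_forall fun j => ?_)
    simp only [Pi.one_apply]
    rw [cnt_univ, pow_zero, Nat.cast_one]

noncomputable def real1 : K0 →+* G := Ideal.Quotient.lift _ real0 (by
  intro a ha
  have : Ideal.span {x | Rel x} ≤ RingHom.ker real0 := by
    rw [Ideal.span_le]
    intro x hx
    exact real0_rel hx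
  exact this ha)

theorem real1_cls0 (v : Cs) : real1 (cls0 v) = cg v := by
  change real0 (X v) = cg v
  simp [real0]

/-- `q_j` as a real germ. -/
noncomputable def qg : G := ((fun j => (q j : ℝ) : ℕ → ℝ) : G)

theorem q_pos (j : ℕ) : (0 : ℝ) < q j := by
  unfold q; positivity

noncomputable def qu : Gˣ where
  val := qg
  inv := ((fun j => (q j : ℝ)⁻¹ : ℕ → ℝ) : G)
  val_inv := by
    unfold qg
    rw [← Germ.coe_mul, ← Germ.coe_one]
    refine Germ.coe_eq.2 (Eventually.of_forall fun j => ?_)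
    exact mul_inv_cancel₀ (q_pos j).ne'
  inv_val := by
    unfold qg
    rw [← Germ.coe_mul, ← Germ.coe_one]
    refine Germ.coe_eq.2 (Eventually.of_forall fun j => ?_)
    exact inv_mul_cancel₀ (q_pos j).ne'

theorem real1_L : real1 (cls0 (aff 1)) = (qu : G) := by
  rw [real1_cls0]
  unfold cg
  refine Germ.coe_eq.2 (Eventually.of_forall fun j => ?_)
  simp only [aff]
  rw [cnt_univ, pow_one]

noncomputable def real : ML →+* G :=
  IsLocalization.Away.lift (S := Localization.Away (cls0 (aff 1))) (cls0 (aff 1)) (g := real1)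
    (by rw [real1_L]; exact qu.isUnit)

theorem real_toML (x : K0) : real (toML x) = real1 x :=
  IsLocalization.Away.lift_eq (S := Localization.Away (cls0 (aff 1))) (cls0 (aff 1)) _ x

theorem real_Lu (p : ℤ) : real ((Lu ^ p : MLˣ) : ML) = ((qu ^ p : Gˣ) : G) := by
  have h1 : Units.map (real : ML →* G) Lu = qu := by
    ext
    change real (Lu : ML) = _
    rw [val_Lu, real_toML, real1_L]
  rw [← h1, ← map_zpow]
  rfl

theorem coe_qu_zpow (p : ℤ) :
    ((qu ^ p : Gˣ) : G) = ((fun j => (q j : ℝ) ^ p : ℕ → ℝ) : G) := by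
  induction p using Int.induction_on with
  | zero =>
    rw [zpow_zero, Units.val_one, ← Germ.coe_one]
    refine Germ.coe_eq.2 (Eventually.of_forall fun j => ?_)
    simp
  | succ n ih =>
    rw [zpow_add, Units.val_mul, ih, zpow_one]
    change _ * qg = _
    unfold qg
    rw [← Germ.coe_mul]
    refine Germ.coe_eq.2 (Eventually.of_forall fun j => ?_)
    simp only [Pi.mul_apply]
    rw [zpow_add₀ (q_pos j).ne', zpow_one]
  | pred n ih =>
    rw [zpow_sub, Units.val_mul, ih, zpow_one]
    change _ * ((fun j => (q j : ℝ)⁻¹ : ℕ → ℝ) : G) = _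
    rw [← Germ.coe_mul]
    refine Germ.coe_eq.2 (Eventually.of_forall fun j => ?_)
    simp only [Pi.mul_apply]
    rw [zpow_sub₀ (q_pos j).ne', zpow_one]
    rfl

/-- the germs that are `O(q_j^{-m})` -/
noncomputable def BG (m : ℤ) : AddSubgroup G where
  carrier := {g | ∃ f : ℕ → ℝ, g = (f : G) ∧ ∃ C : ℝ, ∀ᶠ j in atTop, |f j| ≤ C * (q j : ℝ) ^ (-m)}
  zero_mem' := ⟨0, by rw [Germ.coe_zero], 0, Eventually.of_forall fun j => by simp⟩
  add_mem' := by
    rintro _ _ ⟨f, rfl, C, hC⟩ ⟨g, rfl, D, hD⟩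
    refine ⟨f + g, by rw [Germ.coe_add], C + D, ?_⟩
    filter_upwards [hC, hD] with j h1 h2
    rw [Pi.add_apply, add_mul]
    exact (abs_add_le _ _).trans (add_le_add h1 h2)
  neg_mem' := by
    rintro _ ⟨f, rfl, C, hC⟩
    refine ⟨-f, by rw [Germ.coe_neg], C, ?_⟩
    filter_upwards [hC] with j h1
    rwa [Pi.neg_apply, abs_neg]

theorem real_Fil (m : ℤ) (x : ML) (hx : x ∈ Fil m) : real x ∈ BG m := by
  induction hx using AddSubgroup.closure_induction with
  | mem x hx =>
    obtain ⟨v, D, p, hv, hD, rfl⟩ := hx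
    rw [map_mul, real_toML, real1_cls0, real_Lu, coe_qu_zpow]
    unfold cg
    rw [← Germ.coe_mul]
    obtain ⟨C, j₀, hC⟩ := cnt_growth v.S D hv
    refine ⟨_, rfl, C, ?_⟩
    filter_upwards [eventually_ge_atTop j₀] with j hj
    have h1 : (cnt j v.S : ℝ) ≤ C * (q j : ℝ) ^ D := by exact_mod_cast hC j hj
    simp only [Pi.mul_apply]
    rw [abs_mul, Nat.abs_cast, abs_of_pos (zpow_pos (q_pos j) _)]
    have hq1 : (1 : ℝ) ≤ q j := by
      have : 1 ≤ q j := Nat.one_le_pow _ _ (by norm_num)
      exact_mod_cast this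
    calc (cnt j v.S : ℝ) * (q j : ℝ) ^ (-p) ≤ (C * (q j : ℝ) ^ D) * (q j : ℝ) ^ (-p) :=
          mul_le_mul_of_nonneg_right h1 (zpow_pos (q_pos j) _).le
      _ = C * (q j : ℝ) ^ ((D : ℤ) - p) := by
          rw [mul_assoc, ← zpow_natCast, ← zpow_add₀ (q_pos j).ne']
          congr 2
      _ ≤ C * (q j : ℝ) ^ (-m) := by
          refine mul_le_mul_of_nonneg_left ?_ (Nat.cast_nonneg C)
          exact zpow_le_zpow_right₀ hq1 hD
  | zero => rw [map_zero]; exact zero_mem _
  | add y z _ _ h1 h2 => rw [map_add]; exact add_mem h1 h2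
  | neg y _ h1 => rw [map_neg]; exact neg_mem h1

end Pool.Agent.H353R3.Mot
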