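import Pool.Agent.H353R3.Mot4

/-!
# Zero-cycles on the graded space `U₁ = pt`, `U₂ = 𝔸¹`
-/

open MvPolynomial Filter Topology
open Pool.Agent.Helper449.MST (K Constr RegularOn Isom constr_univ cnt cnt_growth cnt_univ cnt_iso
  cnt_union pts pts_finite q card_fixed pts_finite_aux)

namespace Pool.Agent.H353R3.Mot

/-- The monic polynomial `x^m + a_{m-1} x^{m-1} + ⋯ + a_0`, i.e. the effective zero-cycle of degree
`m` on the affine line over `K` whose multiplicity at each point is the root multiplicity. -/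
noncomputable def mono {m : ℕ} (a : Fin m → K) : Polynomial K :=
  Polynomial.X ^ m + ∑ i, Polynomial.C (a i) * Polynomial.X ^ (i : ℕ)

/-- A zero-cycle of degree `d` is `(d - 2m)` times the point of `U₁` plus a zero-cycle of degree `m`
on the affine line `U₂`. `Zset n d₁ d₂ m₁ m₂` is the set of the pairs of such cycles of degrees
`d₁`, `d₂` whose parts in `U₂` have degrees `m₁`, `m₂` and whose greatest common divisor is
`n`-powerfree: at each point the minimum of the two multiplicities is less than `n`. -/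
def Zset (n d₁ d₂ m₁ m₂ : ℕ) : Set (Fin (m₁ + m₂) → K) :=
  {z | min (d₁ - 2 * m₁) (d₂ - 2 * m₂) < n ∧
    ∀ x : K, min ((mono fun i => z (Fin.castAdd m₂ i)).rootMultiplicity x)
      ((mono fun i => z (Fin.natAdd m₁ i)).rootMultiplicity x) < n}

theorem degree_sum_lt {R : Type} [CommRing R] {m : ℕ} (a : Fin m → R) :
    (∑ i, Polynomial.C (a i) * Polynomial.X ^ (i : ℕ)).degree < (m : WithBot ℕ) := by
  exact Polynomial.degree_sum_fin_lt a

theorem monic_gen {R : Type} [CommRing R] {m : ℕ} (a : Fin m → R) :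
    (Polynomial.X ^ m + ∑ i, Polynomial.C (a i) * Polynomial.X ^ (i : ℕ)).Monic :=
  Polynomial.monic_X_pow_add (degree_sum_lt a)

theorem natDegree_gen {R : Type} [CommRing R] [Nontrivial R] {m : ℕ} (a : Fin m → R) :
    (Polynomial.X ^ m + ∑ i, Polynomial.C (a i) * Polynomial.X ^ (i : ℕ)).natDegree = m := by
  rw [Polynomial.natDegree_add_eq_left_of_degree_lt, Polynomial.natDegree_X_pow]
  rw [Polynomial.degree_X_pow]
  exact degree_sum_lt a

/-- The universal resultant. -/
noncomputable def Res (m₁ m₂ : ℕ) : MvPolynomial (Fin (m₁ + m₂)) K :=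
  Polynomial.resultant
    (Polynomial.X ^ m₁ + ∑ i : Fin m₁, Polynomial.C (X (Fin.castAdd m₂ i)) * Polynomial.X ^ (i : ℕ))
    (Polynomial.X ^ m₂ + ∑ i : Fin m₂, Polynomial.C (X (Fin.natAdd m₁ i)) * Polynomial.X ^ (i : ℕ))
    m₁ m₂

theorem eval_Res (m₁ m₂ : ℕ) (z : Fin (m₁ + m₂) → K) :
    eval z (Res m₁ m₂) = Polynomial.resultant (mono fun i => z (Fin.castAdd m₂ i))
      (mono fun i => z (Fin.natAdd m₁ i)) := by
  unfold Res
  rw [← Polynomial.resultant_map_map]
  have h1 : (Polynomial.X ^ m₁ + ∑ i : Fin m₁, Polynomial.C (X (Fin.castAdd m₂ i) :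
      MvPolynomial (Fin (m₁ + m₂)) K) * Polynomial.X ^ (i : ℕ)).map (eval z) =
      mono fun i => z (Fin.castAdd m₂ i) := by
    simp [mono, Polynomial.map_sum]
  have h2 : (Polynomial.X ^ m₂ + ∑ i : Fin m₂, Polynomial.C (X (Fin.natAdd m₁ i) :
      MvPolynomial (Fin (m₁ + m₂)) K) * Polynomial.X ^ (i : ℕ)).map (eval z) =
      mono fun i => z (Fin.natAdd m₁ i) := by
    simp [mono, Polynomial.map_sum]
  rw [h1, h2]
  have h3 : (mono fun i => z (Fin.castAdd m₂ i)).natDegree = m₁ := natDegree_gen _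
  have h4 : (mono fun i => z (Fin.natAdd m₁ i)).natDegree = m₂ := natDegree_gen _
  rw [h3, h4]

theorem eval_Res_ne_zero (m₁ m₂ : ℕ) (z : Fin (m₁ + m₂) → K) :
    eval z (Res m₁ m₂) ≠ 0 ↔ IsCoprime (mono fun i => z (Fin.castAdd m₂ i))
      (mono fun i => z (Fin.natAdd m₁ i)) := by
  rw [eval_Res, ← isUnit_iff_ne_zero]
  exact Polynomial.isUnit_resultant_iff_isCoprime (monic_gen _)

theorem coprime_iff {f g : Polynomial K} (hf : f ≠ 0) (hg : g ≠ 0) :
    (∀ x, min (f.rootMultiplicity x) (g.rootMultiplicity x) < 1) ↔ IsCoprime f g := by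
  constructor
  · intro h
    rw [Polynomial.isCoprime_iff_aeval_ne_zero_of_isAlgClosed K K]
    intro x
    have := h x
    rw [Nat.lt_one_iff, Nat.min_eq_zero_iff] at this
    rcases this with h1 | h1
    · left
      intro h2
      have : 0 < f.rootMultiplicity x := (Polynomial.rootMultiplicity_pos hf).2 (by
        simpa using h2)
      omega
    · right
      intro h2
      have : 0 < g.rootMultiplicity x := (Polynomial.rootMultiplicity_pos hg).2 (by
        simpa using h2)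
      omega
  · intro h x
    by_contra hx
    rw [Nat.lt_one_iff, Nat.min_eq_zero_iff, not_or] at hx
    have hx1 := (Polynomial.rootMultiplicity_pos hf).1 (Nat.pos_of_ne_zero hx.1)
    have hx2 := (Polynomial.rootMultiplicity_pos hg).1 (Nat.pos_of_ne_zero hx.2)
    obtain ⟨a, b, hab⟩ := h
    have := congrArg (Polynomial.eval x) hab
    rw [Polynomial.eval_add, Polynomial.eval_mul, Polynomial.eval_mul, hx1.eq_zero, hx2.eq_zero]
      at this
    simp at this

theorem Zset_one (d₁ d₂ m₁ m₂ : ℕ) :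
    Zset 1 d₁ d₂ m₁ m₂ = {z | min (d₁ - 2 * m₁) (d₂ - 2 * m₂) = 0 ∧ eval z (Res m₁ m₂) ≠ 0} := by
  ext z
  simp only [Zset, Set.mem_ofPred_eq]
  have h1 : (mono fun i => z (Fin.castAdd m₂ i)) ≠ 0 := (monic_gen _).ne_zero
  have h2 : (mono fun i => z (Fin.natAdd m₁ i)) ≠ 0 := (monic_gen _).ne_zero
  rw [eval_Res_ne_zero, ← coprime_iff h1 h2, Nat.lt_one_iff]

theorem constr_Zset (d₁ d₂ m₁ m₂ : ℕ) : Constr (Zset 1 d₁ d₂ m₁ m₂) := by
  rw [Zset_one]
  by_cases h : min (d₁ - 2 * m₁) (d₂ - 2 * m₂) = 0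
  · simp only [h, true_and]
    exact Constr.compl (Constr.zero (Res m₁ m₂))
  · simp only [h, false_and, Set.ofPred_false]
    exact constr_empty _

theorem Zset_odd {d₁ d₂ m₁ m₂ : ℕ} (h₁ : Odd d₁) (h₂ : Odd d₂) (hm₁ : 2 * m₁ ≤ d₁)
    (hm₂ : 2 * m₂ ≤ d₂) : Zset 1 d₁ d₂ m₁ m₂ = ∅ := by
  rw [Zset_one]
  obtain ⟨a, rfl⟩ := h₁
  obtain ⟨b, rfl⟩ := h₂
  ext z
  simp only [Set.mem_ofPred_eq, Set.mem_empty_iff_false, iff_false, not_and]
  intro h
  rw [Nat.min_eq_zero_iff] at h
  omega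

theorem Res_ne_zero {m : ℕ} (hm : 1 ≤ m) : Res m m ≠ 0 := by
  intro h
  have h1 := (eval_Res_ne_zero m m (Fin.append (fun _ => 0) (fun i => if (i : ℕ) = 0 then 1 else 0))).2
  rw [h, map_zero] at h1
  refine h1 ?_ rfl
  refine ⟨-1, 1, ?_⟩
  simp only [Fin.append_left, Fin.append_right, mono]
  have h2 : ∑ i : Fin m, Polynomial.C (if (i : ℕ) = 0 then (1 : K) else 0) *
      Polynomial.X ^ (i : ℕ) = 1 := by
    rw [Finset.sum_eq_single (⟨0, hm⟩ : Fin m)]
    · simp
    · intro b _ hb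
      have : (b : ℕ) ≠ 0 := fun h => hb (Fin.ext h)
      simp [this]
    · simp
  rw [h2]
  simp

theorem cnt_Zset (m : ℕ) (hm : 1 ≤ m) : ∃ C : ℕ, ∀ j,
    (q j : ℝ) ^ (2 * m) - C * (q j : ℝ) ^ (2 * m - 1) ≤ cnt j (Zset 1 (2 * m) (2 * m) m m) := by
  classical
  refine ⟨(Res m m).totalDegree, fun j => ?_⟩
  have hq : 1 < q j := by
    unfold q
    exact Nat.one_lt_pow (by positivity) (by norm_num)
  have hqr : (0 : ℝ) < q j := q_pos j
  have hfin := pts_finite_aux (q j) hq
  have hcard : hfin.toFinset.card = q j := by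
    rw [← Set.ncard_eq_toFinset_card _ hfin]
    unfold q
    exact card_fixed _ (Nat.mul_pos (by norm_num) (Nat.factorial_pos j))
  have hsz := MvPolynomial.schwartz_zippel_totalDegree (Res_ne_zero hm) hfin.toFinset
  rw [hcard] at hsz
  have hU : cnt j (Set.univ : Set (Fin (m + m) → K)) =
      cnt j (Zset 1 (2 * m) (2 * m) m m) + cnt j {z : Fin (m + m) → K | eval z (Res m m) = 0} := by
    rw [← cnt_union]
    · congr 1
      ext z
      rw [Zset_one]
      simp only [Set.mem_univ, Set.mem_union, Set.mem_ofPred_eq, true_iff]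
      simp only [tsub_self, min_self, true_and, ne_eq]
      exact (em _).symm
    · rw [Set.disjoint_left]
      intro z hz hz'
      rw [Zset_one] at hz
      exact hz.2 hz'
  have hC : cnt j {z : Fin (m + m) → K | eval z (Res m m) = 0} =
      ((Fintype.piFinset fun _ : Fin (m + m) => hfin.toFinset).filter
        fun z => eval z (Res m m) = 0).card := by
    unfold cnt
    rw [← Set.ncard_coe_finset]
    congr 1
    ext z
    simp [pts, and_comm]
  rw [← hC] at hsz
  have h1 : (cnt j {z : Fin (m + m) → K | eval z (Res m m) = 0} : ℝ) ≤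
      (Res m m).totalDegree * (q j : ℝ) ^ (2 * m - 1) := by
    have h2 : ((cnt j {z : Fin (m + m) → K | eval z (Res m m) = 0} : ℚ≥0) : ℝ) /
        ((q j : ℚ≥0) : ℝ) ^ (m + m) ≤ (((Res m m).totalDegree : ℚ≥0) : ℝ) / ((q j : ℚ≥0) : ℝ) := by
      exact_mod_cast hsz
    simp only [NNRat.cast_natCast] at h2
    rw [div_le_div_iff₀ (by positivity) hqr] at h2
    have h3 : (q j : ℝ) ^ (m + m) = (q j : ℝ) ^ (2 * m - 1) * q j := by
      rw [← pow_succ]
      congr 1
      omega
    rw [h3, ← mul_assoc] at h2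
    exact le_of_mul_le_mul_right h2 hqr
  rw [cnt_univ] at hU
  have h4 : (q j : ℝ) ^ (2 * m) = cnt j (Zset 1 (2 * m) (2 * m) m m) +
      cnt j {z : Fin (m + m) → K | eval z (Res m m) = 0} := by
    rw [show (q j : ℝ) ^ (2 * m) = (q j : ℝ) ^ (m + m) by rw [two_mul]]
    exact_mod_cast hU
  linarith

end Pool.Agent.H353R3.Mot
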