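import Pool.Agent.H353R3.Mot5

/-!
# The ratios do not converge
-/

open MvPolynomial Filter Topology UniformSpace
open Pool.Agent.Helper449.MST (K Constr RegularOn Isom constr_univ cnt cnt_growth cnt_univ cnt_iso
  cnt_union pts pts_finite q)

namespace Pool.Agent.H353R3.Mot

/-- The class of a constructible set in the completed Grothendieck ring. -/
noncomputable def cl (v : Cs) : Mhat := ((toML (cls0 v) : ML) : Mhat)

/-- The class of the space `𝒳_d = ⊔_{m ≤ d/2} Sym^m 𝔸¹` of zero-cycles of degree `d`. -/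
noncomputable def Xd (d : ℕ) : Mhat := ∑ m ∈ Finset.range (d / 2 + 1), cl (aff m)

/-- The class of the space `𝒵_1^{(d₁, d₂)}` of the pairs of zero-cycles of degrees `d₁`, `d₂` whose
greatest common divisor is `1`-powerfree. -/
noncomputable def Zd (d₁ d₂ : ℕ) : Mhat :=
  ∑ m₁ ∈ Finset.range (d₁ / 2 + 1), ∑ m₂ ∈ Finset.range (d₂ / 2 + 1),
    cl ⟨m₁ + m₂, Zset 1 d₁ d₂ m₁ m₂, constr_Zset d₁ d₂ m₁ m₂⟩

theorem Fil_mem_nhds (m : ℤ) : (Fil m : Set ML) ∈ 𝓝 (0 : ML) :=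
  basis.hasBasis_nhds_zero.mem_of_mem trivial

theorem isClosed_Fil (m : ℤ) : IsClosed (Fil m : Set ML) :=
  (basis.openAddSubgroup m).isClosed

/-- the closure of `F_m` in the completion -/
def FH (m : ℤ) : Set Mhat := closure ((fun x : ML => (x : Mhat)) '' (Fil m : Set ML))

theorem FH_mem_nhds (m : ℤ) : FH m ∈ 𝓝 (0 : Mhat) := by
  have := (Completion.isDenseInducing_coe (α := ML)).closure_image_mem_nhds (Fil_mem_nhds m)
  rwa [Completion.coe_zero] at this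

theorem FH_mul {m k : ℤ} {x : Mhat} {y : ML} (hx : x ∈ FH m) (hy : y ∈ Fil k) :
    x * (y : Mhat) ∈ FH (m + k) := by
  refine map_mem_closure (f := fun x : Mhat => x * (y : Mhat)) (continuous_mul_const _) hx ?_
  rintro _ ⟨z, hz, rfl⟩
  exact ⟨z * y, Fil_mul hz hy, Completion.coe_mul _ _⟩

theorem mem_Fil_of_FH {m : ℤ} {z : ML} (h : (z : Mhat) ∈ FH m) : z ∈ Fil m := by
  have h1 := (Completion.isUniformInducing_coe ML).isInducing.closure_eq_preimage_closure_image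
    (Fil m : Set ML)
  rw [(isClosed_Fil m).closure_eq] at h1
  have : z ∈ (Fil m : Set ML) := by
    rw [h1]
    exact h
  exact this

theorem summable_geom {k : ℕ} (hk : 1 ≤ k) :
    Summable fun i : ℕ => (((Lu ^ (-(k : ℤ)) : MLˣ) : ML) : Mhat) ^ i := by
  refine NonarchimedeanAddGroup.summable_of_tendsto_cofinite_zero ?_
  rw [Nat.cofinite_eq_atTop]
  have h1 : Tendsto (fun i : ℕ => ((Lu ^ (-(k : ℤ)) : MLˣ) : ML) ^ i) atTop (𝓝 0) := by
    rw [basis.hasBasis_nhds_zero.tendsto_right_iff]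
    intro m _
    filter_upwards [eventually_ge_atTop m.toNat] with i hi
    have h2 : ((Lu ^ (-(k : ℤ)) : MLˣ) : ML) ^ i = ((Lu ^ (-((k : ℤ) * i)) : MLˣ) : ML) := by
      rw [← Units.val_pow_eq_pow_val, ← zpow_natCast, ← zpow_mul, neg_mul]
    rw [h2]
    refine Fil_anti ?_ (zpow_mem _)
    have h3 : m ≤ i := Int.toNat_le.1 hi
    have h4 : (i : ℤ) ≤ k * i := by
      have : (1 : ℤ) ≤ k := by exact_mod_cast hk
      nlinarith
    linarith
  have h2 := ((Completion.continuous_coe ML).tendsto 0).comp h1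
  rw [Completion.coe_zero] at h2
  refine h2.congr fun i => ?_
  simp only [Function.comp_apply]
  exact map_pow (Completion.coeRingHom (α := ML)) _ i

theorem isUnit_sub {k : ℕ} (hk : 1 ≤ k) : IsUnit ((((Lu ^ k : MLˣ) : ML) : Mhat) - 1) := by
  have h1 := (summable_geom hk).one_sub_mul_tsum_pow
  have h2 : IsUnit (1 - (((Lu ^ (-(k : ℤ)) : MLˣ) : ML) : Mhat)) := IsUnit.of_mul_eq_one _ h1
  have h3 : (((Lu ^ k : MLˣ) : ML) : Mhat) * (((Lu ^ (-(k : ℤ)) : MLˣ) : ML) : Mhat) = 1 := by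
    rw [← Completion.coe_mul, ← Units.val_mul, ← zpow_natCast, ← zpow_add, add_neg_cancel,
      zpow_zero, Units.val_one]
    exact Completion.coe_one ML
  have h4 : IsUnit (((Lu ^ k : MLˣ) : ML) : Mhat) := IsUnit.of_mul_eq_one _ h3
  have h5 := h4.mul h2
  rwa [mul_sub, mul_one, h3] at h5

theorem cl_aff (m : ℕ) : cl (aff m) = (((Lu ^ m : MLˣ) : ML) : Mhat) := by
  unfold cl
  rw [cls0_aff, map_pow, ← val_Lu, Units.val_pow_eq_pow_val]

theorem isUnit_Xd (d : ℕ) : IsUnit (Xd d) := by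
  have h1 : Xd d * ((((Lu : MLˣ) : ML) : Mhat) - 1) =
      (((Lu ^ (d / 2 + 1) : MLˣ) : ML) : Mhat) - 1 := by
    unfold Xd
    have h2 : ∀ m, cl (aff m) = (((Lu : MLˣ) : ML) : Mhat) ^ m := by
      intro m
      rw [cl_aff, Units.val_pow_eq_pow_val]
      exact map_pow (Completion.coeRingHom (α := ML)) _ m
    rw [Finset.sum_congr rfl fun m _ => h2 m, geom_sum_mul, ← h2, cl_aff]
  exact isUnit_of_mul_isUnit_left (h1 ▸ isUnit_sub (Nat.succ_le_succ (Nat.zero_le _)))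

theorem Zd_odd {d₁ d₂ : ℕ} (h₁ : Odd d₁) (h₂ : Odd d₂) : Zd d₁ d₂ = 0 := by
  unfold Zd
  refine Finset.sum_eq_zero fun m₁ hm₁ => Finset.sum_eq_zero fun m₂ hm₂ => ?_
  rw [Finset.mem_range] at hm₁ hm₂
  have h : (⟨m₁ + m₂, Zset 1 d₁ d₂ m₁ m₂, constr_Zset d₁ d₂ m₁ m₂⟩ : Cs) =
      ⟨m₁ + m₂, ∅, constr_empty _⟩ := by
    congr 1
    exact Zset_odd h₁ h₂ (by omega) (by omega)
  rw [h]
  unfold cl
  rw [cls0_empty, map_zero, Completion.coe_zero]

/-- `[𝒳_{2m}]` before completion -/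
noncomputable def XM (m : ℕ) : ML := ∑ i ∈ Finset.range (m + 1), toML (cls0 (aff i))

theorem XM_mem (m : ℕ) : XM m ∈ Fil (-(m : ℤ)) := by
  refine sum_mem fun i hi => ?_
  rw [Finset.mem_range] at hi
  refine AddSubgroup.subset_closure ⟨aff i, i, 0, dimLe_univ i, by omega, ?_⟩
  rw [neg_zero, zpow_zero, Units.val_one, mul_one]

theorem Xd_even (m : ℕ) : Xd (2 * m) = ((XM m : ML) : Mhat) := by
  unfold Xd XM cl
  rw [Nat.mul_div_cancel_left _ (by norm_num)]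
  exact (map_sum (Completion.coeRingHom (α := ML)) _ _).symm

/-- `[𝒵_1^{(2m, 2m)}]` before completion -/
noncomputable def ZM (m : ℕ) : ML :=
  ∑ m₁ ∈ Finset.range (m + 1), ∑ m₂ ∈ Finset.range (m + 1),
    toML (cls0 ⟨m₁ + m₂, Zset 1 (2 * m) (2 * m) m₁ m₂, constr_Zset (2 * m) (2 * m) m₁ m₂⟩)

theorem Zd_even (m : ℕ) : Zd (2 * m) (2 * m) = ((ZM m : ML) : Mhat) := by
  unfold Zd ZM cl
  rw [Nat.mul_div_cancel_left _ (by norm_num)]
  have h : ∀ s : Finset ℕ, ∀ f : ℕ → ML, ((∑ i ∈ s, f i : ML) : Mhat) = ∑ i ∈ s, (f i : Mhat) :=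
    fun s f => map_sum (Completion.coeRingHom (α := ML)) f s
  rw [h]
  refine Finset.sum_congr rfl fun i _ => ?_
  rw [h]

theorem ZM_notMem (m : ℕ) (hm : 1 ≤ m) : ZM m ∉ Fil (1 + (-(m : ℤ)) + (-(m : ℤ))) := by
  intro h
  obtain ⟨f, hf, C, hC⟩ := real_Fil _ _ h
  have h1 : real (ZM m) = ((fun j => ∑ m₁ ∈ Finset.range (m + 1), ∑ m₂ ∈ Finset.range (m + 1),
      (cnt j (Zset 1 (2 * m) (2 * m) m₁ m₂) : ℝ) : ℕ → ℝ) : G) := by
    unfold ZM
    rw [map_sum]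
    have h2 : ∀ m₁ m₂, real (toML (cls0 ⟨m₁ + m₂, Zset 1 (2 * m) (2 * m) m₁ m₂,
        constr_Zset (2 * m) (2 * m) m₁ m₂⟩)) =
        ((fun j => (cnt j (Zset 1 (2 * m) (2 * m) m₁ m₂) : ℝ) : ℕ → ℝ) : G) := by
      intro m₁ m₂
      rw [real_toML, real1_cls0]
      rfl
    simp only [map_sum, h2]
    have h3 : ∀ s : Finset ℕ, ∀ f : ℕ → (ℕ → ℝ), ∑ i ∈ s, ((f i : ℕ → ℝ) : G) =
        ((∑ i ∈ s, f i : ℕ → ℝ) : G) := fun s f =>
      (map_sum (Germ.coeRingHom (atTop : Filter ℕ) : (ℕ → ℝ) →+* G) f s).symm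
    simp only [h3]
    refine Germ.coe_eq.2 (Eventually.of_forall fun j => ?_)
    simp only [Finset.sum_apply]
  rw [hf] at h1
  have h2 := Germ.coe_eq.1 h1
  obtain ⟨D, hD⟩ := cnt_Zset m hm
  have h3 : ∀ᶠ j in atTop, (q j : ℝ) ≤ C + D := by
    filter_upwards [h2, hC] with j hj hCj
    rw [hj] at hCj
    have h4 : (cnt j (Zset 1 (2 * m) (2 * m) m m) : ℝ) ≤
        ∑ m₁ ∈ Finset.range (m + 1), ∑ m₂ ∈ Finset.range (m + 1),
          (cnt j (Zset 1 (2 * m) (2 * m) m₁ m₂) : ℝ) := by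
      refine le_trans ?_ (Finset.single_le_sum (f := fun m₁ => ∑ m₂ ∈ Finset.range (m + 1),
          (cnt j (Zset 1 (2 * m) (2 * m) m₁ m₂) : ℝ)) (fun i _ => Finset.sum_nonneg fun _ _ =>
            Nat.cast_nonneg _) (Finset.self_mem_range_succ m))
      exact Finset.single_le_sum (f := fun m₂ => (cnt j (Zset 1 (2 * m) (2 * m) m m₂) : ℝ))
        (fun i _ => Nat.cast_nonneg _) (Finset.self_mem_range_succ m)
    have h5 := (le_abs_self _).trans hCj
    have h6 := (hD j).trans (h4.trans h5)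
    have h7 : (q j : ℝ) ^ (-(1 + (-(m : ℤ)) + (-(m : ℤ)))) = (q j : ℝ) ^ (2 * m - 1) := by
      rw [← zpow_natCast]
      congr 1
      push_cast [show 1 ≤ 2 * m by omega]
      ring
    rw [h7] at h6
    have h8 : (q j : ℝ) ^ (2 * m) = q j * (q j : ℝ) ^ (2 * m - 1) := by
      rw [← pow_succ']
      congr 1
      omega
    rw [h8] at h6
    have h9 : (q j : ℝ) * (q j : ℝ) ^ (2 * m - 1) ≤ (C + D) * (q j : ℝ) ^ (2 * m - 1) := by
      linarith
    exact le_of_mul_le_mul_right h9 (pow_pos (q_pos j) _)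
  have h4 : Tendsto (fun j => (q j : ℝ)) atTop atTop := by
    refine tendsto_atTop_mono (f := fun j : ℕ => (j : ℝ)) (fun j => ?_) tendsto_natCast_atTop_atTop
    have : j ≤ q j := by
      unfold q
      calc j ≤ j.factorial := Nat.self_le_factorial j
        _ ≤ 54 * j.factorial := Nat.le_mul_of_pos_left _ (by norm_num)
        _ ≤ 3 ^ (54 * j.factorial) := (Nat.lt_pow_self (by norm_num)).le
    exact_mod_cast this
  obtain ⟨j, hj1, hj2⟩ := (h3.and (h4.eventually_gt_atTop (C + D))).exists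
  linarith

theorem no_limit (t : Mhat) :
    ¬ Tendsto (fun d : ℕ × ℕ => Zd d.1 d.2 * Ring.inverse (Xd d.1 * Xd d.2)) atTop (𝓝 t) := by
  intro h
  have hodd : Tendsto (fun m : ℕ => ((2 * m + 1, 2 * m + 1) : ℕ × ℕ)) atTop atTop := by
    refine tendsto_atTop_atTop.2 fun b => ⟨b.1 + b.2, fun m hm => ?_⟩
    exact ⟨by simp only; omega, by simp only; omega⟩
  have heven : Tendsto (fun m : ℕ => ((2 * m, 2 * m) : ℕ × ℕ)) atTop atTop := by
    refine tendsto_atTop_atTop.2 fun b => ⟨b.1 + b.2, fun m hm => ?_⟩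
    exact ⟨by simp only; omega, by simp only; omega⟩
  have h1 := h.comp hodd
  have h2 : (fun d : ℕ × ℕ => Zd d.1 d.2 * Ring.inverse (Xd d.1 * Xd d.2)) ∘
      (fun m : ℕ => ((2 * m + 1, 2 * m + 1) : ℕ × ℕ)) = fun _ => 0 := by
    funext m
    simp only [Function.comp_apply]
    rw [Zd_odd ⟨m, rfl⟩ ⟨m, rfl⟩, zero_mul]
  rw [h2] at h1
  have ht : t = 0 := tendsto_nhds_unique h1 tendsto_const_nhds |>.symm ▸ rfl
  subst ht
  have h3 := (h.comp heven).eventually_mem (FH_mem_nhds 1)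
  obtain ⟨m, hm1, hm2⟩ := (h3.and (eventually_ge_atTop 1)).exists
  simp only [Function.comp_apply] at hm1
  have h4 := FH_mul (FH_mul hm1 (XM_mem m)) (XM_mem m)
  rw [← Xd_even, mul_assoc, mul_assoc, Ring.inverse_mul_cancel _ ((isUnit_Xd _).mul (isUnit_Xd _)),
    mul_one, Zd_even] at h4
  exact ZM_notMem m hm2 (mem_Fil_of_FH h4)

end Pool.Agent.H353R3.Mot
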