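import Pool.Agent.H353R3.Mot6

/-!
# The displayed value
-/

open MvPolynomial Filter Topology UniformSpace
open Pool.Agent.Helper449.MST (K Constr RegularOn Isom constr_univ cnt cnt_growth cnt_univ cnt_iso
  cnt_union pts pts_finite q)

namespace Pool.Agent.H353R3.Mot

/-- The class of the affine line in the completed Grothendieck ring. -/
noncomputable def LL : Mhat := cl (aff 1)

theorem LL_eq : LL = (((Lu : MLˣ) : ML) : Mhat) := by
  unfold LL
  rw [cl_aff, pow_one]

theorem isUnit_LL : IsUnit LL := by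
  rw [LL_eq]
  have h3 : (((Lu : MLˣ) : ML) : Mhat) * (((Lu⁻¹ : MLˣ) : ML) : Mhat) = 1 := by
    rw [← Completion.coe_mul, ← Units.val_mul, mul_inv_cancel, Units.val_one]
    exact Completion.coe_one ML
  exact IsUnit.of_mul_eq_one _ h3

theorem cl_aff' (m : ℕ) : cl (aff m) = LL ^ m := by
  rw [cl_aff, LL_eq, Units.val_pow_eq_pow_val]
  exact map_pow (Completion.coeRingHom (α := ML)) _ m

theorem Xd_eq (d : ℕ) : Xd d = ∑ m ∈ Finset.range (d / 2 + 1), LL ^ m := by
  unfold Xd
  exact Finset.sum_congr rfl fun m _ => cl_aff' m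

theorem Xd_succ (d : ℕ) : Xd (d + 2) = 1 + LL * Xd d := by
  rw [Xd_eq, Xd_eq, show (d + 2) / 2 = d / 2 + 1 by omega, Finset.sum_range_succ']
  rw [pow_zero, add_comm, Finset.mul_sum]
  congr 1
  exact Finset.sum_congr rfl fun m _ => by rw [pow_succ']

/-- the coefficients of `(1 - t)(1 - L t²)` -/
noncomputable def aseq (k : ℕ) : Mhat :=
  if k = 0 then 1 else if k = 1 then -1 else if k = 2 then -LL else if k = 3 then LL else 0

theorem mul_aseq : PowerSeries.mk Xd * PowerSeries.mk aseq = 1 := by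
  have h0 : PowerSeries.mk aseq = 1 - PowerSeries.X - PowerSeries.C LL * PowerSeries.X ^ 2 +
      PowerSeries.C LL * PowerSeries.X ^ 3 := by
    ext k
    rw [PowerSeries.coeff_mk]
    simp only [map_add, map_sub, PowerSeries.coeff_one, PowerSeries.coeff_X,
      PowerSeries.coeff_C_mul, PowerSeries.coeff_X_pow, aseq]
    rcases k with _ | _ | _ | _ | k
    · simp
    · simp
    · simp
    · simp
    · simp
  rw [h0]
  ext k
  rw [show PowerSeries.mk Xd * (1 - PowerSeries.X - PowerSeries.C LL * PowerSeries.X ^ 2 +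
      PowerSeries.C LL * PowerSeries.X ^ 3) = PowerSeries.mk Xd - PowerSeries.mk Xd * PowerSeries.X ^ 1 -
      PowerSeries.C LL * (PowerSeries.mk Xd * PowerSeries.X ^ 2) +
      PowerSeries.C LL * (PowerSeries.mk Xd * PowerSeries.X ^ 3) by ring]
  simp only [map_add, map_sub, PowerSeries.coeff_C_mul, PowerSeries.coeff_mul_X_pow',
    PowerSeries.coeff_mk, PowerSeries.coeff_one]
  have h00 : Xd 0 = 1 := by rw [Xd_eq]; simp
  have h01 : Xd 1 = 1 := by rw [Xd_eq]; simp
  rcases k with _ | _ | _ | k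
  · simp [h00]
  · simp [h00, h01]
  · simp [Xd_succ, h00, h01]
  · have h1 : Xd (k + 3) = 1 + LL * Xd (k + 1) := Xd_succ (k + 1)
    have h2 : Xd (k + 2) = 1 + LL * Xd k := Xd_succ k
    simp only [show (1 ≤ k + 1 + 1 + 1) by omega, show (2 ≤ k + 1 + 1 + 1) by omega,
      show (3 ≤ k + 1 + 1 + 1) by omega, if_true, show ¬ (k + 1 + 1 + 1 = 0) by omega, if_false,
      show k + 1 + 1 + 1 = k + 3 by omega, show k + 3 - 1 = k + 2 by omega,
      show k + 3 - 2 = k + 1 by omega, show k + 3 - 3 = k by omega, h1, h2]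
    ring

theorem hasSum_aseq : HasSum (fun k => aseq k * Ring.inverse LL ^ (2 * (k / 2))) 0 := by
  have h := hasSum_sum_of_ne_finset_zero (f := fun k => aseq k * Ring.inverse LL ^ (2 * (k / 2)))
    (s := Finset.range 4) (L := .unconditional ℕ) (by
      intro k hk
      have : 4 ≤ k := by simpa using hk
      simp only [aseq]
      rw [if_neg (by omega), if_neg (by omega), if_neg (by omega), if_neg (by omega), zero_mul])
  have h2 : ∑ k ∈ Finset.range 4, aseq k * Ring.inverse LL ^ (2 * (k / 2)) = 0 := by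
    simp [Finset.sum_range_succ, aseq]
  rwa [h2] at h

end Pool.Agent.H353R3.Mot
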