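import Mathlib

/-!
# Chow groups of open unions of strata of the stack of prestable curves of genus zero

`DGraph n e` is the set of the dual graphs of prestable curves of genus `0` with `n` markings and
`e` nodes. We define the Chow groups of the strata and the Hilbert series of the Chow ring of an
open union of strata.
-/

open MvPolynomial

namespace Pool.Agent.H353R3.Pre

/-- The dual graph of a prestable curve of genus `0` with `n` markings and `e` nodes: a tree with
`e + 1` vertices (the components of the curve), the edges being the nodes, together with the vertex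
`leg i` carrying the marking `i`. -/
structure DGraph (n e : ℕ) where
  G : SimpleGraph (Fin (e + 1))
  tree : G.IsTree
  leg : Fin n → Fin (e + 1)

/-- `f` is an isomorphism from `T` to `T'`. -/
def IsIso {n e : ℕ} (T T' : DGraph n e) (f : Equiv.Perm (Fin (e + 1))) : Prop :=
  (∀ v w, T.G.Adj v w ↔ T'.G.Adj (f v) (f w)) ∧ ∀ i, f (T.leg i) = T'.leg i

/-- A half-edge: a branch of a node (a pair `(v, w)` of adjacent vertices, the branch of the node
lying on the component `v`), or a marking. -/
abbrev Half {n e : ℕ} (T : DGraph n e) : Type :=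
  {p : Fin (e + 1) × Fin (e + 1) // T.G.Adj p.1 p.2} ⊕ Fin n

/-- The vertex carrying a half-edge. -/
def vtx {n e : ℕ} (T : DGraph n e) : Half T → Fin (e + 1)
  | .inl p => p.1.1
  | .inr i => T.leg i

/-- The valence `n(v)`: the number of half-edges at the vertex `v`. -/
noncomputable def val {n e : ℕ} (T : DGraph n e) (v : Fin (e + 1)) : ℕ :=
  {h : Half T | vtx T h = v}.ncard

/-- Generators: the class `ψ_h` for every half-edge `h`, and the class `c₂` for every vertex of
valence `0`. -/
abbrev Gen {n e : ℕ} (T : DGraph n e) : Type := Half T ⊕ {v : Fin (e + 1) // val T v = 0}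

/-- The degrees of the generators: `1` for `ψ_h` and `2` for `c₂`. -/
def wt {n e : ℕ} (T : DGraph n e) : Gen T → ℕ
  | .inl _ => 1
  | .inr _ => 2

/-- The relations of the Chow ring of `∏_v 𝔐_{0, n(v)}^{sm}`: `ψ_h + ψ_{h'} = 0` if `h`, `h'` are
the two half-edges at a vertex of valence `2`, and `ψ_h = 0` if `h` is a half-edge at a vertex of
valence at least `3`. -/
inductive Rel {n e : ℕ} (T : DGraph n e) : MvPolynomial (Gen T) ℚ → Prop
  | two (h h' : Half T) (hne : h ≠ h') (hv : vtx T h = vtx T h') (h2 : val T (vtx T h) = 2) :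
      Rel T (X (Sum.inl h) + X (Sum.inl h'))
  | three (h : Half T) (h3 : 3 ≤ val T (vtx T h)) : Rel T (X (Sum.inl h))

/-- The ideal of relations. -/
noncomputable def relI {n e : ℕ} (T : DGraph n e) : Ideal (MvPolynomial (Gen T) ℚ) := Ideal.span {x | Rel T x}

/-- The induced map on half-edges of an automorphism. -/
def halfMap {n e : ℕ} (T : DGraph n e) (f : Equiv.Perm (Fin (e + 1))) (hf : IsIso T T f) :
    Half T → Half T
  | .inl p => .inl ⟨(f p.1.1, f p.1.2), (hf.1 _ _).1 p.2⟩
  | .inr i => .inr i

theorem val_map {n e : ℕ} (T : DGraph n e) (f : Equiv.Perm (Fin (e + 1))) (hf : IsIso T T f)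
    (v : Fin (e + 1)) : val T (f v) = val T v := by
  have hf' : IsIso T T f.symm := by
    refine ⟨fun v w => ?_, fun i => ?_⟩
    · have := hf.1 (f.symm v) (f.symm w)
      rw [Equiv.apply_symm_apply, Equiv.apply_symm_apply] at this
      exact this.symm
    · rw [Equiv.symm_apply_eq]
      exact (hf.2 i).symm
  have h1 : {h : Half T | vtx T h = f v} = halfMap T f hf '' {h : Half T | vtx T h = v} := by
    ext h
    constructor
    · intro hh
      rcases h with ⟨⟨a, b⟩, hab⟩ | i
      · refine ⟨.inl ⟨(f.symm a, f.symm b), (hf'.1 _ _).1 hab⟩, ?_, ?_⟩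
        · change f.symm a = v
          rw [Equiv.symm_apply_eq]
          exact hh
        · simp [halfMap]
      · refine ⟨.inr i, ?_, rfl⟩
        change T.leg i = v
        have h2 : T.leg i = f v := hh
        rw [← hf.2 i] at h2
        exact f.injective h2
    · rintro ⟨h', hh', rfl⟩
      rcases h' with ⟨⟨a, b⟩, hab⟩ | i
      · change f a = f v
        exact congrArg f hh'
      · change T.leg i = f v
        rw [← hf.2 i]
        exact congrArg f hh'
  unfold val
  rw [h1, Set.ncard_image_of_injective]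
  rintro (⟨⟨a, b⟩, hab⟩ | i) (⟨⟨a', b'⟩, hab'⟩ | i') hh
  · simpa [halfMap] using hh
  · simp [halfMap] at hh
  · simp [halfMap] at hh
  · simpa [halfMap] using hh

/-- The induced map on generators of an automorphism. -/
def genMap {n e : ℕ} (T : DGraph n e) (f : Equiv.Perm (Fin (e + 1))) (hf : IsIso T T f) :
    Gen T → Gen T
  | .inl h => .inl (halfMap T f hf h)
  | .inr v => .inr ⟨f v.1, (val_map T f hf v.1).trans v.2⟩

/-- The polynomials of degree `j` in the generators whose class modulo the relations is invariant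
under the automorphisms of the dual graph. -/
noncomputable def invPoly {n e : ℕ} (T : DGraph n e) (j : ℕ) :
    Submodule ℚ (MvPolynomial (Gen T) ℚ) where
  carrier := {p | IsWeightedHomogeneous (wt T) p j ∧
    ∀ (f : Equiv.Perm (Fin (e + 1))) (hf : IsIso T T f), rename (genMap T f hf) p - p ∈ relI T}
  add_mem' := by
    rintro p q ⟨hp, hp'⟩ ⟨hq, hq'⟩
    refine ⟨hp.add hq, fun f hf => ?_⟩
    rw [map_add, add_sub_add_comm]
    exact (relI T).add_mem (hp' f hf) (hq' f hf)
  zero_mem' := ⟨isWeightedHomogeneous_zero _ _ _, fun f hf => by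
    rw [map_zero, sub_zero]; exact (relI T).zero_mem⟩
  smul_mem' := by
    rintro c p ⟨hp, hp'⟩
    refine ⟨(weightedHomogeneousSubmodule ℚ (wt T) j).smul_mem c hp, fun f hf => ?_⟩
    rw [map_smul, ← smul_sub, MvPolynomial.smul_eq_C_mul]
    exact (relI T).mul_mem_left _ (hp' f hf)

/-- The Chow group `CH^j` of the stratum with dual graph `T`: the invariants of degree `j` of the
automorphism group of `T` in the Chow ring of `∏_v 𝔐_{0, n(v)}^{sm}`. -/
noncomputable def CHs {n e : ℕ} (T : DGraph n e) (j : ℕ) :
    Submodule ℚ (MvPolynomial (Gen T) ℚ ⧸ relI T) :=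
  (invPoly T j).map (Ideal.Quotient.mkₐ ℚ (relI T)).toLinearMap

/-- Isomorphism of dual graphs. -/
def isoSetoid (n e : ℕ) : Setoid (DGraph n e) where
  r T T' := ∃ f, IsIso T T' f
  iseqv := by
    refine ⟨fun T => ⟨1, fun v w => Iff.rfl, fun i => rfl⟩, ?_, ?_⟩
    · rintro T T' ⟨f, hf, hf'⟩
      refine ⟨f.symm, fun v w => ?_, fun i => ?_⟩
      · have := hf (f.symm v) (f.symm w)
        rw [Equiv.apply_symm_apply, Equiv.apply_symm_apply] at this
        exact this.symm
      · rw [Equiv.symm_apply_eq]
        exact (hf' i).symm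
    · rintro T T' T'' ⟨f, hf, hf'⟩ ⟨g, hg, hg'⟩
      refine ⟨f.trans g, fun v w => (hf v w).trans (hg _ _), fun i => ?_⟩
      rw [Equiv.trans_apply, hf', hg']

/-- The set of strata of codimension `e` of `𝔐_{0,n}`: isomorphism classes of dual graphs. -/
abbrev Stratum (n e : ℕ) : Type := Quotient (isoSetoid n e)

/-- `T'` is obtained from `T` by contracting an edge (smoothing a node of the curve). -/
def Contr {n e : ℕ} (T : DGraph n (e + 1)) (T' : DGraph n e) : Prop :=
  ∃ (c : Fin (e + 2) → Fin (e + 1)) (a b : Fin (e + 2)), Function.Surjective c ∧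
    T.G.Adj a b ∧ (∀ v w, c v = c w ↔ v = w ∨ (v = a ∧ w = b) ∨ (v = b ∧ w = a)) ∧
    (∀ v' w', T'.G.Adj v' w' ↔ v' ≠ w' ∧ ∃ v w, c v = v' ∧ c w = w' ∧ T.G.Adj v w) ∧
    ∀ i, T'.leg i = c (T.leg i)

/-- A union `U` of strata is open if and only if it is closed under the contraction of edges. -/
def IsOpenUnion {n : ℕ} (U : ∀ e, Set (Stratum n e)) : Prop :=
  ∀ (e : ℕ) (T : DGraph n (e + 1)) (T' : DGraph n e), Contr T T' →
    (Quotient.mk (isoSetoid n (e + 1)) T) ∈ U (e + 1) → (Quotient.mk (isoSetoid n e) T') ∈ U e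

/-- The dimension of `CH^d(U)`: the sum over the strata in `U` of the dimensions of the Chow groups
`CH^{d - e}` of the strata, `e` being the codimension of the stratum. -/
noncomputable def dimCH {n : ℕ} (U : ∀ e, Set (Stratum n e)) (d : ℕ) : ℕ :=
  ∑ e ∈ Finset.range (d + 1), ∑ᶠ s ∈ U e, Module.finrank ℚ (CHs s.out (d - e))

/-- The Hilbert series `H_U`. -/
noncomputable def hilbSeries {n : ℕ} (U : ∀ e, Set (Stratum n e)) : PowerSeries ℂ :=
  PowerSeries.mk fun d => (dimCH U d : ℂ)

end Pool.Agent.H353R3.Pre
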