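import Pool.Agent.H353R3.Pre1

/-!
# Star-shaped dual graphs: the Chow groups of the strata
-/

open MvPolynomial

namespace Pool.Agent.H353R3.Pre

/-- All three markings are on one vertex, and all other vertices are adjacent to it. -/
def IsStar {e : ℕ} (T : DGraph 3 e) : Prop :=
  (∀ i, T.leg i = T.leg 0) ∧ ∀ v, v ≠ T.leg 0 → T.G.Adj (T.leg 0) v

section Star

variable {e : ℕ} {T : DGraph 3 e} (hT : IsStar T)

include hT

theorem star_adj {v w : Fin (e + 1)} (h : T.G.Adj v w) (hv : v ≠ T.leg 0) : w = T.leg 0 := by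
  by_contra hw
  have h1 := hT.2 v hv
  have h2 := hT.2 w hw
  have h3 := T.tree.isAcyclic.cliqueFree (n := 3) le_rfl
  refine h3 {T.leg 0, v, w} ?_
  rw [SimpleGraph.is3Clique_triple_iff]
  exact ⟨h1, h2, h⟩

theorem star_adj_iff {v w : Fin (e + 1)} :
    T.G.Adj v w ↔ (v = T.leg 0 ∧ w ≠ T.leg 0) ∨ (w = T.leg 0 ∧ v ≠ T.leg 0) := by
  constructor
  · intro h
    by_cases hv : v = T.leg 0
    · left
      refine ⟨hv, ?_⟩
      rintro rfl
      exact h.ne hv
    · right
      exact ⟨star_adj hT h hv, hv⟩
  · rintro (⟨rfl, h⟩ | ⟨rfl, h⟩)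
    · exact hT.2 w h
    · exact (hT.2 v h).symm

theorem val_center : 3 ≤ val T (T.leg 0) := by
  unfold val
  have h1 : (Set.range (Sum.inr : Fin 3 → Half T)) ⊆ {h : Half T | vtx T h = T.leg 0} := by
    rintro _ ⟨i, rfl⟩
    exact hT.1 i
  have h2 := Set.ncard_le_ncard h1 (Set.toFinite _)
  rw [← Set.image_univ, Set.ncard_image_of_injective _ Sum.inr_injective, Set.ncard_univ,
    Nat.card_eq_fintype_card, Fintype.card_fin] at h2
  exact h2

theorem val_leaf {v : Fin (e + 1)} (hv : v ≠ T.leg 0) : val T v = 1 := by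
  unfold val
  have h1 : {h : Half T | vtx T h = v} = {Sum.inl ⟨(v, T.leg 0), (hT.2 v hv).symm⟩} := by
    ext h
    constructor
    · intro hh
      rcases h with ⟨⟨a, b⟩, hab⟩ | i
      · have h2 : a = v := hh
        subst h2
        have h3 : b = T.leg 0 := star_adj hT hab hv
        subst h3
        rfl
      · exact absurd ((hT.1 i).symm.trans hh).symm hv
    · rintro rfl
      rfl
  rw [h1, Set.ncard_singleton]

theorem val_ne_zero (v : Fin (e + 1)) : val T v ≠ 0 := by
  by_cases hv : v = T.leg 0
  · subst hv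
    have := val_center hT
    omega
  · rw [val_leaf hT hv]
    exact one_ne_zero

end Star

/-- the leaves -/
abbrev Leaf {e : ℕ} (T : DGraph 3 e) : Type := {v : Fin (e + 1) // v ≠ T.leg 0}

open Classical in
/-- the projection to the polynomial ring in the leaf classes -/
noncomputable def rho {e : ℕ} (T : DGraph 3 e) : MvPolynomial (Gen T) ℚ →ₐ[ℚ] MvPolynomial (Leaf T) ℚ :=
  aeval fun g => match g with
    | .inl (.inl p) => if h : p.1.1 ≠ T.leg 0 then X ⟨p.1.1, h⟩ else 0
    | .inl (.inr _) => 0
    | .inr _ => 0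

noncomputable def iota {e : ℕ} {T : DGraph 3 e} (hT : IsStar T) :
    MvPolynomial (Leaf T) ℚ →ₐ[ℚ] MvPolynomial (Gen T) ℚ :=
  rename fun v => .inl (.inl ⟨(v.1, T.leg 0), (hT.2 v.1 v.2).symm⟩)

section Star2

variable {e : ℕ} {T : DGraph 3 e} (hT : IsStar T)

theorem rho_iota (q : MvPolynomial (Leaf T) ℚ) : rho T (iota hT q) = q := by
  have : (rho T).comp (iota hT) = AlgHom.id ℚ _ := by
    ext v
    simp [rho, iota, v.2]
  exact DFunLike.congr_fun this q

include hT in
theorem rho_relI {p : MvPolynomial (Gen T) ℚ} (hp : p ∈ relI T) : rho T p = 0 := by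
  have : relI T ≤ RingHom.ker (rho T) := by
    unfold relI
    rw [Ideal.span_le]
    intro x hx
    rw [SetLike.mem_coe, RingHom.mem_ker]
    cases hx with
    | two h h' hne hv h2 =>
      exfalso
      by_cases hc : vtx T h = T.leg 0
      · rw [hc] at h2
        have := val_center hT
        omega
      · rw [val_leaf hT hc] at h2
        omega
    | three h h3 =>
      by_cases hc : vtx T h = T.leg 0
      · rcases h with p | i
        · have hc' : p.1.1 = T.leg 0 := hc
          simp [rho, hc']
        · simp [rho]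
      · rw [val_leaf hT hc] at h3
        omega
  exact this hp

theorem mk_iota_rho (p : MvPolynomial (Gen T) ℚ) :
    Ideal.Quotient.mk (relI T) (iota hT (rho T p)) = Ideal.Quotient.mk (relI T) p := by
  have : ((Ideal.Quotient.mkₐ ℚ (relI T)).comp ((iota hT).comp (rho T))) =
      Ideal.Quotient.mkₐ ℚ (relI T) := by
    ext g
    simp only [AlgHom.coe_comp, Function.comp_apply, Ideal.Quotient.mkₐ_eq_mk]
    rcases g with (p | i) | v
    · by_cases h : p.1.1 = T.leg 0
      · have h1 : rho T (X (Sum.inl (Sum.inl p))) = 0 := by simp [rho, h]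
        rw [h1, map_zero, map_zero]
        symm
        rw [Ideal.Quotient.eq_zero_iff_mem]
        refine Ideal.subset_span (Rel.three _ ?_)
        change 3 ≤ val T p.1.1
        rw [h]
        exact val_center hT
      · have h1 : rho T (X (Sum.inl (Sum.inl p))) = X ⟨p.1.1, h⟩ := by simp [rho, h]
        rw [h1]
        have h2 : iota hT (X ⟨p.1.1, h⟩) = X (Sum.inl (Sum.inl p)) := by
          unfold iota
          rw [rename_X]
          have h3 : p.1.2 = T.leg 0 := star_adj hT p.2 h
          congr 3
          apply Subtype.ext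
          exact Prod.ext rfl h3.symm
        rw [h2]
    · have h1 : rho T (X (Sum.inl (Sum.inr i))) = 0 := by simp [rho]
      rw [h1, map_zero, map_zero]
      symm
      rw [Ideal.Quotient.eq_zero_iff_mem]
      refine Ideal.subset_span (Rel.three _ ?_)
      change 3 ≤ val T (T.leg i)
      rw [hT.1 i]
      exact val_center hT
    · exact absurd v.2 (val_ne_zero hT v.1)
  have h := DFunLike.congr_fun this p
  simpa using h

/-- the symmetric polynomials of degree `j` in the leaf classes -/
noncomputable def symPoly (σ : Type) (j : ℕ) : Submodule ℚ (MvPolynomial σ ℚ) where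
  carrier := {q | q.IsHomogeneous j ∧ ∀ τ : Equiv.Perm σ, rename τ q = q}
  add_mem' := by
    rintro p q ⟨hp, hp'⟩ ⟨hq, hq'⟩
    exact ⟨hp.add hq, fun τ => by rw [map_add, hp', hq']⟩
  zero_mem' := ⟨isHomogeneous_zero _ _ _, fun τ => map_zero _⟩
  smul_mem' := by
    rintro c p ⟨hp, hp'⟩
    refine ⟨(homogeneousSubmodule σ ℚ j).smul_mem c hp, fun τ => ?_⟩
    rw [map_smul, hp']

include hT in
theorem wt_eq_one (g : Gen T) : wt T g = 1 := by
  rcases g with h | v
  · rfl
  · exact absurd v.2 (val_ne_zero hT v.1)

include hT in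
theorem isWH_iff (p : MvPolynomial (Gen T) ℚ) (j : ℕ) :
    IsWeightedHomogeneous (wt T) p j ↔ p.IsHomogeneous j := by
  have : wt T = 1 := funext fun g => wt_eq_one hT g
  rw [this]
  rfl

theorem rho_homog {p : MvPolynomial (Gen T) ℚ} {j : ℕ} (hp : p.IsHomogeneous j) :
    (rho T p).IsHomogeneous j := by
  classical
  rw [p.as_sum, map_sum]
  refine IsHomogeneous.sum _ _ _ fun d hd => ?_
  have hdj : d.degree = j := by
    have := hp (mem_support_iff.1 hd)
    rw [Finsupp.degree_eq_weight_one]
    exact this
  rw [monomial_eq, map_mul]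
  have h1 : rho T (C (coeff d p)) = C (coeff d p) := by simp [rho]
  rw [h1]
  have h2 : (rho T (d.prod fun n e => X n ^ e)).IsHomogeneous j := by
    rw [Finsupp.prod, map_prod, ← hdj]
    unfold Finsupp.degree
    refine IsHomogeneous.prod _ _ _ fun g _ => ?_
    rw [map_pow]
    have h3 : (rho T (X g)).IsHomogeneous 1 := by
      unfold rho
      rw [aeval_X]
      rcases g with (p | i) | v
      · simp only
        split_ifs
        · exact isHomogeneous_X _ _
        · exact isHomogeneous_zero _ _ _
      · exact isHomogeneous_zero _ _ _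
      · exact isHomogeneous_zero _ _ _
    have := h3.pow (d g)
    rwa [one_mul] at this
  have := (isHomogeneous_C (Leaf T) (coeff d p)).mul h2
  rwa [zero_add] at this

/-- the permutation of the leaves induced by an automorphism -/
def leafPerm {f : Equiv.Perm (Fin (e + 1))} (hf : IsIso T T f) : Equiv.Perm (Leaf T) :=
  f.subtypePerm fun v => by
    rw [not_iff_not]
    have h0 := hf.2 0
    constructor
    · intro h
      rw [← h0] at h
      exact f.injective h
    · rintro rfl
      exact h0

theorem rho_rename {f : Equiv.Perm (Fin (e + 1))} (hf : IsIso T T f)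
    (p : MvPolynomial (Gen T) ℚ) :
    rho T (rename (genMap T f hf) p) = rename (leafPerm hf) (rho T p) := by
  have : (rho T).comp (rename (genMap T f hf)) =
      (rename (leafPerm hf) : MvPolynomial (Leaf T) ℚ →ₐ[ℚ] _).comp (rho T) := by
    ext g
    congr 1
    simp only [AlgHom.coe_comp, Function.comp_apply, rename_X]
    have h0 := hf.2 0
    rcases g with (p | i) | v
    · by_cases h : p.1.1 = T.leg 0
      · have h' : f p.1.1 = T.leg 0 := by rw [h, h0]
        simp [rho, genMap, halfMap, h, h0]
      · have h' : f p.1.1 ≠ T.leg 0 := by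
          intro hh
          rw [← h0] at hh
          exact h (f.injective hh)
        simp [rho, genMap, halfMap, h, h', leafPerm]
    · simp [rho, genMap, halfMap]
    · simp [rho, genMap]
  exact DFunLike.congr_fun this p

end Star2

end Pool.Agent.H353R3.Pre
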