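import Pool.Agent.H353R3.Pre2

/-!
# Star-shaped dual graphs: dimensions of the Chow groups
-/

open MvPolynomial

namespace Pool.Agent.H353R3.Pre

theorem CHs_eq {e : ℕ} {T : DGraph 3 e} (hT : IsStar T) (j : ℕ) :
    CHs T j = (symPoly (Leaf T) j).map
      ((Ideal.Quotient.mkₐ ℚ (relI T)).toLinearMap ∘ₗ (iota hT).toLinearMap) := by
  apply le_antisymm
  · rintro _ ⟨p, ⟨hp, hp'⟩, rfl⟩
    refine ⟨rho T p, ⟨rho_homog ((isWH_iff hT p j).1 hp), fun τ => ?_⟩, ?_⟩
    · -- extend `τ` to an automorphism of the tree
      let f : Equiv.Perm (Fin (e + 1)) := Equiv.Perm.ofSubtype τ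
      have hf1 : ∀ v : Leaf T, f v.1 = (τ v).1 := fun v => Equiv.Perm.ofSubtype_apply_coe τ v
      have hf0 : f (T.leg 0) = T.leg 0 :=
        Equiv.Perm.ofSubtype_apply_of_not_mem τ (by simp)
      have hf2 : ∀ v, v ≠ T.leg 0 ↔ f v ≠ T.leg 0 := by
        intro v
        rw [not_iff_not]
        constructor
        · rintro rfl
          exact hf0
        · intro h
          rw [← hf0] at h
          exact f.injective h
      have hf : IsIso T T f := by
        refine ⟨fun v w => ?_, fun i => ?_⟩
        · rw [star_adj_iff hT, star_adj_iff hT, ← hf2, ← hf2]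
          have h1 : v = T.leg 0 ↔ f v = T.leg 0 := not_iff_not.1 (hf2 v)
          have h2 : w = T.leg 0 ↔ f w = T.leg 0 := not_iff_not.1 (hf2 w)
          rw [h1, h2]
        · rw [hT.1 i, hf0]
      have h3 := rho_relI hT (hp' f hf)
      rw [map_sub, sub_eq_zero, rho_rename] at h3
      have h4 : leafPerm hf = τ := by
        ext v
        exact congrArg Fin.val (hf1 v)
      rwa [h4] at h3
    · simp only [LinearMap.coe_comp, Function.comp_apply, AlgHom.toLinearMap_apply,
        Ideal.Quotient.mkₐ_eq_mk]
      exact mk_iota_rho hT p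
  · rintro _ ⟨q, ⟨hq, hq'⟩, rfl⟩
    refine ⟨iota hT q, ⟨?_, fun f hf => ?_⟩, rfl⟩
    · rw [isWH_iff hT]
      exact hq.rename_isHomogeneous
    · rw [← Ideal.Quotient.eq_zero_iff_mem, map_sub, sub_eq_zero, ← mk_iota_rho hT,
        rho_rename, rho_iota, hq']

theorem finrank_CHs {e : ℕ} {T : DGraph 3 e} (hT : IsStar T) (j : ℕ) :
    Module.finrank ℚ (CHs T j) = Module.finrank ℚ (symPoly (Leaf T) j) := by
  rw [CHs_eq hT]
  refine (LinearEquiv.finrank_eq (Submodule.equivMapOfInjective _ ?_ _)).symm
  intro q q' h
  simp only [LinearMap.coe_comp, Function.comp_apply, AlgHom.toLinearMap_apply,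
    Ideal.Quotient.mkₐ_eq_mk] at h
  rw [Ideal.Quotient.mk_eq_mk_iff_sub_mem] at h
  have := rho_relI hT h
  rwa [map_sub, rho_iota, rho_iota, sub_eq_zero] at this

theorem exists_perm {σ : Type} [Fintype σ] (a b : σ → ℕ)
    (h : Finset.univ.val.map a = Finset.univ.val.map b) : ∃ τ : Equiv.Perm σ, a ∘ τ = b := by
  classical
  have h1 : ∀ n, Fintype.card {i // b i = n} = Fintype.card {i // a i = n} := by
    intro n
    have h2 := congrArg (Multiset.count n) h
    rw [Multiset.count_map, Multiset.count_map] at h2
    rw [Fintype.card_subtype, Fintype.card_subtype]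
    have h3 : ∀ f : σ → ℕ, (Finset.univ.filter fun i => f i = n).card =
        (Multiset.filter (fun i => n = f i) Finset.univ.val).card := by
      intro f
      rw [← Finset.filter_val, Finset.card_val]
      congr 1
      ext i
      simp [eq_comm]
    rw [h3, h3]
    exact h2.symm
  let E : ∀ n, {i // b i = n} ≃ {i // a i = n} := fun n => Fintype.equivOfCardEq (h1 n)
  refine ⟨(Equiv.sigmaFiberEquiv b).symm.trans ((Equiv.sigmaCongrRight E).trans
    (Equiv.sigmaFiberEquiv a)), ?_⟩
  funext i
  exact (E (b i) ⟨i, rfl⟩).2

section Sym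

variable {σ : Type} [Fintype σ]

/-- the partition of `N` with `|σ|` parts associated with an exponent -/
def expPart (N : ℕ) (a : σ →₀ ℕ) (ha : a.degree + Fintype.card σ = N) : Nat.Partition N where
  parts := Finset.univ.val.map fun i => a i + 1
  parts_pos := by
    intro i hi
    obtain ⟨x, -, rfl⟩ := Multiset.mem_map.1 hi
    exact Nat.succ_pos _
  parts_sum := by
    rw [← ha]
    change ∑ i, (a i + 1) = _
    rw [Finset.sum_add_distrib, Finset.sum_const, Finset.card_univ, smul_eq_mul, mul_one,
      Finsupp.degree_eq_sum]

theorem expPart_card (N : ℕ) (a : σ →₀ ℕ) (ha : a.degree + Fintype.card σ = N) :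
    (expPart N a ha).parts.card = Fintype.card σ := by
  unfold expPart
  rw [Multiset.card_map, Finset.card_val, Finset.card_univ]

theorem expPart_surj (N : ℕ) (p : Nat.Partition N) (hp : p.parts.card = Fintype.card σ) :
    ∃ (a : σ →₀ ℕ) (ha : a.degree + Fintype.card σ = N), expPart N a ha = p := by
  classical
  obtain ⟨l, hl⟩ := Quotient.exists_rep p.parts
  have hl' : (l : Multiset ℕ) = p.parts := hl
  have hlen : l.length = Fintype.card σ := by
    rw [← hp, ← hl']
    rfl
  let E : σ ≃ Fin l.length := (Fintype.equivFin σ).trans (finCongr hlen.symm)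
  let a : σ →₀ ℕ := Finsupp.equivFunOnFinite.symm fun i => l.get (E i) - 1
  have h1 : ∀ i, a i + 1 = l.get (E i) := by
    intro i
    have : 0 < l.get (E i) := by
      refine p.parts_pos ?_
      rw [← hl']
      exact List.get_mem l _
    change l.get (E i) - 1 + 1 = _
    omega
  have h2 : Finset.univ.val.map (fun i => a i + 1) = p.parts := by
    simp only [h1]
    have h3 : (Finset.univ.val.map fun i : σ => l.get (E i)) =
        (Finset.univ.val.map fun i : Fin l.length => l.get i) := by
      have : (Finset.univ : Finset (Fin l.length)) = Finset.univ.map E.toEmbedding := by simp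
      rw [this, Finset.map_val, Multiset.map_map]
      rfl
    rw [h3, ← hl', Fin.univ_val_map, List.ofFn_get]
  have ha : a.degree + Fintype.card σ = N := by
    have h3 := p.parts_sum
    rw [← h2] at h3
    change ∑ i, (a i + 1) = _ at h3
    rw [Finset.sum_add_distrib, Finset.sum_const, Finset.card_univ, smul_eq_mul, mul_one] at h3
    rw [Finsupp.degree_eq_sum]
    exact h3
  exact ⟨a, ha, Nat.Partition.ext h2⟩

theorem coeff_eq_of_expPart (N j : ℕ) {q : MvPolynomial σ ℚ} (hq : q ∈ symPoly σ j)
    (a b : σ →₀ ℕ) (ha : a.degree + Fintype.card σ = N) (hb : b.degree + Fintype.card σ = N)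
    (h : expPart N a ha = expPart N b hb) : coeff a q = coeff b q := by
  have h1 := congrArg Nat.Partition.parts h
  simp only [expPart] at h1
  have h2 : Finset.univ.val.map (a : σ → ℕ) = Finset.univ.val.map (b : σ → ℕ) := by
    have h3 := congrArg (Multiset.map Nat.pred) h1
    simpa [Multiset.map_map, Function.comp_def] using h3
  obtain ⟨τ, hτ⟩ := exists_perm _ _ h2
  have h4 : b.mapDomain τ = a := by
    ext i
    rw [← Equiv.apply_symm_apply τ i, Finsupp.mapDomain_apply τ.injective]
    exact (congrFun hτ (τ.symm i)).symm
  have h5 := coeff_rename_mapDomain τ τ.injective q b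
  rw [h4, hq.2 τ] at h5
  exact h5

theorem finrank_symPoly (j N : ℕ) (hN : j + Fintype.card σ = N) :
    Module.finrank ℚ (symPoly σ j) =
      Fintype.card {p : Nat.Partition N // p.parts.card = Fintype.card σ} := by
  classical
  choose rep hrep hrep' using fun p : {p : Nat.Partition N // p.parts.card = Fintype.card σ} =>
    expPart_surj (σ := σ) N p.1 p.2
  let g : symPoly σ j →ₗ[ℚ] ({p : Nat.Partition N // p.parts.card = Fintype.card σ} → ℚ) :=
    { toFun := fun q p => coeff (rep p) q.1
      map_add' := fun q q' => funext fun p => coeff_add _ _ _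
      map_smul' := fun c q => funext fun p => coeff_smul _ _ _ }
  have hinj : Function.Injective g := by
    rw [← LinearMap.ker_eq_bot, LinearMap.ker_eq_bot']
    intro q hq
    apply Subtype.ext
    change q.1 = 0
    ext a
    rw [coeff_zero]
    by_cases ha : a.degree = j
    · have ha' : a.degree + Fintype.card σ = N := by rw [ha, hN]
      have h1 := congrFun hq ⟨expPart N a ha', expPart_card N a ha'⟩
      change coeff (rep ⟨expPart N a ha', expPart_card N a ha'⟩) q.1 = 0 at h1
      rw [← h1]
      refine coeff_eq_of_expPart N j q.2 _ _ ha' (hrep _) ?_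
      exact (hrep' ⟨expPart N a ha', expPart_card N a ha'⟩).symm
    · by_contra h
      refine ha ?_
      rw [Finsupp.degree_eq_weight_one]
      exact q.2.1 h
  have hsurj : Function.Surjective g := by
    intro F
    let cf : (σ →₀ ℕ) → ℚ := fun a => if ha : a.degree + Fintype.card σ = N then
      F ⟨expPart N a ha, expPart_card N a ha⟩ else 0
    have hfin : {a : σ →₀ ℕ | cf a ≠ 0}.Finite := by
      refine Set.Finite.subset (s := {a : σ →₀ ℕ | a.degree ≤ N}) ?_ ?_
      · have := Finsupp.finite_of_degree_le (σ := σ) N
        exact this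
      · intro a ha
        simp only [Set.mem_ofPred_eq, cf] at ha ⊢
        by_contra h
        rw [dif_neg (by omega)] at ha
        exact ha rfl
    let q : MvPolynomial σ ℚ := ∑ a ∈ hfin.toFinset, monomial a (cf a)
    have hqc : ∀ a, coeff a q = cf a := by
      intro a
      rw [coeff_sum]
      simp only [coeff_monomial]
      rw [Finset.sum_ite_eq']
      split_ifs with h
      · rfl
      · by_contra h'
        exact h (hfin.mem_toFinset.2 (Ne.symm h'))
    have hq : q ∈ symPoly σ j := by
      refine ⟨fun a ha => ?_, fun τ => ?_⟩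
      · rw [hqc] at ha
        simp only [cf] at ha
        have h1 : a.degree + Fintype.card σ = N := by
          by_contra h
          rw [dif_neg h] at ha
          exact ha rfl
        have h2 : a.degree = j := by omega
        rw [Finsupp.degree_eq_weight_one] at h2
        exact h2
      · ext a
        have h1 : a = (a.mapDomain τ.symm).mapDomain τ := by
          rw [← Finsupp.mapDomain_comp]
          simp [Finsupp.mapDomain_id]
        rw [h1, coeff_rename_mapDomain τ τ.injective, hqc, hqc]
        simp only [cf]
        have hv : ∀ i, (a.mapDomain τ.symm) i = a (τ i) := by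
          intro i
          conv_lhs => rw [← Equiv.symm_apply_apply τ i]
          rw [Finsupp.mapDomain_apply τ.symm.injective]
        have h3 : ((a.mapDomain τ.symm).mapDomain τ).degree = (a.mapDomain τ.symm).degree := by
          rw [← h1, Finsupp.degree_eq_sum, Finsupp.degree_eq_sum]
          simp only [hv]
          exact (Equiv.sum_comp τ _).symm
        by_cases h4 : (a.mapDomain τ.symm).degree + Fintype.card σ = N
        · have h4' : ((a.mapDomain τ.symm).mapDomain τ).degree + Fintype.card σ = N := by
            rw [h3, h4]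
          rw [dif_pos h4, dif_pos h4']
          congr 2
          apply Nat.Partition.ext
          simp only [expPart]
          rw [← h1]
          simp only [hv]
          have : (Finset.univ : Finset σ) = Finset.univ.map τ.toEmbedding := by simp
          conv_rhs => rw [this, Finset.map_val, Multiset.map_map]
          rfl
        · have h4' : ¬ ((a.mapDomain τ.symm).mapDomain τ).degree + Fintype.card σ = N := by
            rw [h3]; exact h4
          rw [dif_neg h4, dif_neg h4']
    refine ⟨⟨q, hq⟩, ?_⟩
    funext p
    change coeff (rep p) q = F p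
    rw [hqc]
    simp only [cf]
    rw [dif_pos (hrep p)]
    congr 1
    exact Subtype.ext (hrep' p)
  rw [(LinearEquiv.ofBijective g ⟨hinj, hsurj⟩).finrank_eq, Module.finrank_fintype_fun_eq_card]

end Sym

end Pool.Agent.H353R3.Pre
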