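import Pool.Agent.H353R3.Pre3

/-!
# The union of the star-shaped strata of `𝔐_{0,3}`
-/

open MvPolynomial

namespace Pool.Agent.H353R3.Pre

/-- the star with centre `0`, carrying the three markings -/
def starTree (e : ℕ) : DGraph 3 e where
  G := SimpleGraph.starGraph 0
  tree := SimpleGraph.isTree_starGraph 0
  leg _ := 0

theorem isStar_starTree (e : ℕ) : IsStar (starTree e) :=
  ⟨fun _ => rfl, fun _ hv => SimpleGraph.starGraph_center_adj (Ne.symm hv)⟩

theorem star_iso {e : ℕ} {T T' : DGraph 3 e} (hT : IsStar T) (hT' : IsStar T') :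
    ∃ f, IsIso T T' f := by
  refine ⟨Equiv.swap (T.leg 0) (T'.leg 0), fun v w => ?_, fun i => ?_⟩
  · rw [star_adj_iff hT, star_adj_iff hT']
    have h : ∀ v, v = T.leg 0 ↔ Equiv.swap (T.leg 0) (T'.leg 0) v = T'.leg 0 := by
      intro v
      constructor
      · rintro rfl
        exact Equiv.swap_apply_left _ _
      · intro h
        have h2 : Equiv.swap (T.leg 0) (T'.leg 0) v = Equiv.swap (T.leg 0) (T'.leg 0) (T.leg 0) := by
          rw [h, Equiv.swap_apply_left]
        exact (Equiv.swap _ _).injective h2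
    rw [h v, h w, Ne, Ne, h v, h w]
  · rw [hT.1 i, hT'.1 i, Equiv.swap_apply_left]

theorem isStar_of_iso {e : ℕ} {T T' : DGraph 3 e} {f : Equiv.Perm (Fin (e + 1))}
    (hf : IsIso T T' f) (hT : IsStar T) : IsStar T' := by
  refine ⟨fun i => ?_, fun v hv => ?_⟩
  · rw [← hf.2 i, ← hf.2 0, hT.1 i]
  · have h1 : f.symm v ≠ T.leg 0 := by
      rw [Ne, Equiv.symm_apply_eq, hf.2 0]
      exact hv
    have h2 := (hf.1 _ _).1 (hT.2 _ h1)
    rwa [Equiv.apply_symm_apply, hf.2 0] at h2

/-- The union of the star-shaped strata of `𝔐_{0,3}`: all markings are on one component, and all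
other components meet it. -/
def starU (e : ℕ) : Set (Stratum 3 e) := {s | ∃ T, IsStar T ∧ Quotient.mk (isoSetoid 3 e) T = s}

theorem mem_starU {e : ℕ} (T : DGraph 3 e) :
    Quotient.mk (isoSetoid 3 e) T ∈ starU e ↔ IsStar T := by
  constructor
  · rintro ⟨T', hT', h⟩
    obtain ⟨f, hf⟩ := Quotient.exact h
    exact isStar_of_iso hf hT'
  · intro h
    exact ⟨T, h, rfl⟩

theorem isStar_out {e : ℕ} {s : Stratum 3 e} (hs : s ∈ starU e) : IsStar s.out := by
  rw [← mem_starU]
  rwa [Quotient.out_eq]

theorem starU_eq (e : ℕ) : starU e = {Quotient.mk (isoSetoid 3 e) (starTree e)} := by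
  ext s
  constructor
  · rintro ⟨T, hT, rfl⟩
    exact Quotient.sound (star_iso hT (isStar_starTree e))
  · rintro rfl
    exact ⟨_, isStar_starTree e, rfl⟩

theorem isOpen_starU : IsOpenUnion starU := by
  intro e T T' h hT
  rw [mem_starU] at hT ⊢
  obtain ⟨c, a, b, hc, hab, hinj, hadj, hleg⟩ := h
  refine ⟨fun i => ?_, fun v hv => ?_⟩
  · rw [hleg, hleg, hT.1 i]
  · obtain ⟨w, rfl⟩ := hc v
    have hw : w ≠ T.leg 0 := by
      rintro rfl
      exact hv (hleg 0).symm
    rw [hadj]
    exact ⟨Ne.symm hv, T.leg 0, w, (hleg 0).symm, rfl, hT.2 w hw⟩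

theorem dimCH_starU (d : ℕ) : dimCH starU d = Fintype.card (Nat.Partition d) := by
  classical
  unfold dimCH
  have h1 : ∀ e ∈ Finset.range (d + 1), ∑ᶠ s ∈ starU e, Module.finrank ℚ (CHs s.out (d - e)) =
      (Finset.univ.filter fun p : Nat.Partition d => p.parts.card = e).card := by
    intro e he
    rw [Finset.mem_range] at he
    have h2 : ∑ᶠ s ∈ starU e, Module.finrank ℚ (CHs s.out (d - e)) =
        Module.finrank ℚ (CHs (Quotient.mk (isoSetoid 3 e) (starTree e)).out (d - e)) := by
      rw [starU_eq]
      exact finsum_mem_singleton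
    rw [h2]
    have hst : IsStar (Quotient.mk (isoSetoid 3 e) (starTree e)).out :=
      isStar_out (by rw [starU_eq]; rfl)
    have hcard : Fintype.card (Leaf (Quotient.mk (isoSetoid 3 e) (starTree e)).out) = e := by
      have := Fintype.card_subtype_compl
        (fun v => v = (Quotient.mk (isoSetoid 3 e) (starTree e)).out.leg 0)
      rw [Fintype.card_fin, Fintype.card_subtype_eq] at this
      have h3 : Fintype.card (Leaf (Quotient.mk (isoSetoid 3 e) (starTree e)).out) =
        Fintype.card {v // ¬ v = (Quotient.mk (isoSetoid 3 e) (starTree e)).out.leg 0} :=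
        Fintype.card_congr (Equiv.refl _)
      rw [h3, this]
      omega
    rw [finrank_CHs hst, finrank_symPoly (d - e) d (by rw [hcard]; omega), hcard,
      Fintype.card_subtype]
  rw [Finset.sum_congr rfl h1, ← Finset.card_univ]
  symm
  refine Finset.card_eq_sum_card_fiberwise fun p _ => ?_
  rw [Finset.mem_coe, Finset.mem_range]
  have h3 : p.parts.card ≤ d := by
    have h4 := Multiset.card_nsmul_le_sum (s := p.parts) (a := 1) fun x hx => p.parts_pos hx
    rw [p.parts_sum] at h4
    simpa using h4
  omega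

/-! ### The generating function of the partitions is not rational -/

open PowerSeries.WithPiTopology in
theorem partition_mul_pentagonal :
    (PowerSeries.mk fun d => (Fintype.card (Nat.Partition d) : ℂ)) *
      PowerSeries.pentagonalSeries ℂ = 1 := by
  classical
  have h1 := PowerSeries.WithPiTopology.hasProd_one_sub_X_pow ℂ
  have h2 := Nat.Partition.hasProd_powerSeriesMk_card_restricted ℂ (fun _ => True)
  have h3 : (fun n => ((Nat.Partition.restricted n fun _ => True).card : ℂ)) =
      fun n => (Fintype.card (Nat.Partition n) : ℂ) := by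
    funext n
    congr 2
    simp [Nat.Partition.restricted]
  rw [h3] at h2
  have h4 := h2.mul h1
  have h5 : (fun i : ℕ => (if True then ∑' j : ℕ, (PowerSeries.X : PowerSeries ℂ) ^ ((i + 1) * j)
      else 1) * (1 - PowerSeries.X ^ (i + 1))) = fun _ => 1 := by
    funext i
    rw [if_pos trivial]
    simp only [pow_mul]
    exact PowerSeries.WithPiTopology.tsum_pow_mul_one_sub_of_constantCoeff_eq_zero (by simp)
  rw [h5] at h4
  exact h4.unique hasProd_one

theorem pentagonal_gap {k : ℤ} (hk : 0 < k) {b : ℕ} (h1 : pentagonal k < b)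
    (h2 : (b : ℤ) < pentagonal k + k) : b ∉ Set.range pentagonal := by
  rintro ⟨m, rfl⟩
  have hk2 := two_mul_natCast_pentagonal k
  have hm2 := two_mul_natCast_pentagonal m
  have h1' : (pentagonal k : ℤ) < pentagonal m := by exact_mod_cast h1
  rcases lt_or_ge 0 m with hm | hm
  · rcases le_or_gt m k with h | h
    · nlinarith
    · nlinarith
  · rcases lt_or_ge (-m) k with h | h
    · nlinarith
    · nlinarith

theorem not_rational (P Q : Polynomial ℂ) (hQ : Q ≠ 0) :
    (Q : PowerSeries ℂ) * (PowerSeries.mk fun d => (Fintype.card (Nat.Partition d) : ℂ)) ≠ P := by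
  intro h
  have h1 : (Q : PowerSeries ℂ) = P * PowerSeries.pentagonalSeries ℂ := by
    rw [← h, mul_assoc, partition_mul_pentagonal, mul_one]
  have hP : P ≠ 0 := by
    rintro rfl
    rw [Polynomial.coe_zero, zero_mul, Polynomial.coe_eq_zero_iff] at h1
    exact hQ h1
  set D := P.natDegree with hD
  set k : ℤ := D + Q.natDegree + 1 with hk
  have hk0 : 0 < k := by positivity
  have hkp : k ≤ pentagonal k := by
    have := two_mul_natCast_pentagonal k
    nlinarith
  have h2 := congrArg (PowerSeries.coeff (pentagonal k + D)) h1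
  rw [Polynomial.coeff_coe, PowerSeries.coeff_mul] at h2
  rw [Polynomial.coeff_eq_zero_of_natDegree_lt (by omega)] at h2
  have h3 : ∑ p ∈ Finset.HasAntidiagonal.antidiagonal (pentagonal k + D),
      PowerSeries.coeff p.1 (P : PowerSeries ℂ) * PowerSeries.coeff p.2
        (PowerSeries.pentagonalSeries ℂ) =
      PowerSeries.coeff D (P : PowerSeries ℂ) * PowerSeries.coeff (pentagonal k)
        (PowerSeries.pentagonalSeries ℂ) := by
    refine Finset.sum_eq_single (D, pentagonal k) ?_ ?_
    · rintro ⟨a, b⟩ hab hne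
      rw [Finset.HasAntidiagonal.mem_antidiagonal] at hab
      simp only at hab ⊢
      rcases lt_trichotomy a D with h | h | h
      · have : b ∉ Set.range pentagonal := by
          refine pentagonal_gap hk0 (by omega) ?_
          omega
        rw [PowerSeries.coeff_pentagonalSeries_eq_zero ℂ this, mul_zero]
      · exfalso
        apply hne
        rw [Prod.mk.injEq]
        exact ⟨h, by omega⟩
      · rw [Polynomial.coeff_coe, Polynomial.coeff_eq_zero_of_natDegree_lt h, zero_mul]
    · intro h
      exfalso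
      apply h
      rw [Finset.HasAntidiagonal.mem_antidiagonal]
      simp only
      omega
  rw [h3, Polynomial.coeff_coe, PowerSeries.coeff_pentagonalSeries_pentagonal] at h2
  have h4 : P.coeff D ≠ 0 := by
    rw [hD, Polynomial.coeff_natDegree]
    exact Polynomial.leadingCoeff_ne_zero.2 hP
  have h5 : ((Int.negOnePow k : ℤˣ) : ℂ) ≠ 0 := by
    rcases Int.even_or_odd k with hk | hk
    · rw [Int.negOnePow_even _ hk]; simp
    · rw [Int.negOnePow_odd _ hk]; simp
  exact (mul_ne_zero h4 h5) h2.symm

theorem hilbSeries_starU :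
    hilbSeries starU = PowerSeries.mk fun d => (Fintype.card (Nat.Partition d) : ℂ) := by
  unfold hilbSeries
  congr 1
  funext d
  rw [dimCH_starU]

end Pool.Agent.H353R3.Pre
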