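import Mathlib

/-! Regularity of irredundant apolar schemes: definitions and the action by differentiation. -/

open MvPolynomial

namespace H353.Reg

variable {n : ℕ}

/-- The differential operator `∂^m = ∏ᵢ ∂ᵢ^{mᵢ}` on `Sym V = ℂ[x₀,…,x_{n-1}]`. -/
noncomputable def dd (m : Fin n →₀ ℕ) : Module.End ℂ (MvPolynomial (Fin n) ℂ) :=
  ((List.finRange n).map fun i =>
    ((pderiv i : Derivation ℂ (MvPolynomial (Fin n) ℂ) (MvPolynomial (Fin n) ℂ)).toLinearMap :
      Module.End ℂ (MvPolynomial (Fin n) ℂ)) ^ (m i)).prod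

/-- The action `g ∘ f` of `g ∈ S = Sym V*` on `f ∈ Sym V` by differentiation:
`g ∘ f = g(∂₀,…,∂_{n-1}) f = ∑ₘ gₘ ∂^m f`. -/
noncomputable def act (g f : MvPolynomial (Fin n) ℂ) : MvPolynomial (Fin n) ℂ :=
  ∑ m ∈ g.support, coeff m g • dd m f

/-- `I ⊆ S` is a homogeneous ideal. -/
def IsHomog (I : Ideal (MvPolynomial (Fin n) ℂ)) : Prop :=
  ∀ p ∈ I, ∀ i, homogeneousComponent i p ∈ I

/-- `I ⊆ S` is saturated: `(I : (x₀,…,x_{n-1})) = I`. -/
def IsSat (I : Ideal (MvPolynomial (Fin n) ℂ)) : Prop :=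
  ∀ p, (∀ i, X i * p ∈ I) → p ∈ I

/-- Hilbert function of `S/I`. -/
noncomputable def hilb (I : Ideal (MvPolynomial (Fin n) ℂ)) (i : ℕ) : ℕ :=
  Module.finrank ℂ (homogeneousSubmodule (Fin n) ℂ i ⧸
    Submodule.comap (homogeneousSubmodule (Fin n) ℂ i).subtype (I.restrictScalars ℂ))

/-- `I` is the saturated homogeneous ideal of a (nonempty) `0`-dimensional closed subscheme of
`ℙ V = ℙ^{n-1}`: the Hilbert function of `S/I` is eventually constant and nonzero. -/
def IsZeroDim (I : Ideal (MvPolynomial (Fin n) ℂ)) : Prop :=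
  IsHomog I ∧ IsSat I ∧ ∃ D, D ≠ 0 ∧ ∀ᶠ i in Filter.atTop, hilb I i = D

/-- the scheme of `I` is apolar to `f`: `I ⊆ Ann f`. -/
def Apolar (I : Ideal (MvPolynomial (Fin n) ℂ)) (f : MvPolynomial (Fin n) ℂ) : Prop :=
  ∀ g ∈ I, act g f = 0

/-- the scheme of `I` is irredundant for `f`: it is apolar to `f` and no proper closed subscheme
(that is, no strictly larger saturated homogeneous ideal) is apolar to `f`. -/
def Irredundant (I : Ideal (MvPolynomial (Fin n) ℂ)) (f : MvPolynomial (Fin n) ℂ) : Prop :=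
  Apolar I f ∧ ∀ I' : Ideal (MvPolynomial (Fin n) ℂ), IsHomog I' → IsSat I' → I < I' →
    ¬ Apolar I' f

/-- The regularity of a `0`-dimensional scheme: the least `i` such that `h(i)` is the degree of the
scheme, i.e. the eventual value of the Hilbert function. -/
noncomputable def reg (I : Ideal (MvPolynomial (Fin n) ℂ)) : ℕ :=
  sInf {i | ∀ᶠ k in Filter.atTop, hilb I k = hilb I i}

/-- `M(n,d)`: the supremum of the regularities of the `0`-dimensional schemes `X ⊆ ℙ V`,
`dim V = n`, that are irredundant for some nonzero form `f ∈ S^d V`. -/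
noncomputable def M (n d : ℕ) : ℕ∞ :=
  sSup {r : ℕ∞ | ∃ f : MvPolynomial (Fin n) ℂ, f ≠ 0 ∧ f.IsHomogeneous d ∧
    ∃ I : Ideal (MvPolynomial (Fin n) ℂ), IsZeroDim I ∧ Irredundant I f ∧ r = (reg I : ℕ∞)}

/-! ### The action on monomials -/

lemma pderiv_pow_monomial (i : Fin n) (k : ℕ) (s : Fin n →₀ ℕ) (a : ℂ) :
    (((pderiv i : Derivation ℂ (MvPolynomial (Fin n) ℂ) (MvPolynomial (Fin n) ℂ)).toLinearMap :
      Module.End ℂ (MvPolynomial (Fin n) ℂ)) ^ k) (monomial s a) =
      monomial (s - Finsupp.single i k) (a * ((s i).descFactorial k : ℂ)) := by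
  induction k with
  | zero => simp
  | succ k ih =>
    rw [pow_succ', Module.End.mul_apply, ih]
    change pderiv i _ = _
    rw [pderiv_monomial]
    congr 1
    · rw [tsub_tsub, ← Finsupp.single_add]
    · rw [mul_assoc, Nat.descFactorial_succ]
      simp [mul_comm]

lemma dd_list_monomial (m : Fin n →₀ ℕ) (L : List (Fin n)) (hL : L.Nodup) (s : Fin n →₀ ℕ) (a : ℂ) :
    ((L.map fun i =>
    ((pderiv i : Derivation ℂ (MvPolynomial (Fin n) ℂ) (MvPolynomial (Fin n) ℂ)).toLinearMap :
      Module.End ℂ (MvPolynomial (Fin n) ℂ)) ^ (m i)).prod) (monomial s a) =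
      monomial (s - (L.map fun i => Finsupp.single i (m i)).sum)
        (a * (L.map fun i => ((s i).descFactorial (m i) : ℂ)).prod) := by
  induction L with
  | nil => simp
  | cons i L ih =>
    rw [List.nodup_cons] at hL
    rw [List.map_cons, List.prod_cons, Module.End.mul_apply, ih hL.2, pderiv_pow_monomial]
    have h0 : ((L.map fun i => Finsupp.single i (m i)).sum) i = 0 := by
      clear ih
      induction L with
      | nil => simp
      | cons j L ih2 =>
        simp only [List.mem_cons, not_or, List.nodup_cons] at hL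
        rw [List.map_cons, List.sum_cons, Finsupp.add_apply,
          ih2 ⟨hL.1.2, hL.2.2⟩, Finsupp.single_apply]
        simp [Ne.symm hL.1.1]
    congr 1
    · rw [List.map_cons, List.sum_cons, tsub_tsub, add_comm]
    · rw [List.map_cons, List.prod_cons, Finsupp.tsub_apply, h0, tsub_zero, mul_assoc]
      congr 1
      rw [mul_comm]

lemma dd_monomial (m s : Fin n →₀ ℕ) (a : ℂ) :
    dd m (monomial s a) = monomial (s - m) (a * ∏ i, ((s i).descFactorial (m i) : ℂ)) := by
  unfold dd
  rw [dd_list_monomial _ _ (List.nodup_finRange n), ← List.ofFn_eq_map, List.sum_ofFn,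
    Finsupp.univ_sum_single, ← List.ofFn_eq_map, List.prod_ofFn]

lemma dd_monomial_eq_zero {m s : Fin n →₀ ℕ} (h : ¬ m ≤ s) (a : ℂ) : dd m (monomial s a) = 0 := by
  rw [dd_monomial]
  obtain ⟨i, hi⟩ : ∃ i, ¬ m i ≤ s i := by
    by_contra hc
    push Not at hc
    exact h hc
  rw [Finset.prod_eq_zero (Finset.mem_univ i)]
  · simp
  · rw [Nat.descFactorial_of_lt (not_le.1 hi)]; simp

lemma dd_eq_zero_of_degree {m : Fin n →₀ ℕ} {f : MvPolynomial (Fin n) ℂ} {d : ℕ}
    (hf : f.IsHomogeneous d) (hm : d < m.degree) : dd m f = 0 := by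
  rw [f.as_sum, map_sum]
  refine Finset.sum_eq_zero fun s hs => ?_
  apply dd_monomial_eq_zero
  intro hle
  have h1 : s.degree = d := by
    by_contra hne
    exact (mem_support_iff.1 hs) (hf.coeff_eq_zero hne)
  have h2 : m.degree ≤ s.degree := Finsupp.degree_mono hle
  omega

lemma act_eq_zero {g f : MvPolynomial (Fin n) ℂ} (h : ∀ m, coeff m g ≠ 0 → dd m f = 0) :
    act g f = 0 := by
  unfold act
  refine Finset.sum_eq_zero fun m hm => ?_
  rw [h m (mem_support_iff.1 hm), smul_zero]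

lemma act_monomial (m : Fin n →₀ ℕ) (c : ℂ) (hc : c ≠ 0) (f : MvPolynomial (Fin n) ℂ) :
    act (monomial m c) f = c • dd m f := by
  classical
  unfold act
  rw [support_monomial, if_neg hc, Finset.sum_singleton, coeff_monomial, if_pos rfl]

lemma act_one (f : MvPolynomial (Fin n) ℂ) : act 1 f = f := by
  have : (1 : MvPolynomial (Fin n) ℂ) = monomial 0 1 := by simp
  rw [this, act_monomial _ _ one_ne_zero, one_smul]
  unfold dd
  simp

end H353.Reg
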