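import Pool.Agent.H353R3.Reg1

/-! Regularity of irredundant apolar schemes: upper bounds in at most two variables. -/

open MvPolynomial

namespace H353.Reg

variable {n : ℕ}

/-- saturation in all degrees -/
lemma sat_pow {I : Ideal (MvPolynomial (Fin n) ℂ)} (hI : IsSat I) (p : MvPolynomial (Fin n) ℂ) :
    ∀ N, (∀ q : MvPolynomial (Fin n) ℂ, q.IsHomogeneous N → q * p ∈ I) → p ∈ I := by
  intro N
  induction N with
  | zero =>
    intro h
    simpa using h 1 (isHomogeneous_one _ _)
  | succ N ih =>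
    intro h
    apply ih
    intro q hq
    apply hI
    intro i
    rw [← mul_assoc]
    apply h
    rw [add_comm N 1]
    exact (isHomogeneous_X _ i).mul hq

lemma homogeneousComponent_linear_mul {l p : MvPolynomial (Fin n) ℂ} (hl : l.IsHomogeneous 1)
    (i : ℕ) : homogeneousComponent (i + 1) (l * p) = l * homogeneousComponent i p := by
  conv_lhs => rw [← sum_homogeneousComponent p]
  rw [Finset.mul_sum, map_sum]
  have h : ∀ j, homogeneousComponent (i + 1) (l * homogeneousComponent j p) =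
      if j = i then l * homogeneousComponent i p else 0 := by
    intro j
    have h1 : (l * homogeneousComponent j p) ∈ homogeneousSubmodule (Fin n) ℂ (j + 1) := by
      rw [mem_homogeneousSubmodule, add_comm]
      exact hl.mul (homogeneousComponent_isHomogeneous j p)
    rw [homogeneousComponent_of_mem h1]
    by_cases hj : j = i
    · subst hj; simp
    · rw [if_neg (by omega), if_neg hj]
  simp only [h]
  rw [Finset.sum_ite_eq']
  split_ifs with hi
  · rfl
  · rw [Finset.mem_range, not_lt] at hi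
    rw [homogeneousComponent_eq_zero i p (by omega), mul_zero]

/-- multiplication by a linear form that is bijective in a degree. -/
lemma hilb_succ_eq {I : Ideal (MvPolynomial (Fin n) ℂ)} {l : MvPolynomial (Fin n) ℂ}
    (hl : l.IsHomogeneous 1) (i : ℕ)
    (hinj : ∀ p : MvPolynomial (Fin n) ℂ, p.IsHomogeneous i → l * p ∈ I → p ∈ I)
    (hsurj : ∀ q : MvPolynomial (Fin n) ℂ, q.IsHomogeneous (i + 1) →
      ∃ r : MvPolynomial (Fin n) ℂ, r.IsHomogeneous i ∧ q - l * r ∈ I) :
    hilb I (i + 1) = hilb I i := by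
  classical
  have hmem : ∀ p ∈ homogeneousSubmodule (Fin n) ℂ i, (LinearMap.mulLeft ℂ l) p ∈
      homogeneousSubmodule (Fin n) ℂ (i + 1) := by
    intro p hp
    rw [LinearMap.mulLeft_apply, mem_homogeneousSubmodule, add_comm]
    exact hl.mul ((mem_homogeneousSubmodule _ _).1 hp)
  let φ : homogeneousSubmodule (Fin n) ℂ i →ₗ[ℂ] homogeneousSubmodule (Fin n) ℂ (i + 1) :=
    (LinearMap.mulLeft ℂ l).restrict hmem
  let P := Submodule.comap (homogeneousSubmodule (Fin n) ℂ i).subtype (I.restrictScalars ℂ)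
  let Q := Submodule.comap (homogeneousSubmodule (Fin n) ℂ (i+1)).subtype (I.restrictScalars ℂ)
  have hPQ : P ≤ Q.comap φ := by
    intro p hp
    change l * (p : MvPolynomial (Fin n) ℂ) ∈ I
    exact I.mul_mem_left _ hp
  let ψ : (homogeneousSubmodule (Fin n) ℂ i ⧸ P) →ₗ[ℂ] (homogeneousSubmodule (Fin n) ℂ (i + 1) ⧸ Q) :=
    Submodule.mapQ P Q φ hPQ
  have hbij : Function.Bijective ψ := by
    constructor
    · rw [← LinearMap.ker_eq_bot, LinearMap.ker_eq_bot']
      intro x hx
      obtain ⟨p, rfl⟩ := Submodule.mkQ_surjective P x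
      rw [Submodule.mkQ_apply, Submodule.mapQ_apply, Submodule.Quotient.mk_eq_zero] at hx
      rw [Submodule.mkQ_apply, Submodule.Quotient.mk_eq_zero]
      exact hinj p ((mem_homogeneousSubmodule _ _).1 p.2) hx
    · intro y
      obtain ⟨q, rfl⟩ := Submodule.mkQ_surjective Q y
      obtain ⟨r, hr, hqr⟩ := hsurj q ((mem_homogeneousSubmodule _ _).1 q.2)
      refine ⟨Submodule.Quotient.mk ⟨r, (mem_homogeneousSubmodule _ _).2 hr⟩, ?_⟩
      rw [Submodule.mkQ_apply, Submodule.mapQ_apply]
      rw [Submodule.Quotient.eq]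
      change l * r - (q : MvPolynomial (Fin n) ℂ) ∈ I
      rw [← neg_sub]
      exact I.neg_mem hqr
  exact (LinearEquiv.ofBijective ψ hbij).finrank_eq.symm

lemma hilb_const {I : Ideal (MvPolynomial (Fin n) ℂ)} {d : ℕ}
    (h : ∀ i, d ≤ i → hilb I (i + 1) = hilb I i) : reg I ≤ d := by
  apply Nat.sInf_le
  rw [Set.mem_ofPred_eq, Filter.eventually_atTop]
  refine ⟨d, fun k hk => ?_⟩
  induction k, hk using Nat.le_induction with
  | base => rfl
  | succ k hk ih => rw [h k hk, ih]

lemma exists_component_ne_zero {p : MvPolynomial (Fin n) ℂ} (hp : p ≠ 0) :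
    ∃ i, homogeneousComponent i p ≠ 0 := by
  by_contra hc
  push Not at hc
  apply hp
  rw [← sum_homogeneousComponent p]
  exact Finset.sum_eq_zero fun i _ => hc i

/-! ### one variable -/

lemma one_var {q : MvPolynomial (Fin 1) ℂ} {i : ℕ} (hq : q.IsHomogeneous i) :
    ∃ c : ℂ, q = monomial (Finsupp.single 0 i) c := by
  refine ⟨coeff (Finsupp.single 0 i) q, ?_⟩
  ext m
  rw [coeff_monomial]
  split_ifs with h
  · rw [h]
  · apply hq.coeff_eq_zero
    intro hd
    apply h
    refine Finsupp.ext fun j => ?_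
    have hj : j = 0 := Subsingleton.elim _ _
    subst hj
    rw [Finsupp.single_eq_same, ← hd, Finsupp.degree_eq_sum]
    simp

theorem reg_one {I : Ideal (MvPolynomial (Fin 1) ℂ)} {f : MvPolynomial (Fin 1) ℂ} (hf : f ≠ 0)
    (hI : IsZeroDim I) (h : Irredundant I f) : reg I = 0 := by
  obtain ⟨hh, hs, -⟩ := hI
  have hbot : ∀ p : MvPolynomial (Fin 1) ℂ, p ∈ I → p = 0 := by
    intro p hp
    by_contra hne
    obtain ⟨i, hi⟩ := exists_component_ne_zero hne
    obtain ⟨c, hc⟩ := one_var (homogeneousComponent_isHomogeneous i p)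
    have hc0 : c ≠ 0 := by
      rintro rfl
      apply hi
      rw [hc, map_zero]
    have h1 := hh p hp i
    rw [hc] at h1
    have hone : (1 : MvPolynomial (Fin 1) ℂ) ∈ I := by
      apply sat_pow hs 1 i
      intro q hq
      obtain ⟨b, hb⟩ := one_var hq
      rw [hb, mul_one]
      have : monomial (Finsupp.single 0 i) b = C (b / c) * monomial (Finsupp.single (0 : Fin 1) i) c := by
        rw [C_mul_monomial, div_mul_cancel₀ _ hc0]
      rw [this]
      exact I.mul_mem_left _ h1
    have := h.1 1 hone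
    rw [act_one] at this
    exact hf this
  have := hilb_const (I := I) (d := 0) (fun i _ => ?_)
  · omega
  · apply hilb_succ_eq (isHomogeneous_X ℂ (0 : Fin 1))
    · intro p _ hp
      have h0 := hbot _ hp
      rcases mul_eq_zero.1 h0 with h0 | h0
      · exact absurd h0 (X_ne_zero 0)
      · rw [h0]; exact I.zero_mem
    · intro q hq
      obtain ⟨b, hb⟩ := one_var hq
      refine ⟨monomial (Finsupp.single 0 i) b, isHomogeneous_monomial _ (by simp), ?_⟩
      rw [hb, X, monomial_mul, one_mul, ← Finsupp.single_add, add_comm 1 i, sub_self]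
      exact I.zero_mem

/-! ### two variables -/

open Polynomial in
lemma natDegree_dehom {q : MvPolynomial (Fin 2) ℂ} {N : ℕ} (hq : q.IsHomogeneous N) :
    (MvPolynomial.aeval ![(Polynomial.X : ℂ[X]), 1] q).natDegree ≤ N := by
  rw [q.as_sum, map_sum]
  apply Polynomial.natDegree_sum_le_of_forall_le
  intro m hm
  have h1 : m.degree = N := by
    by_contra hne
    exact (MvPolynomial.mem_support_iff.1 hm) (hq.coeff_eq_zero hne)
  rw [MvPolynomial.aeval_monomial, Finsupp.prod_fintype _ _ (by simp), Fin.prod_univ_two]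
  simp only [Matrix.cons_val_zero, Matrix.cons_val_one, one_pow, mul_one]
  have h2 : m 0 ≤ N := by
    rw [← h1, Finsupp.degree_eq_sum, Fin.sum_univ_two]; omega
  exact (Polynomial.natDegree_C_mul_X_pow_le _ _).trans h2

open Polynomial in
lemma linear_dvd {q : MvPolynomial (Fin 2) ℂ} {N : ℕ} (hq : q.IsHomogeneous (N + 1)) {a : ℂ}
    (ha : (MvPolynomial.aeval ![(Polynomial.X : ℂ[X]), 1] q).eval a = 0) :
    ∃ r : MvPolynomial (Fin 2) ℂ, r.IsHomogeneous N ∧
      q = (MvPolynomial.X 0 - MvPolynomial.C a * MvPolynomial.X 1) * r := by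
  obtain ⟨r', hr'⟩ := Polynomial.dvd_iff_isRoot.2 ha
  by_cases hr0 : r' = 0
  · refine ⟨0, MvPolynomial.isHomogeneous_zero _ _ _, ?_⟩
    have := Polynomial.homogenize_eq_of_isHomogeneous hq rfl
    rw [hr', hr0, mul_zero, Polynomial.homogenize_zero] at this
    rw [← this, mul_zero]
  · have hdeg : r'.natDegree ≤ N := by
      have h1 := natDegree_dehom hq
      rw [hr', Polynomial.natDegree_mul (Polynomial.X_sub_C_ne_zero a) hr0,
        Polynomial.natDegree_X_sub_C] at h1
      omega
    refine ⟨r'.homogenize N, Polynomial.isHomogeneous_homogenize r', ?_⟩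
    have := Polynomial.homogenize_eq_of_isHomogeneous hq rfl
    rw [hr', add_comm N 1, Polynomial.homogenize_mul _ _ (by simp) hdeg] at this
    rw [← this]
    congr 1
    simp

lemma linear_hom (a : ℂ) :
    (X 0 - C a * X 1 : MvPolynomial (Fin 2) ℂ).IsHomogeneous 1 := by
  apply (isHomogeneous_X _ 0).sub
  exact isHomogeneous_C_mul_X a 1

open Polynomial in
/-- a homogeneous polynomial in `I` makes the Hilbert function constant. -/
lemma hilb_two {I : Ideal (MvPolynomial (Fin 2) ℂ)} (hs : IsSat I) {g : MvPolynomial (Fin 2) ℂ}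
    {e : ℕ} (hg : g.IsHomogeneous e) (hg0 : g ≠ 0) (hgI : g ∈ I) (i : ℕ) (hi : e ≤ i + 1) :
    hilb I (i + 1) = hilb I i := by
  set δ : MvPolynomial (Fin 2) ℂ →ₐ[ℂ] ℂ[X] := MvPolynomial.aeval ![(Polynomial.X : ℂ[X]), 1] with hδ
  have hδg : δ g ≠ 0 := by
    intro h0
    apply hg0
    rw [← Polynomial.homogenize_eq_of_isHomogeneous hg rfl]
    rw [← hδ, h0, Polynomial.homogenize_zero]
  obtain ⟨a, ha⟩ : ∃ a, (δ g).eval a ≠ 0 := by
    by_contra hc
    push Not at hc
    exact hδg (Polynomial.funext fun r => by simp [hc r])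
  have key : ∀ (N : ℕ) (q : MvPolynomial (Fin 2) ℂ), q.IsHomogeneous (N + 1) → e ≤ N + 1 →
      ∃ r h : MvPolynomial (Fin 2) ℂ, r.IsHomogeneous N ∧
        q = (MvPolynomial.X 0 - MvPolynomial.C a * MvPolynomial.X 1) * r + h * g := by
    intro N q hq hN
    set c : ℂ := (δ q).eval a / (δ g).eval a with hc
    have h1 : (MvPolynomial.C c * (MvPolynomial.X 1) ^ (N + 1 - e) * g).IsHomogeneous (N + 1) := by
      have := ((MvPolynomial.isHomogeneous_C_mul_X_pow c (1 : Fin 2) (N + 1 - e)).mul hg)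
      rwa [Nat.sub_add_cancel hN] at this
    have h2 : (q - MvPolynomial.C c * (MvPolynomial.X 1) ^ (N + 1 - e) * g).IsHomogeneous (N + 1) :=
      hq.sub h1
    obtain ⟨r, hr, hqr⟩ := linear_dvd h2 (a := a) (by
      rw [← hδ, map_sub, map_mul, map_mul, map_pow]
      have hX : δ (MvPolynomial.X 1) = 1 := by simp [hδ]
      have hC : δ (MvPolynomial.C c) = Polynomial.C c := by
        rw [hδ, MvPolynomial.aeval_C]; rfl
      rw [hX, hC, one_pow, mul_one, Polynomial.eval_sub, Polynomial.eval_mul, Polynomial.eval_C, hc,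
        div_mul_cancel₀ _ ha, sub_self])
    refine ⟨r, MvPolynomial.C c * (MvPolynomial.X 1) ^ (N + 1 - e), hr, ?_⟩
    rw [← hqr]; ring
  apply hilb_succ_eq (linear_hom a)
  · intro p _ hlp
    apply sat_pow hs p (e + 1)
    intro q hq
    obtain ⟨r, h, hr, hqr⟩ := key e q hq (by omega)
    rw [hqr]
    have : ((MvPolynomial.X 0 - MvPolynomial.C a * MvPolynomial.X 1) * r + h * g) * p =
      r * ((MvPolynomial.X 0 - MvPolynomial.C a * MvPolynomial.X 1) * p) + (h * p) * g := by ring
    rw [this]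
    exact I.add_mem (I.mul_mem_left _ hlp) (I.mul_mem_left _ hgI)
  · intro q hq
    obtain ⟨r, h, hr, hqr⟩ := key i q hq hi
    refine ⟨r, hr, ?_⟩
    rw [hqr, add_sub_cancel_left]
    exact I.mul_mem_left _ hgI


lemma finrank_hom_two_ne (i : ℕ) : hilb (⊥ : Ideal (MvPolynomial (Fin 2) ℂ)) (i + 1) ≠
    hilb (⊥ : Ideal (MvPolynomial (Fin 2) ℂ)) i := by
  classical
  have h0 : ∀ i, Submodule.comap (homogeneousSubmodule (Fin 2) ℂ i).subtype
      ((⊥ : Ideal (MvPolynomial (Fin 2) ℂ)).restrictScalars ℂ) = ⊥ := by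
    intro i
    rw [eq_bot_iff]
    intro x hx
    rw [Submodule.mem_bot]
    have : (x : MvPolynomial (Fin 2) ℂ) = 0 := by simpa using hx
    exact Subtype.ext this
  have h1 : ∀ i, hilb (⊥ : Ideal (MvPolynomial (Fin 2) ℂ)) i =
      Module.finrank ℂ (homogeneousSubmodule (Fin 2) ℂ i) := by
    intro i
    unfold hilb
    rw [h0 i]
    exact (Submodule.quotEquivOfEqBot _ rfl).finrank_eq
  rw [h1, h1]
  have hfg : ∀ i, Module.Finite ℂ (homogeneousSubmodule (Fin 2) ℂ i) := fun i =>
    Module.Finite.iff_fg.2 (homogeneousSubmodule_fg (Fin 2) ℂ i)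
  have hmem : ∀ p ∈ homogeneousSubmodule (Fin 2) ℂ i, (LinearMap.mulLeft ℂ (X 0)) p ∈
      homogeneousSubmodule (Fin 2) ℂ (i + 1) := by
    intro p hp
    rw [LinearMap.mulLeft_apply, mem_homogeneousSubmodule, add_comm]
    exact (isHomogeneous_X ℂ (0 : Fin 2)).mul ((mem_homogeneousSubmodule _ _).1 hp)
  let φ : homogeneousSubmodule (Fin 2) ℂ i →ₗ[ℂ] homogeneousSubmodule (Fin 2) ℂ (i + 1) :=
    (LinearMap.mulLeft ℂ (X 0)).restrict hmem
  have hinj : Function.Injective φ := by
    rw [← LinearMap.ker_eq_bot, LinearMap.ker_eq_bot']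
    intro x hx
    have : X 0 * (x : MvPolynomial (Fin 2) ℂ) = 0 := congrArg Subtype.val hx
    rcases mul_eq_zero.1 this with h | h
    · exact absurd h (X_ne_zero 0)
    · exact Subtype.ext h
  have hns : LinearMap.range φ ≠ ⊤ := by
    intro htop
    have hx : (X 1 ^ (i + 1) : MvPolynomial (Fin 2) ℂ) ∈ homogeneousSubmodule (Fin 2) ℂ (i + 1) :=
      isHomogeneous_X_pow 1 (i + 1)
    have := LinearMap.range_eq_top.1 htop ⟨_, hx⟩
    obtain ⟨y, hy⟩ := this
    have h2 : X 0 * (y : MvPolynomial (Fin 2) ℂ) = X 1 ^ (i + 1) := congrArg Subtype.val hy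
    have h3 := congrArg (eval ![0, 1]) h2
    simp at h3
  have h4 := Submodule.finrank_lt hns
  rw [LinearMap.finrank_range_of_inj hinj] at h4
  omega

open Polynomial in
lemma exists_linear_factor {g : MvPolynomial (Fin 2) ℂ} {e : ℕ} (hg : g.IsHomogeneous (e + 1)) :
    ∃ l q : MvPolynomial (Fin 2) ℂ, l.IsHomogeneous 1 ∧ q.IsHomogeneous e ∧
      g = l * q := by
  set δ : MvPolynomial (Fin 2) ℂ →ₐ[ℂ] ℂ[X] := MvPolynomial.aeval ![(Polynomial.X : ℂ[X]), 1] with hδ
  by_cases hd : (δ g).degree = 0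
  · have hc := Polynomial.eq_C_of_degree_eq_zero hd
    generalize (δ g).coeff 0 = c at hc
    refine ⟨MvPolynomial.X 1, MvPolynomial.C c * MvPolynomial.X 1 ^ e,
      MvPolynomial.isHomogeneous_X _ _, MvPolynomial.isHomogeneous_C_mul_X_pow _ _ _, ?_⟩
    have := Polynomial.homogenize_eq_of_isHomogeneous hg rfl
    rw [← hδ, hc, Polynomial.homogenize_C] at this
    rw [← this]; ring
  · obtain ⟨a, ha⟩ := IsAlgClosed.exists_root (δ g) hd
    obtain ⟨r, hr, hgr⟩ := linear_dvd hg ha
    exact ⟨_, r, linear_hom a, hr, hgr⟩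

theorem reg_two {I : Ideal (MvPolynomial (Fin 2) ℂ)} {f : MvPolynomial (Fin 2) ℂ} {d : ℕ}
    (hfd : f.IsHomogeneous d) (hI : IsZeroDim I) (h : Irredundant I f) :
    reg I ≤ d := by
  classical
  obtain ⟨hh, hs, D, -, hD⟩ := hI
  by_cases hd : ∃ g : MvPolynomial (Fin 2) ℂ, g.IsHomogeneous (d + 1) ∧ g ≠ 0 ∧ g ∈ I
  · obtain ⟨g, hg, hg0, hgI⟩ := hd
    exact hilb_const fun i hi => hilb_two hs hg hg0 hgI i (by omega)
  · exfalso
    push Not at hd
    have hex : ∃ e, ∃ g : MvPolynomial (Fin 2) ℂ, g.IsHomogeneous e ∧ g ≠ 0 ∧ g ∈ I := by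
      by_contra hc
      push Not at hc
      have hbot : I = ⊥ := by
        rw [eq_bot_iff]
        intro p hp
        rw [Ideal.mem_bot]
        by_contra hne
        obtain ⟨i, hi⟩ := exists_component_ne_zero hne
        exact hc i _ (homogeneousComponent_isHomogeneous i p) hi (hh p hp i)
      rw [hbot, Filter.eventually_atTop] at hD
      obtain ⟨a, ha⟩ := hD
      apply finrank_hom_two_ne a
      rw [ha a le_rfl, ha (a + 1) (by omega)]
    obtain ⟨g, hg, hg0, hgI⟩ := Nat.find_spec hex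
    set e := Nat.find hex with he
    have hmin : ∀ k < e, ∀ p : MvPolynomial (Fin 2) ℂ, p.IsHomogeneous k → p ∈ I → p = 0 := by
      intro k hk p hp hpI
      by_contra hne
      exact Nat.find_min hex hk ⟨p, hp, hne, hpI⟩
    have hde : d + 1 < e := by
      by_contra hle
      push Not at hle
      have h1 : (g * X 0 ^ (d + 1 - e)).IsHomogeneous (d + 1) := by
        have := hg.mul (isHomogeneous_X_pow (R := ℂ) (0 : Fin 2) (d + 1 - e))
        rwa [Nat.add_sub_cancel' hle] at this
      exact hd _ h1 (mul_ne_zero hg0 (pow_ne_zero _ (X_ne_zero 0))) (I.mul_mem_right _ hgI)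
    obtain ⟨e', he'⟩ : ∃ e', e = e' + 1 := ⟨e - 1, by omega⟩
    rw [he'] at hg
    obtain ⟨l, q, hl, hq, hglq⟩ := exists_linear_factor hg
    have hq0 : q ≠ 0 := by rintro rfl; exact hg0 (by rw [hglq, mul_zero])
    let I' : Ideal (MvPolynomial (Fin 2) ℂ) :=
      Submodule.comap (LinearMap.mulLeft (MvPolynomial (Fin 2) ℂ) l) I
    have hI' : ∀ p, p ∈ I' ↔ l * p ∈ I := fun p => Iff.rfl
    refine h.2 I' ?_ ?_ ?_ ?_
    · intro p hp i
      rw [hI', ← homogeneousComponent_linear_mul hl]
      exact hh _ ((hI' p).1 hp) _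
    · intro p hp
      rw [hI']
      apply hs
      intro i
      have := (hI' _).1 (hp i)
      rwa [mul_left_comm] at this
    · refine lt_of_le_of_ne (fun p hp => (hI' p).2 (I.mul_mem_left _ hp)) ?_
      intro heq
      have : q ∈ I := by
        rw [heq, hI', ← hglq]; exact hgI
      exact hq0 (hmin e' (by omega) q hq this)
    · intro p hp
      apply act_eq_zero
      intro m hm
      by_cases hmd : d < m.degree
      · exact dd_eq_zero_of_degree hfd hmd
      · exfalso
        apply hm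
        have h1 : homogeneousComponent (m.degree + 1) (l * p) ∈ I := hh _ ((hI' p).1 hp) _
        have h3 : (homogeneousComponent (m.degree + 1) (l * p)).IsHomogeneous (m.degree + 1) :=
          homogeneousComponent_isHomogeneous _ _
        have h2 := hmin (m.degree + 1) (by omega) _ h3 h1
        rw [homogeneousComponent_linear_mul hl] at h2
        rcases mul_eq_zero.1 h2 with h4 | h4
        · exfalso
          apply hg0
          rw [hglq, h4, zero_mul]
        · have h5 := congrArg (coeff m) h4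
          rwa [coeff_homogeneousComponent, if_pos rfl, coeff_zero] at h5

end H353.Reg
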