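import Pool.Agent.H353R3.Reg2

/-! Regularity of irredundant apolar schemes: curvilinear examples. -/

open MvPolynomial

namespace H353.Reg

variable {n : ℕ}

open Polynomial in
/-- `xᵢ ↦ s t^{wᵢ}`. -/
noncomputable def Phi (w : Fin n → ℕ) : MvPolynomial (Fin n) ℂ →ₐ[ℂ] ℂ[X][X] :=
  MvPolynomial.aeval fun i => Polynomial.C Polynomial.X * Polynomial.X ^ (w i)

/-- the coefficient of `s^i t^l`. -/
noncomputable def lam (w : Fin n → ℕ) (i l : ℕ) (p : MvPolynomial (Fin n) ℂ) : ℂ :=
  ((Phi w p).coeff l).coeff i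

lemma lam_add (w : Fin n → ℕ) (i l : ℕ) (p q : MvPolynomial (Fin n) ℂ) :
    lam w i l (p + q) = lam w i l p + lam w i l q := by
  simp [lam]

lemma lam_sum {ι : Type*} (w : Fin n → ℕ) (i l : ℕ) (s : Finset ι)
    (p : ι → MvPolynomial (Fin n) ℂ) :
    lam w i l (∑ j ∈ s, p j) = ∑ j ∈ s, lam w i l (p j) := by
  classical
  induction s using Finset.induction_on with
  | empty => simp [lam]
  | insert a s ha ih => rw [Finset.sum_insert ha, lam_add, ih, Finset.sum_insert ha]

lemma lam_C_mul (w : Fin n → ℕ) (i l : ℕ) (c : ℂ) (p : MvPolynomial (Fin n) ℂ) :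
    lam w i l (C c * p) = c * lam w i l p := by
  have : Phi w (C c * p) = Polynomial.C (Polynomial.C c) * Phi w p := by
    rw [map_mul]; congr 1
    unfold Phi
    rw [aeval_C]; rfl
  simp [lam, this]

lemma lam_sub (w : Fin n → ℕ) (i l : ℕ) (p q : MvPolynomial (Fin n) ℂ) :
    lam w i l (p - q) = lam w i l p - lam w i l q := by
  simp [lam]

/-- the weight `w · m` -/
def wt (w : Fin n → ℕ) (m : Fin n →₀ ℕ) : ℕ := ∑ i, m i * w i

lemma lam_monomial (w : Fin n → ℕ) (i l : ℕ) (m : Fin n →₀ ℕ) (c : ℂ) :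
    lam w i l (monomial m c) = if wt w m = l ∧ m.degree = i then c else 0 := by
  have h : Phi w (monomial m c) =
      Polynomial.C (Polynomial.C c * Polynomial.X ^ m.degree) * Polynomial.X ^ (wt w m) := by
    unfold Phi
    rw [aeval_monomial, Finsupp.prod_fintype _ _ (by simp)]
    have : ∀ j : Fin n, (Polynomial.C Polynomial.X * Polynomial.X ^ w j :
        Polynomial (Polynomial ℂ)) ^ m j =
        Polynomial.C Polynomial.X ^ m j * Polynomial.X ^ (m j * w j) := by
      intro j; rw [mul_pow, ← pow_mul, mul_comm (w j)]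
    rw [Finset.prod_congr rfl fun j _ => this j, Finset.prod_mul_distrib,
      Finset.prod_pow_eq_pow_sum, Finset.prod_pow_eq_pow_sum, ← Finsupp.degree_eq_sum,
      Polynomial.C_mul, Polynomial.C_pow]
    rw [mul_assoc]
    rfl
  unfold lam
  rw [h, Polynomial.coeff_C_mul, Polynomial.coeff_X_pow]
  by_cases h1 : wt w m = l
  · rw [if_pos h1.symm, mul_one, Polynomial.coeff_C_mul, Polynomial.coeff_X_pow]
    by_cases h2 : m.degree = i
    · rw [if_pos h2.symm, if_pos ⟨h1, h2⟩, mul_one]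
    · rw [if_neg (Ne.symm h2), if_neg (fun h => h2 h.2), mul_zero]
  · rw [if_neg (Ne.symm h1), if_neg (fun h => h1 h.1), mul_zero, Polynomial.coeff_zero]

lemma lam_eq_sum (w : Fin n → ℕ) (i l : ℕ) (p : MvPolynomial (Fin n) ℂ) :
    lam w i l p = ∑ m ∈ p.support, if wt w m = l ∧ m.degree = i then coeff m p else 0 := by
  conv_lhs => rw [p.as_sum]
  rw [lam_sum]
  exact Finset.sum_congr rfl fun m _ => lam_monomial _ _ _ _ _

lemma lam_of_homog {w : Fin n → ℕ} {i k l : ℕ} {p : MvPolynomial (Fin n) ℂ}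
    (hp : p.IsHomogeneous k) (hik : i ≠ k) : lam w i l p = 0 := by
  rw [lam_eq_sum]
  refine Finset.sum_eq_zero fun m hm => ?_
  rw [if_neg]
  rintro ⟨-, h⟩
  apply mem_support_iff.1 hm
  apply hp.coeff_eq_zero
  rw [h]; exact hik

lemma lam_component (w : Fin n → ℕ) (i l k : ℕ) (p : MvPolynomial (Fin n) ℂ) :
    lam w i l (homogeneousComponent k p) = if i = k then lam w i l p else 0 := by
  split_ifs with h
  · subst h
    have h1 : lam w i l p = ∑ j ∈ Finset.range (p.totalDegree + 1),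
        lam w i l (homogeneousComponent j p) := by
      conv_lhs => rw [← sum_homogeneousComponent p]
      rw [lam_sum]
    rw [h1, Finset.sum_eq_single i]
    · intro j _ hj
      exact lam_of_homog (homogeneousComponent_isHomogeneous j p) (Ne.symm hj)
    · intro hi
      rw [Finset.mem_range, not_lt] at hi
      rw [homogeneousComponent_eq_zero i p (by omega)]
      simp [lam]
  · exact lam_of_homog (homogeneousComponent_isHomogeneous k p) h

lemma lam_X_pow_mul (w : Fin n → ℕ) (k l a : ℕ) (i : Fin n) (v : MvPolynomial (Fin n) ℂ) :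
    lam w (k + a) l (X i ^ a * v) = if a * w i ≤ l then lam w k (l - a * w i) v else 0 := by
  have h : Phi w (X i ^ a * v) = Polynomial.C (Polynomial.X ^ a) *
      (Polynomial.X ^ (a * w i) * Phi w v) := by
    rw [map_mul, map_pow, ← mul_assoc]
    congr 1
    unfold Phi
    rw [aeval_X, mul_pow, ← pow_mul, Polynomial.C_pow, mul_comm (w i)]
  unfold lam
  rw [h, Polynomial.coeff_C_mul, Polynomial.coeff_X_pow_mul, Polynomial.coeff_X_pow_mul']
  split_ifs with h1
  · rfl
  · rw [Polynomial.coeff_zero]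

lemma lam_X_mul (w : Fin n → ℕ) (k l : ℕ) (i : Fin n) (v : MvPolynomial (Fin n) ℂ) :
    lam w (k + 1) l (X i * v) = if w i ≤ l then lam w k (l - w i) v else 0 := by
  have := lam_X_pow_mul w k l 1 i v
  rwa [pow_one, one_mul] at this

/-- the ideal of the curvilinear scheme `t ↦ (t^{w_i})` truncated at `t^J`. -/
noncomputable def cur (w : Fin n → ℕ) (J : ℕ) : Ideal (MvPolynomial (Fin n) ℂ) :=
  Ideal.comap (Phi w) (Ideal.span {Polynomial.X ^ J})

lemma mem_cur {w : Fin n → ℕ} {J : ℕ} {p : MvPolynomial (Fin n) ℂ} :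
    p ∈ cur w J ↔ ∀ l < J, ∀ i, lam w i l p = 0 := by
  unfold cur
  rw [Ideal.mem_comap, Ideal.mem_span_singleton, Polynomial.X_pow_dvd_iff]
  constructor
  · intro h l hl i
    unfold lam
    rw [h l hl, Polynomial.coeff_zero]
  · intro h l hl
    ext i
    rw [Polynomial.coeff_zero]
    exact h l hl i

lemma mem_cur_of_homog {w : Fin n → ℕ} {J k : ℕ} {p : MvPolynomial (Fin n) ℂ}
    (hp : p.IsHomogeneous k) : p ∈ cur w J ↔ ∀ l < J, lam w k l p = 0 := by
  rw [mem_cur]
  refine ⟨fun h l hl => h l hl k, fun h l hl i => ?_⟩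
  by_cases hik : i = k
  · subst hik; exact h l hl
  · exact lam_of_homog hp hik

lemma cur_homog (w : Fin n → ℕ) (J : ℕ) : IsHomog (cur w J) := by
  intro p hp i
  rw [mem_cur] at hp ⊢
  intro l hl k
  rw [lam_component]
  split_ifs
  · exact hp l hl k
  · rfl

lemma cur_sat {N : ℕ} (w : Fin (N + 2) → ℕ) (hw : w 0 = 0) (J : ℕ) : IsSat (cur w J) := by
  intro p hp
  rw [mem_cur]
  intro l hl i
  have := mem_cur.1 (hp 0) l hl (i + 1)
  rwa [lam_X_mul, hw, if_pos (Nat.zero_le _), Nat.sub_zero] at this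

/-- the linear map computing the Hilbert function. -/
noncomputable def ev (w : Fin n → ℕ) (J i : ℕ) :
    homogeneousSubmodule (Fin n) ℂ i →ₗ[ℂ] (Fin J → ℂ) where
  toFun p l := lam w i l p
  map_add' p q := by ext l; exact lam_add _ _ _ _ _
  map_smul' c p := by
    ext l
    change lam w i l (c • (p : MvPolynomial (Fin n) ℂ)) = c • lam w i l p
    rw [smul_eq_C_mul, lam_C_mul, smul_eq_mul]

lemma hilb_cur (w : Fin n → ℕ) (J i : ℕ) :
    hilb (cur w J) i = Module.finrank ℂ (LinearMap.range (ev w J i)) := by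
  have h : Submodule.comap (homogeneousSubmodule (Fin n) ℂ i).subtype
      ((cur w J).restrictScalars ℂ) = LinearMap.ker (ev w J i) := by
    ext p
    rw [LinearMap.mem_ker]
    change (p : MvPolynomial (Fin n) ℂ) ∈ cur w J ↔ _
    rw [mem_cur_of_homog ((mem_homogeneousSubmodule _ _).1 p.2)]
    constructor
    · intro h; ext l; exact h l l.2
    · intro h l hl; exact congrFun h ⟨l, hl⟩
  unfold hilb
  rw [h]
  exact (LinearMap.quotKerEquivRange (ev w J i)).finrank_eq

lemma wt_single_add {N : ℕ} (w : Fin (N + 2) → ℕ) (hw0 : w 0 = 0) (hw1 : w 1 = 1) (a b : ℕ) :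
    wt w (Finsupp.single 0 a + Finsupp.single 1 b) = b := by
  unfold wt
  rw [Fin.sum_univ_succ, Fin.sum_univ_succ]
  rw [Finset.sum_eq_zero]
  · simp [hw0, hw1]
  · intro i _
    simp [Fin.ext_iff]

lemma hilb_cur_large {N : ℕ} (w : Fin (N + 2) → ℕ) (hw0 : w 0 = 0) (hw1 : w 1 = 1) (J i : ℕ)
    (hi : J ≤ i + 1) : hilb (cur w J) i = J := by
  classical
  rw [hilb_cur]
  have : LinearMap.range (ev w J i) = ⊤ := by
    rw [eq_top_iff]
    intro y _
    rw [LinearMap.mem_range]
    refine ⟨⟨∑ l : Fin J, monomial (Finsupp.single 0 (i - l) + Finsupp.single 1 (l : ℕ)) (y l), ?_⟩, ?_⟩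
    · refine Submodule.sum_mem _ fun l _ => ?_
      rw [mem_homogeneousSubmodule]
      apply isHomogeneous_monomial
      rw [map_add, Finsupp.degree_single, Finsupp.degree_single]
      have := l.2
      omega
    · ext k
      change lam w i k (∑ l : Fin J, _) = _
      rw [lam_sum, Finset.sum_eq_single k]
      · rw [lam_monomial, if_pos]
        refine ⟨wt_single_add w hw0 hw1 _ _, ?_⟩
        rw [map_add, Finsupp.degree_single, Finsupp.degree_single]
        have := k.2
        omega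
      · intro l _ hlk
        rw [lam_monomial, if_neg]
        rintro ⟨h, -⟩
        rw [wt_single_add w hw0 hw1] at h
        exact hlk (Fin.ext h)
      · intro h; exact absurd (Finset.mem_univ _) h
  rw [this, finrank_top, Module.finrank_fin_fun]

lemma hilb_cur_small (w : Fin n → ℕ) (J i l : ℕ) (hl : l < J)
    (h : ∀ m : Fin n →₀ ℕ, m.degree = i → wt w m ≠ l) : hilb (cur w J) i < J := by
  classical
  rw [hilb_cur]
  have hne : LinearMap.range (ev w J i) ≠ ⊤ := by
    intro htop
    obtain ⟨p, hp⟩ := LinearMap.range_eq_top.1 htop (Pi.single ⟨l, hl⟩ 1)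
    have h1 := congrFun hp ⟨l, hl⟩
    rw [Pi.single_eq_same] at h1
    change lam w i l p = 1 at h1
    rw [lam_eq_sum, Finset.sum_eq_zero] at h1
    · exact zero_ne_one h1
    · intro m _
      rw [if_neg]
      rintro ⟨h2, h3⟩
      exact h m h3 h2
  have := Submodule.finrank_lt hne
  rwa [Module.finrank_fin_fun] at this

lemma cur_zeroDim {N : ℕ} (w : Fin (N + 2) → ℕ) (hw0 : w 0 = 0) (hw1 : w 1 = 1) (J : ℕ)
    (hJ : J ≠ 0) : IsZeroDim (cur w J) :=
  ⟨cur_homog w J, cur_sat w hw0 J, J, hJ, Filter.eventually_atTop.2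
    ⟨J, fun i hi => hilb_cur_large w hw0 hw1 J i (by omega)⟩⟩

lemma le_reg_cur {N : ℕ} (w : Fin (N + 2) → ℕ) (hw0 : w 0 = 0) (hw1 : w 1 = 1) (J e : ℕ)
    (h : ∀ i < e, ∃ l < J, ∀ m : Fin (N + 2) →₀ ℕ, m.degree = i → wt w m ≠ l) :
    e ≤ reg (cur w J) := by
  by_contra hlt
  push Not at hlt
  have hne : {i | ∀ᶠ k in Filter.atTop, hilb (cur w J) k = hilb (cur w J) i}.Nonempty := by
    refine ⟨J, ?_⟩
    rw [Set.mem_ofPred_eq, Filter.eventually_atTop]
    refine ⟨J, fun k hk => ?_⟩
    rw [hilb_cur_large w hw0 hw1 J k (by omega), hilb_cur_large w hw0 hw1 J J (by omega)]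
  have hmem := Nat.sInf_mem hne
  change ∀ᶠ k in Filter.atTop, hilb (cur w J) k = hilb (cur w J) (reg (cur w J)) at hmem
  obtain ⟨l, hl, hl2⟩ := h _ hlt
  have h1 := hilb_cur_small w J _ l hl hl2
  obtain ⟨a, ha⟩ := Filter.eventually_atTop.1 hmem
  have h2 := ha (max a J) (le_max_left _ _)
  rw [hilb_cur_large w hw0 hw1 J _ (by omega)] at h2
  omega

/-- every strictly larger saturated homogeneous ideal contains the socle representative `u`. -/
lemma socle_mem {N : ℕ} (w : Fin (N + 2) → ℕ) (hw0 : w 0 = 0) (hw1 : w 1 = 1)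
    (hw : ∀ i, i ≠ 0 → 1 ≤ w i) (J e : ℕ) (u : MvPolynomial (Fin (N + 2)) ℂ)
    (hu : u.IsHomogeneous e) (hul : ∀ l < J, l + 1 ≠ J → lam w e l u = 0)
    (huJ : ∀ l, l + 1 = J → lam w e l u = 1)
    (I' : Ideal (MvPolynomial (Fin (N + 2)) ℂ)) (hh : IsHomog I') (hs : IsSat I')
    (hlt : cur w J < I') : u ∈ I' := by
  classical
  obtain ⟨hle, hne⟩ := hlt.le, hlt.ne
  obtain ⟨p, hp, hpn⟩ : ∃ p ∈ I', p ∉ cur w J := by
    by_contra hc
    push Not at hc
    exact hne (le_antisymm hle hc)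
  obtain ⟨i, hi⟩ : ∃ i, homogeneousComponent i p ∉ cur w J := by
    by_contra hc
    push Not at hc
    apply hpn
    rw [← sum_homogeneousComponent p]
    exact Ideal.sum_mem _ fun i _ => hc i
  set q := homogeneousComponent i p with hq
  have hqh : q.IsHomogeneous i := homogeneousComponent_isHomogeneous i p
  have hqI : q ∈ I' := hh p hp i
  have hex : ∃ r, r < J ∧ lam w i r q ≠ 0 := by
    by_contra hc
    push Not at hc
    exact hi ((mem_cur_of_homog hqh).2 hc)
  obtain ⟨hrJ, hr⟩ := Nat.find_spec hex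
  set r := Nat.find hex with hrdef
  have hmin : ∀ l < r, lam w i l q = 0 := by
    intro l hl
    by_contra hc
    exact Nat.find_min hex hl ⟨by omega, hc⟩
  set c := lam w i r q with hc
  -- multiply
  have hcong : X 0 ^ e * (X 1 ^ (J - 1 - r) * q) - C c * (X 0 ^ (i + (J - 1 - r)) * u) ∈ cur w J := by
    have hA : (X 0 ^ e * (X 1 ^ (J - 1 - r) * q)).IsHomogeneous (i + (J - 1 - r) + e) := by
      have := (isHomogeneous_X_pow (R := ℂ) (0 : Fin (N+2)) e).mul
        ((isHomogeneous_X_pow (R := ℂ) (1 : Fin (N+2)) (J - 1 - r)).mul hqh)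
      have h2 : e + (J - 1 - r + i) = i + (J - 1 - r) + e := by omega
      rwa [h2] at this
    have hB : (C c * (X 0 ^ (i + (J - 1 - r)) * u)).IsHomogeneous (i + (J - 1 - r) + e) :=
      ((isHomogeneous_X_pow (R := ℂ) (0 : Fin (N+2)) _).mul hu).C_mul c
    rw [mem_cur_of_homog (hA.sub hB)]
    intro l hl
    rw [lam_sub, lam_C_mul, lam_X_pow_mul, hw0, mul_zero, if_pos (Nat.zero_le _), Nat.sub_zero,
      lam_X_pow_mul, hw1, mul_one]
    rw [add_comm (i + (J - 1 - r)) e, lam_X_pow_mul, hw0, mul_zero, if_pos (Nat.zero_le _),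
      Nat.sub_zero]
    by_cases hlJ : l + 1 = J
    · rw [huJ l hlJ, if_pos (by omega), show l - (J - 1 - r) = r by omega, ← hc]
      ring
    · rw [hul l hl hlJ, mul_zero, sub_zero]
      split_ifs with h1
      · exact hmin _ (by omega)
      · rfl
  have h1 : C c * (X 0 ^ (i + (J - 1 - r)) * u) ∈ I' := by
    have h2 : X 0 ^ e * (X 1 ^ (J - 1 - r) * q) ∈ I' :=
      I'.mul_mem_left _ (I'.mul_mem_left _ hqI)
    have h3 := I'.sub_mem h2 (hle hcong)
    rwa [sub_sub_cancel] at h3
  have h2 : X 0 ^ (i + (J - 1 - r)) * u ∈ I' := by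
    have h3 := I'.mul_mem_left (C c⁻¹) h1
    rwa [← mul_assoc, ← C_mul, inv_mul_cancel₀ hr, C_1, one_mul] at h3
  -- saturate down
  have hdown : ∀ K, X 0 ^ K * u ∈ I' → u ∈ I' := by
    intro K
    induction K with
    | zero => intro h; simpa using h
    | succ K ih =>
      intro h
      apply ih
      apply hs
      intro k
      by_cases hk : k = 0
      · subst hk
        rw [← mul_assoc, ← pow_succ']
        exact h
      · apply hle
        have hhom : (X k * (X 0 ^ K * u)).IsHomogeneous (e + K + 1) := by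
          have := (isHomogeneous_X ℂ k).mul ((isHomogeneous_X_pow (R := ℂ) (0 : Fin (N+2)) K).mul hu)
          have h2 : 1 + (K + e) = e + K + 1 := by omega
          rwa [h2] at this
        rw [mem_cur_of_homog hhom]
        intro l hl
        rw [lam_X_mul]
        have hwk := hw k hk
        split_ifs with h1
        · rw [lam_X_pow_mul, hw0, mul_zero, if_pos (Nat.zero_le _), Nat.sub_zero]
          exact hul _ (by omega) (by omega)
        · rfl
  exact hdown _ h2

/-- the criterion for apolarity to a monomial -/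
lemma cur_apolar (w : Fin n → ℕ) (J : ℕ) (a : Fin n →₀ ℕ)
    (h1 : ∀ m ≤ a, wt w m < J)
    (h2 : ∀ m ≤ a, ∀ m' : Fin n →₀ ℕ, m'.degree = m.degree → wt w m' = wt w m → m' = m) :
    Apolar (cur w J) (monomial a 1) := by
  classical
  intro g hg
  apply act_eq_zero
  intro m hm
  by_cases hma : m ≤ a
  · exfalso
    apply hm
    have h3 := mem_cur.1 hg (wt w m) (h1 m hma) m.degree
    rw [lam_eq_sum, Finset.sum_eq_single m] at h3
    · rwa [if_pos ⟨rfl, rfl⟩] at h3
    · intro m' _ hne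
      rw [if_neg]
      rintro ⟨h4, h5⟩
      exact hne (h2 m hma m' h5 h4)
    · intro h4
      rw [if_pos ⟨rfl, rfl⟩]
      exact notMem_support_iff.1 h4
  · exact dd_monomial_eq_zero hma 1

end H353.Reg
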